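import Pool.Agent.Lib.MP_679ac2_an.H6Res

/-!
Evolution of the resolvent vectors of the finite sections along a solution.
-/

open Finset Matrix

noncomputable section

namespace H6CCM

/-- `∑_b conj(u_b) u_{b+m}`, the `m`-th Fourier coefficient of `|u|²` -/
def corr (u : ℕ → ℂ) (m : ℕ) : ℂ := ∑' b, star (u b) * u (b + m)

/-- the right-hand side of the CCM system -/
def rhs (β : ℝ) (u : ℕ → ℂ) (k : ℕ) : ℂ :=
  Complex.I * (k : ℂ) ^ 2 * u k +
    2 * (β : ℂ) * ∑ m ∈ range (k + 1), Complex.I * (m : ℂ) * corr u m * u (k - m)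

lemma Bdd.summable {s M : ℝ} (hs : 0 ≤ s) {u : ℕ → ℂ} (h : Bdd s M u) :
    Summable fun k => ‖u k‖ ^ 2 := by
  apply summable_of_sum_range_le (c := M) (fun _ => sq_nonneg _)
  intro n
  refine le_trans ?_ (h n)
  apply sum_le_sum
  intro k _
  exact le_mul_of_one_le_left (sq_nonneg _) (one_le_wt (by linarith) _)

lemma Bdd.summable_corr {s M : ℝ} (hs : 0 ≤ s) {u : ℕ → ℂ} (h : Bdd s M u) (m : ℕ) :
    Summable fun b => star (u b) * u (b + m) := by
  have h1 := h.summable hs
  have h2 : Summable fun b => ‖u (b + m)‖ ^ 2 := (summable_nat_add_iff m).mpr h1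
  refine Summable.of_norm_bounded (h1.add h2) ?_
  intro b
  rw [norm_mul, norm_star]
  nlinarith [sq_nonneg (‖u b‖ - ‖u (b + m)‖), sq_nonneg (‖u b‖), sq_nonneg (‖u (b + m)‖)]

lemma Bdd.summable_tail {s M : ℝ} (hs : 0 ≤ s) {u : ℕ → ℂ} (h : Bdd s M u) {K a b : ℕ}
    (ha : a ≤ K) (hb : b ≤ K) :
    Summable fun c => star (u (K + 1 + c - a)) * u (K + 1 + c - b) := by
  have h1 := h.summable hs
  have h2 : Summable fun c => ‖u (c + (K + 1 - a))‖ ^ 2 := (summable_nat_add_iff _).mpr h1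
  have h3 : Summable fun c => ‖u (c + (K + 1 - b))‖ ^ 2 := (summable_nat_add_iff _).mpr h1
  refine Summable.of_norm_bounded (h2.add h3) ?_
  intro c
  have e1 : K + 1 + c - a = c + (K + 1 - a) := by omega
  have e2 : K + 1 + c - b = c + (K + 1 - b) := by omega
  rw [norm_mul, norm_star, e1, e2]
  nlinarith [sq_nonneg (‖u (c + (K + 1 - a))‖ - ‖u (c + (K + 1 - b))‖),
    sq_nonneg (‖u (c + (K + 1 - a))‖), sq_nonneg (‖u (c + (K + 1 - b))‖)]

/-- tail Gram matrix -/
def Etail (K : ℕ) (u : ℕ → ℂ) : Matrix (Fin (K + 1)) (Fin (K + 1)) ℂ :=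
  Matrix.of fun a b => ∑' c, star (u (K + 1 + c - a)) * u (K + 1 + c - b)

lemma Etail_apply (K : ℕ) (u : ℕ → ℂ) (a b : Fin (K + 1)) :
    Etail K u a b = ∑' c, star (u (K + 1 + c - a)) * u (K + 1 + c - b) := rfl

lemma Etr_tendsto {s M : ℝ} (hs : 0 ≤ s) {u : ℕ → ℂ} (h : Bdd s M u) (K : ℕ)
    (a b : Fin (K + 1)) :
    Filter.Tendsto (fun L => Etr K u L a b) Filter.atTop (nhds (Etail K u a b)) :=
  (h.summable_tail hs (Nat.lt_succ_iff.mp a.2) (Nat.lt_succ_iff.mp b.2)).hasSum.tendsto_sum_nat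

lemma sum_fin_Ico (K a j : ℕ) (hj : j ≤ K) (F : ℕ → ℂ) :
    ∑ b : Fin (K + 1), (if (b : ℕ) ≤ j then (if a ≤ (b : ℕ) then F b else 0) else 0) =
      ∑ b ∈ Ico a (j + 1), F b := by
  rw [Fin.sum_univ_eq_sum_range (fun b => if b ≤ j then (if a ≤ b then F b else 0) else 0) (K + 1),
    ← sum_filter, ← sum_filter]
  apply sum_congr _ fun _ _ => rfl
  ext b
  simp only [mem_filter, mem_range, mem_Ico]
  omega

/-- product of two lower triangular Toeplitz sections -/
lemma toep_mul (K : ℕ) (f g : ℕ → ℂ) :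
    toep K f * toep K g = toep K fun k => ∑ m ∈ range (k + 1), g m * f (k - m) := by
  ext j a
  rw [Matrix.mul_apply, toep_apply]
  have hj : (j : ℕ) ≤ K := Nat.lt_succ_iff.mp j.2
  have e : ∑ b : Fin (K + 1), toep K f j b * toep K g b a =
      ∑ b : Fin (K + 1), (if (b : ℕ) ≤ (j : ℕ) then
        (if (a : ℕ) ≤ (b : ℕ) then g ((b : ℕ) - a) * f ((j : ℕ) - b) else 0) else 0) := by
    apply sum_congr rfl
    intro b _
    rw [toep_apply, toep_apply]
    split_ifs <;> ring
  rw [e, sum_fin_Ico K a j hj (fun b => g (b - a) * f (j - b)), sum_Ico_eq_sum_range]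
  split_ifs with h
  · have e1 : (j : ℕ) + 1 - a = j - a + 1 := by omega
    rw [e1]
    apply sum_congr rfl
    intro m hm
    have e2 : (a : ℕ) + m - a = m := by omega
    have e3 : (j : ℕ) - (a + m) = j - a - m := by omega
    rw [e2, e3]
  · have e1 : (j : ℕ) + 1 - a = 0 := by omega
    rw [e1]
    simp

lemma numb_mul_apply (K : ℕ) (A : Matrix (Fin (K + 1)) (Fin (K + 1)) ℂ) (a b : Fin (K + 1)) :
    (numb K * A) a b = ((a : ℕ) : ℂ) * A a b := by
  unfold numb
  rw [Matrix.diagonal_mul]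

lemma mul_numb_apply (K : ℕ) (A : Matrix (Fin (K + 1)) (Fin (K + 1)) ℂ) (a b : Fin (K + 1)) :
    (A * numb K) a b = A a b * ((b : ℕ) : ℂ) := by
  unfold numb
  rw [Matrix.mul_diagonal]

lemma numb_comm_toep (K : ℕ) (f : ℕ → ℂ) :
    numb K * toep K f - toep K f * numb K = toep K fun k => (k : ℂ) * f k := by
  ext a b
  rw [Matrix.sub_apply, numb_mul_apply, mul_numb_apply, toep_apply, toep_apply]
  split_ifs with h
  · rw [Nat.cast_sub h]
    ring
  · ring

/-- the commutator matrix -/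
def Cmat (K : ℕ) (u : ℕ → ℂ) : Matrix (Fin (K + 1)) (Fin (K + 1)) ℂ :=
  toep K fun m => (m : ℂ) * corr u m

lemma gram_ge {s M : ℝ} (hs : 0 ≤ s) {u : ℕ → ℂ} (h : Bdd s M u) (K : ℕ)
    (a b : Fin (K + 1)) (hab : (b : ℕ) ≤ a) :
    ((toep K u)ᴴ * toep K u + Etail K u) a b = corr u (a - b) := by
  rw [Matrix.add_apply, Matrix.mul_apply, Etail_apply]
  have ha : (a : ℕ) ≤ K := Nat.lt_succ_iff.mp a.2
  have hs1 := h.summable_corr hs ((a : ℕ) - b)
  have e := hs1.sum_add_tsum_nat_add (K + 1 - a)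
  unfold corr
  rw [← e]
  congr 1
  · have e1 : ∑ l : Fin (K + 1), (toep K u)ᴴ a l * toep K u l b =
        ∑ l : Fin (K + 1), (if (l : ℕ) ≤ K then (if (a : ℕ) ≤ (l : ℕ) then
          star (u ((l : ℕ) - a)) * u ((l : ℕ) - b) else 0) else 0) := by
      apply sum_congr rfl
      intro l _
      rw [Matrix.conjTranspose_apply, toep_apply, toep_apply]
      have hl : (l : ℕ) ≤ K := Nat.lt_succ_iff.mp l.2
      rw [if_pos hl]
      by_cases h1 : (a : ℕ) ≤ l
      · rw [if_pos h1, if_pos h1, if_pos (hab.trans h1)]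
      · rw [if_neg h1, if_neg h1]
        simp
    rw [e1, sum_fin_Ico K a K le_rfl (fun l => star (u (l - a)) * u (l - b)),
      sum_Ico_eq_sum_range]
    apply sum_congr rfl
    intro i _
    have e2 : (a : ℕ) + i - a = i := by omega
    have e3 : (a : ℕ) + i - b = i + (a - b) := by omega
    rw [e2, e3]
  · apply tsum_congr
    intro c
    have e2 : K + 1 + c - a = c + (K + 1 - a) := by omega
    have e3 : K + 1 + c - b = c + (K + 1 - a) + (a - b) := by omega
    rw [e2, e3]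

lemma gram_herm (K : ℕ) (u : ℕ → ℂ) (a b : Fin (K + 1)) :
    ((toep K u)ᴴ * toep K u + Etail K u) a b =
      star (((toep K u)ᴴ * toep K u + Etail K u) b a) := by
  rw [Matrix.add_apply, Matrix.add_apply, Matrix.mul_apply, Matrix.mul_apply, Etail_apply,
    Etail_apply, star_add]
  congr 1
  · rw [star_sum]
    apply sum_congr rfl
    intro l _
    rw [Matrix.conjTranspose_apply, Matrix.conjTranspose_apply, star_mul', star_star]
    ring
  · rw [tsum_star]
    apply tsum_congr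
    intro c
    rw [star_mul', star_star]
    ring

lemma Cmat_comm {s M : ℝ} (hs : 0 ≤ s) {u : ℕ → ℂ} (h : Bdd s M u) (K : ℕ) :
    Cmat K u = (Cmat K u)ᴴ + (numb K * ((toep K u)ᴴ * toep K u + Etail K u) -
      ((toep K u)ᴴ * toep K u + Etail K u) * numb K) := by
  ext a b
  rw [Matrix.add_apply, Matrix.sub_apply, numb_mul_apply, mul_numb_apply,
    Matrix.conjTranspose_apply]
  unfold Cmat
  rw [toep_apply, toep_apply]
  rcases lt_trichotomy (a : ℕ) (b : ℕ) with hab | hab | hab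
  · rw [if_neg (by omega), if_pos hab.le, gram_herm, gram_ge hs h K b a hab.le,
      Nat.cast_sub hab.le]
    simp only [star_mul', Complex.star_def, map_sub, Complex.conj_natCast]
    ring
  · rw [if_pos (by omega), if_pos (by omega), hab, Nat.sub_self]
    simp only [Nat.cast_zero, zero_mul, star_zero, zero_add]
    ring
  · rw [if_pos hab.le, if_neg (by omega), gram_ge hs h K a b hab.le, Nat.cast_sub hab.le]
    simp only [star_zero]
    ring

/-- the skew part -/
def Pmat (β : ℝ) (K : ℕ) (u : ℕ → ℂ) : Matrix (Fin (K + 1)) (Fin (K + 1)) ℂ :=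
  Complex.I • (numb K * numb K + (2 * (β : ℂ)) • (toep K u * numb K * (toep K u)ᴴ))

/-- the error matrix -/
def Rmat (β : ℝ) (K : ℕ) (u : ℕ → ℂ) : Matrix (Fin (K + 1)) (Fin (K + 1)) ℂ :=
  (2 * Complex.I * (β : ℂ) ^ 2) •
    (toep K u * (numb K * Etail K u - Etail K u * numb K) * (toep K u)ᴴ)

lemma toep_rhs (β : ℝ) (K : ℕ) (u : ℕ → ℂ) :
    toep K (rhs β u) = Complex.I • (numb K * (numb K * toep K u - toep K u * numb K) -
      (numb K * toep K u - toep K u * numb K) * numb K) +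
      (2 * (β : ℂ) * Complex.I) • (toep K u * Cmat K u) := by
  unfold Cmat
  rw [toep_mul, numb_comm_toep, numb_comm_toep]
  ext j a
  rw [Matrix.add_apply, Matrix.smul_apply, Matrix.smul_apply, toep_apply, toep_apply, toep_apply]
  split_ifs with h
  · unfold rhs
    simp only [smul_eq_mul, mul_sum]
    congr 1
    · ring
    · apply sum_congr rfl
      intro m _
      ring
  · simp

lemma numb_herm (K : ℕ) : (numb K)ᴴ = numb K := by
  unfold numb
  rw [Matrix.diagonal_conjTranspose]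
  congr 1
  funext j
  rw [Pi.star_apply, Complex.star_def, Complex.conj_natCast]

lemma lax {s M : ℝ} (hs : 0 ≤ s) {u : ℕ → ℂ} (h : Bdd s M u) (β : ℝ) (K : ℕ) (lam : ℂ) :
    (β : ℂ) • (toep K (rhs β u) * (toep K u)ᴴ + toep K u * (toep K (rhs β u))ᴴ) =
      Pmat β K u * Amat β K u lam - Amat β K u lam * Pmat β K u + Rmat β K u := by
  have hX := Cmat_comm hs h K
  have e2 : (toep K (rhs β u))ᴴ = -Complex.I • (((toep K u)ᴴ * numb K - numb K * (toep K u)ᴴ) *
      numb K - numb K * ((toep K u)ᴴ * numb K - numb K * (toep K u)ᴴ)) +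
      (-(2 * (β : ℂ) * Complex.I)) • ((Cmat K u)ᴴ * (toep K u)ᴴ) := by
    rw [toep_rhs]
    simp only [Matrix.conjTranspose_add, Matrix.conjTranspose_smul, Matrix.conjTranspose_sub,
      Matrix.conjTranspose_mul, numb_herm, Complex.star_def, map_mul, Complex.conj_I,
      Complex.conj_ofReal, Complex.conj_ofNat]
    congr 1
    congr 1
    ring
  rw [e2, toep_rhs]
  unfold Pmat Rmat Amat
  set N := numb K
  set T := toep K u
  set C := Cmat K u
  set E := Etail K u
  have main : ∀ (N T Ts C Cs E : Matrix (Fin (K + 1)) (Fin (K + 1)) ℂ) (β lam : ℂ)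
      (_ : C = Cs + (N * (Ts * T + E) - (Ts * T + E) * N)),
      β • ((Complex.I • (N * (N * T - T * N) - (N * T - T * N) * N) +
        (2 * β * Complex.I) • (T * C)) * Ts +
        T * (-Complex.I • ((Ts * N - N * Ts) * N - N * (Ts * N - N * Ts)) +
          (-(2 * β * Complex.I)) • (Cs * Ts))) =
      (Complex.I • (N * N + (2 * β) • (T * N * Ts))) * (N + β • (T * Ts) + lam • 1) -
       (N + β • (T * Ts) + lam • 1) * (Complex.I • (N * N + (2 * β) • (T * N * Ts))) +
       (2 * Complex.I * β ^ 2) • (T * (N * E - E * N) * Ts) := by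
    intro N T Ts C Cs E β lam hX
    rw [hX]
    simp only [mul_add, add_mul, mul_sub, sub_mul, smul_mul_assoc, mul_smul_comm, smul_add,
      smul_sub, smul_smul, mul_assoc, mul_one, one_mul]
    module
  exact main N T Tᴴ C Cᴴ E β lam hX

/-! ### differentiability -/

lemma det_diff {n : Type*} [Fintype n] [DecidableEq n] {A : ℝ → Matrix n n ℂ} {t0 : ℝ}
    (hA : ∀ i j, DifferentiableAt ℝ (fun t => A t i j) t0) :
    DifferentiableAt ℝ (fun t => (A t).det) t0 := by
  simp only [Matrix.det_apply]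
  apply DifferentiableAt.fun_sum
  intro σ _
  apply DifferentiableAt.const_smul
  apply DifferentiableAt.fun_finsetProd
  intro i _
  exact hA _ _

lemma inv_entry_diff {n : Type*} [Fintype n] [DecidableEq n] {A : ℝ → Matrix n n ℂ} {t0 : ℝ}
    (hA : ∀ i j, DifferentiableAt ℝ (fun t => A t i j) t0) (hdet : (A t0).det ≠ 0) (i j : n) :
    DifferentiableAt ℝ (fun t => (A t)⁻¹ i j) t0 := by
  have h1 : (fun t => (A t)⁻¹ i j) = fun t => (A t).det⁻¹ * (A t).adjugate i j := by
    funext t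
    rw [Matrix.inv_def, Matrix.smul_apply, Ring.inverse_eq_inv', smul_eq_mul]
  rw [h1]
  apply DifferentiableAt.mul
  · exact (det_diff hA).inv hdet
  · simp only [Matrix.adjugate_apply]
    apply det_diff
    intro a b
    simp only [Matrix.updateRow_apply]
    split_ifs
    · exact differentiableAt_const _
    · exact hA _ _

lemma Amat_apply (β : ℝ) (K : ℕ) (u : ℕ → ℂ) (lam : ℂ) (i j : Fin (K + 1)) :
    Amat β K u lam i j = numb K i j + (β : ℂ) * ∑ l, toep K u i l * star (toep K u j l) +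
      lam * (1 : Matrix (Fin (K + 1)) (Fin (K + 1)) ℂ) i j := by
  unfold Amat
  rw [Matrix.add_apply, Matrix.add_apply, Matrix.smul_apply, Matrix.smul_apply, Matrix.mul_apply]
  rfl

lemma toep_hasDeriv {K : ℕ} {u : ℝ → ℕ → ℂ} {u' : ℕ → ℂ} {t0 : ℝ}
    (hu : ∀ k, HasDerivAt (fun t => u t k) (u' k) t0) (i j : Fin (K + 1)) :
    HasDerivAt (fun t => toep K (u t) i j) (toep K u' i j) t0 := by
  simp only [toep_apply]
  split_ifs
  · exact hu _
  · exact hasDerivAt_const _ _

lemma Amat_hasDeriv {β : ℝ} {K : ℕ} {lam : ℂ} {u : ℝ → ℕ → ℂ} {u' : ℕ → ℂ} {t0 : ℝ}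
    (hu : ∀ k, HasDerivAt (fun t => u t k) (u' k) t0) (i j : Fin (K + 1)) :
    HasDerivAt (fun t => Amat β K (u t) lam i j)
      (((β : ℂ) • (toep K u' * (toep K (u t0))ᴴ + toep K (u t0) * (toep K u')ᴴ)) i j) t0 := by
  simp only [Amat_apply]
  have h : HasDerivAt (fun t => ∑ l, toep K (u t) i l * star (toep K (u t) j l))
      (∑ l, (toep K u' i l * star (toep K (u t0) j l) +
        toep K (u t0) i l * star (toep K u' j l))) t0 := by
    apply HasDerivAt.fun_sum
    intro l _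
    exact (toep_hasDeriv hu i l).mul (toep_hasDeriv hu j l).star
  have h2 := ((h.const_mul (β : ℂ)).const_add (numb K i j)).add_const
    (lam * (1 : Matrix (Fin (K + 1)) (Fin (K + 1)) ℂ) i j)
  refine h2.congr_deriv ?_
  rw [Matrix.smul_apply, Matrix.add_apply, Matrix.mul_apply, Matrix.mul_apply, smul_eq_mul,
    sum_add_distrib]
  rfl

lemma res_entry (β : ℝ) (K : ℕ) (u : ℕ → ℂ) (lam : ℂ) (k j : Fin (K + 1)) :
    res β K u lam k j = (Amat β K u lam)⁻¹ j k := by
  unfold res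
  rw [Matrix.mulVec_single_one]
  rfl

lemma res_diff {β : ℝ} {K : ℕ} {lam : ℂ} (him : lam.im ≠ 0) {u : ℝ → ℕ → ℂ} {u' : ℕ → ℂ} {t0 : ℝ}
    (hu : ∀ k, HasDerivAt (fun t => u t k) (u' k) t0) (k j : Fin (K + 1)) :
    DifferentiableAt ℝ (fun t => res β K (u t) lam k j) t0 := by
  simp only [res_entry]
  apply inv_entry_diff
  · intro a b
    exact (Amat_hasDeriv hu a b).differentiableAt
  · exact Amat_det him

lemma Amat_herm (β : ℝ) (K : ℕ) (u : ℕ → ℂ) (lam : ℂ) :
    (Amat β K u lam)ᴴ = Amat β K u (star lam) := by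
  unfold Amat
  simp only [Matrix.conjTranspose_add, Matrix.conjTranspose_smul, Matrix.conjTranspose_mul,
    Matrix.conjTranspose_conjTranspose, numb_herm, Matrix.conjTranspose_one, Complex.star_def,
    Complex.conj_ofReal]

lemma Pmat_e0 (β : ℝ) (K : ℕ) (u : ℕ → ℂ) :
    Pmat β K u *ᵥ (Pi.single 0 1) = 0 := by
  have h1 : numb K *ᵥ (Pi.single 0 1) = 0 := by
    funext j
    rw [numb_mv, Pi.single_apply]
    split_ifs with h
    · rw [h]; simp
    · simp
  have h2 : (toep K u)ᴴ *ᵥ (Pi.single 0 1) = star (u 0) • (Pi.single 0 1) := by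
    funext j
    rw [Matrix.mulVec_single_one, Matrix.col_apply, Matrix.conjTranspose_apply, toep_apply,
      Pi.smul_apply, Pi.single_apply]
    by_cases h : j = 0
    · rw [if_pos h, h]
      simp
    · have : ¬ ((j : ℕ) ≤ ((0 : Fin (K + 1)) : ℕ)) := by
        intro h'
        apply h
        apply Fin.ext
        simpa using h'
      rw [if_neg h, if_neg this]
      simp
  unfold Pmat
  rw [Matrix.smul_mulVec, Matrix.add_mulVec, Matrix.smul_mulVec, ← Matrix.mulVec_mulVec,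
    ← Matrix.mulVec_mulVec, ← Matrix.mulVec_mulVec, h2, Matrix.mulVec_smul, h1]
  simp

/-- the bound for the error term -/
def cErr (β s M : ℝ) (k : ℕ) : ℝ :=
  2 * β ^ 2 * (2 * Real.sqrt (cD2 s * cD3 s * (M * cP β s M 0) * (M * cP β s M k)))

lemma error_bound {β s M : ℝ} (hβ : 0 < β) (hs : 1 / 4 < s) (hs2 : s < 1 / 2) {K : ℕ} {u : ℕ → ℂ}
    (hu : Bdd s M u) {lam : ℂ} (hre : lam.re = 0) (him : 1 ≤ |lam.im|) {k : Fin (K + 1)}
    {w z : Fin (K + 1) → ℂ} (hw : Amat β K u lam *ᵥ w = Pi.single 0 1)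
    (hz : Amat β K u (star lam) *ᵥ z = Pi.single k 1) :
    ‖star z ⬝ᵥ (Rmat β K u *ᵥ w)‖ ≤ cErr β s M k * wt (1 - 4 * s) K := by
  have hs0 : 0 ≤ s := by linarith
  have hre' : (star lam).re = 0 := by simp [hre]
  have him' : 1 ≤ |(star lam).im| := by simpa using him
  have hp := p_bound hβ hs hs2 hu hre him hw
  have hq := p_bound hβ hs hs2 hu hre' him' hz
  have hp' : nrm (4 * s + 1) K ((toep K u)ᴴ *ᵥ w) ≤ cP β s M 0 := by simpa using hp
  set p := (toep K u)ᴴ *ᵥ w with hpdef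
  set q := (toep K u)ᴴ *ᵥ z with hqdef
  have h1 : star z ⬝ᵥ (Rmat β K u *ᵥ w) = (2 * Complex.I * (β : ℂ) ^ 2) *
      (star q ⬝ᵥ ((numb K * Etail K u - Etail K u * numb K) *ᵥ p)) := by
    unfold Rmat
    rw [Matrix.smul_mulVec, dotProduct_smul, smul_eq_mul, ← Matrix.mulVec_mulVec,
      ← Matrix.mulVec_mulVec, ← hpdef, Matrix.dotProduct_mulVec]
    congr 2
    rw [hqdef, Matrix.star_mulVec, Matrix.conjTranspose_conjTranspose]
  have h2 : Filter.Tendsto (fun L => ‖star q ⬝ᵥ ((numb K * Etr K u L - Etr K u L * numb K) *ᵥ p)‖)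
      Filter.atTop (nhds ‖star q ⬝ᵥ ((numb K * Etail K u - Etail K u * numb K) *ᵥ p)‖) := by
    apply Filter.Tendsto.norm
    unfold dotProduct
    apply tendsto_finsetSum
    intro a _
    apply Filter.Tendsto.const_mul
    simp only [mv_apply]
    apply tendsto_finsetSum
    intro b _
    apply Filter.Tendsto.mul_const
    simp only [Matrix.sub_apply, numb_mul_apply, mul_numb_apply]
    exact ((Etr_tendsto hs0 hu K a b).const_mul _).sub ((Etr_tendsto hs0 hu K a b).mul_const _)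
  have h3 := le_of_tendsto h2 (Filter.Eventually.of_forall fun L =>
    Etr_bound hs hs2 hu hp' hq L)
  rw [h1, norm_mul]
  have h4 : ‖(2 * Complex.I * (β : ℂ) ^ 2)‖ = 2 * β ^ 2 := by
    rw [norm_mul, norm_mul, norm_pow, Complex.norm_I, Complex.norm_real, Real.norm_eq_abs,
      sq_abs]
    simp
  rw [h4]
  unfold cErr
  calc _ ≤ 2 * β ^ 2 * (2 * Real.sqrt (cD2 s * cD3 s * (M * cP β s M 0) * (M * cP β s M k)) *
        wt (1 - 4 * s) K) := by gcongr
    _ = _ := by ring

theorem res_deriv {β s M : ℝ} (hβ : 0 < β) (hs : 1 / 4 < s) (hs2 : s < 1 / 2) {K : ℕ}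
    {u : ℝ → ℕ → ℂ} {t0 : ℝ} (hu : Bdd s M (u t0))
    (hd : ∀ k, HasDerivAt (fun t => u t k) (rhs β (u t0) k) t0)
    {lam : ℂ} (hre : lam.re = 0) (him : 1 ≤ |lam.im|) (k : Fin (K + 1)) :
    ∃ e : ℂ, HasDerivAt (fun t => res β K (u t) lam 0 k)
      ((Pmat β K (u t0) *ᵥ res β K (u t0) lam 0) k + e) t0 ∧
      ‖e‖ ≤ cErr β s M k * wt (1 - 4 * s) K := by
  have hs0 : 0 ≤ s := by linarith
  have him0 : lam.im ≠ 0 := by
    intro h; rw [h] at him; simp at him; linarith
  have him0' : (star lam).im ≠ 0 := by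
    simpa using him0
  set w := res β K (u t0) lam 0 with hw
  set wd : Fin (K + 1) → ℂ := fun j => deriv (fun t => res β K (u t) lam 0 j) t0 with hwd
  have hwder : ∀ j, HasDerivAt (fun t => res β K (u t) lam 0 j) (wd j) t0 := fun j =>
    (res_diff him0 hd 0 j).hasDerivAt
  set z := res β K (u t0) (star lam) k with hz
  have hzs : Amat β K (u t0) (star lam) *ᵥ z = Pi.single k 1 := res_spec him0' k
  have hws : Amat β K (u t0) lam *ᵥ w = Pi.single 0 1 := res_spec him0 0
  set A := Amat β K (u t0) lam with hA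
  set P := Pmat β K (u t0) with hP
  set R := Rmat β K (u t0) with hR
  set D := (β : ℂ) • (toep K (rhs β (u t0)) * (toep K (u t0))ᴴ +
      toep K (u t0) * (toep K (rhs β (u t0)))ᴴ) with hD
  have hlax : D = P * A - A * P + R := lax hs0 hu β K lam
  have hprod : D *ᵥ w + A *ᵥ wd = 0 := by
    funext j
    have h1 : HasDerivAt (fun t => ∑ a, Amat β K (u t) lam j a * res β K (u t) lam 0 a)
        (∑ a, (D j a * w a + A j a * wd a)) t0 := by
      apply HasDerivAt.fun_sum
      intro a _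
      exact (Amat_hasDeriv hd j a).mul (hwder a)
    have h2 : (fun t => ∑ a, Amat β K (u t) lam j a * res β K (u t) lam 0 a) =
        fun _ => (Pi.single 0 1 : Fin (K + 1) → ℂ) j := by
      funext t
      exact congrFun (res_spec (u := u t) him0 0) j
    rw [h2] at h1
    have h3 := h1.unique (hasDerivAt_const t0 _)
    rw [Pi.add_apply, mv_apply, mv_apply, ← sum_add_distrib, h3, Pi.zero_apply]
  have hkey : A *ᵥ (wd - P *ᵥ w) = -(R *ᵥ w) := by
    have e1 : D *ᵥ w = -(A *ᵥ (P *ᵥ w)) + R *ᵥ w := by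
      rw [hlax, Matrix.add_mulVec, Matrix.sub_mulVec, ← Matrix.mulVec_mulVec,
        ← Matrix.mulVec_mulVec, hws, hP, Pmat_e0]
      simp
    rw [Matrix.mulVec_sub]
    have e2 : A *ᵥ wd = -(D *ᵥ w) := eq_neg_of_add_eq_zero_right hprod
    rw [e2, e1]
    simp
  refine ⟨wd k - (P *ᵥ w) k, ?_, ?_⟩
  · have : (P *ᵥ w) k + (wd k - (P *ᵥ w) k) = wd k := by ring
    rw [this]
    exact hwder k
  · have e3 : wd k - (P *ᵥ w) k = -(star z ⬝ᵥ (R *ᵥ w)) := by
      have e4 : star z ⬝ᵥ (A *ᵥ (wd - P *ᵥ w)) = wd k - (P *ᵥ w) k := by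
        rw [Matrix.dotProduct_mulVec]
        have e5 : star z ᵥ* A = star (Pi.single k 1) := by
          rw [← hzs, Matrix.star_mulVec, Amat_herm, star_star]
        rw [e5]
        have e6 : (star (Pi.single k 1) : Fin (K + 1) → ℂ) = Pi.single k 1 := by
          funext i
          rw [Pi.star_apply, Pi.single_apply]
          split_ifs <;> simp
        rw [e6, single_one_dotProduct]
        rfl
      rw [← e4, hkey]
      simp
    rw [e3, norm_neg]
    exact error_bound hβ hs hs2 hu hre him hws hzs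

end H6CCM
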