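import Pool.Agent.Lib.MP_679ac2_an.H6Sums

/-!
Weighted `ℓ²` estimates for lower triangular Toeplitz sections.
-/

open Finset Matrix

noncomputable section

namespace H6CCM

/-- lower triangular Toeplitz section of size `K+1` -/
def toep (K : ℕ) (f : ℕ → ℂ) : Matrix (Fin (K + 1)) (Fin (K + 1)) ℂ :=
  Matrix.of fun j a => if (a : ℕ) ≤ (j : ℕ) then f ((j : ℕ) - (a : ℕ)) else 0

lemma toep_apply (K : ℕ) (f : ℕ → ℂ) (j a : Fin (K + 1)) :
    toep K f j a = if (a : ℕ) ≤ (j : ℕ) then f ((j : ℕ) - (a : ℕ)) else 0 := rfl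

lemma mv_apply {n : ℕ} (A : Matrix (Fin n) (Fin n) ℂ) (f : Fin n → ℂ) (j : Fin n) :
    (A *ᵥ f) j = ∑ a, A j a * f a := rfl

/-- weighted square norm -/
def nrm (τ : ℝ) (K : ℕ) (f : Fin (K + 1) → ℂ) : ℝ := ∑ a : Fin (K + 1), wt τ a * ‖f a‖ ^ 2

lemma nrm_nonneg (τ : ℝ) (K : ℕ) (f : Fin (K + 1) → ℂ) : 0 ≤ nrm τ K f :=
  sum_nonneg fun _ _ => mul_nonneg (wt_nonneg _ _) (sq_nonneg _)

lemma le_nrm {τ : ℝ} (hτ : 0 ≤ τ) (K : ℕ) (f : Fin (K + 1) → ℂ) (a : Fin (K + 1)) :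
    ‖f a‖ ^ 2 ≤ nrm τ K f := by
  have h1 : wt τ a * ‖f a‖ ^ 2 ≤ nrm τ K f :=
    single_le_sum (f := fun a : Fin (K + 1) => wt τ a * ‖f a‖ ^ 2)
      (fun i _ => mul_nonneg (wt_nonneg _ _) (sq_nonneg _)) (mem_univ a)
  have h2 : ‖f a‖ ^ 2 ≤ wt τ a * ‖f a‖ ^ 2 :=
    le_mul_of_one_le_left (sq_nonneg _) (one_le_wt hτ _)
  exact h2.trans h1

/-- the `h^s` bound on a coefficient sequence -/
def Bdd (s M : ℝ) (u : ℕ → ℂ) : Prop := ∀ n, ∑ k ∈ range n, wt (2 * s) k * ‖u k‖ ^ 2 ≤ M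

lemma Bdd.nonneg {s M : ℝ} {u : ℕ → ℂ} (h : Bdd s M u) : 0 ≤ M := by
  have := h 0
  simpa using this

lemma mulVec_est {s y τ D M : ℝ} {K : ℕ} {u : ℕ → ℂ} (hu : Bdd s M u)
    (hD : ∀ j ≤ K, wt τ j * ∑ a ∈ range (j + 1), wt (-(2 * s)) (j - a) * wt (-y) a ≤ D)
    (f : Fin (K + 1) → ℂ) :
    nrm τ K (toep K u *ᵥ f) ≤ D * (M * nrm y K f) := by
  have hM := hu.nonneg
  have hD0 : 0 ≤ D := by
    refine le_trans ?_ (hD 0 (Nat.zero_le _))
    apply mul_nonneg (wt_nonneg _ _)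
    exact sum_nonneg fun a _ => mul_nonneg (wt_nonneg _ _) (wt_nonneg _ _)
  -- per row estimate
  have hrow : ∀ j : Fin (K + 1), wt τ j * ‖(toep K u *ᵥ f) j‖ ^ 2 ≤
      D * ∑ a : Fin (K + 1), (if (a : ℕ) ≤ (j : ℕ) then
        wt (2 * s) (j - a) * ‖u (j - a)‖ ^ 2 else 0) * (wt y a * ‖f a‖ ^ 2) := by
    intro j
    have hjK : (j : ℕ) ≤ K := Nat.lt_succ_iff.mp j.2
    set S := (univ : Finset (Fin (K + 1))).filter (fun a : Fin (K + 1) => (a : ℕ) ≤ (j : ℕ)) with hS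
    have h1 : ‖(toep K u *ᵥ f) j‖ ≤ ∑ a ∈ S, ‖u (j - a)‖ * ‖f a‖ := by
      rw [mv_apply]
      refine (norm_sum_le _ _).trans ?_
      rw [hS, sum_filter]
      apply sum_le_sum
      intro a _
      rw [norm_mul, toep_apply]
      split_ifs
      · exact le_rfl
      · simp
    have h2 := cs_weighted S (fun a => wt (2 * s) (j - a) * wt y a) (fun a => ‖u (j - a)‖)
      (fun a => ‖f a‖) (fun a _ => mul_pos (wt_pos _ _) (wt_pos _ _))
    have h3 : ∑ a ∈ S, (wt (2 * s) (j - a) * wt y a)⁻¹ =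
        ∑ a ∈ range ((j : ℕ) + 1), wt (-(2 * s)) (j - a) * wt (-y) a := by
      rw [← sum_fin_ind K hjK (fun a => wt (-(2 * s)) (j - a) * wt (-y) a), hS, sum_filter]
      apply sum_congr rfl
      intro a _
      split_ifs
      · rw [mul_inv]
        unfold wt
        rw [Real.rpow_neg (base_pos _).le, Real.rpow_neg (base_pos _).le]
      · rfl
    have h4 : ∑ a ∈ S, wt (2 * s) (j - a) * wt y a * (‖u (j - a)‖ ^ 2 * ‖f a‖ ^ 2) =
        ∑ a : Fin (K + 1), (if (a : ℕ) ≤ (j : ℕ) then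
        wt (2 * s) (j - a) * ‖u (j - a)‖ ^ 2 else 0) * (wt y a * ‖f a‖ ^ 2) := by
      rw [hS, sum_filter]
      apply sum_congr rfl
      intro a _
      split_ifs
      · ring
      · ring
    rw [h3, h4] at h2
    have h5 : ‖(toep K u *ᵥ f) j‖ ^ 2 ≤ (∑ a ∈ S, ‖u (j - a)‖ * ‖f a‖) ^ 2 :=
      pow_le_pow_left₀ (norm_nonneg _) h1 2
    set Q := ∑ a : Fin (K + 1), (if (a : ℕ) ≤ (j : ℕ) then
        wt (2 * s) (j - a) * ‖u (j - a)‖ ^ 2 else 0) * (wt y a * ‖f a‖ ^ 2) with hQ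
    have hQ0 : 0 ≤ Q := by
      apply sum_nonneg
      intro a _
      apply mul_nonneg
      · split_ifs
        · exact mul_nonneg (wt_nonneg _ _) (sq_nonneg _)
        · exact le_rfl
      · exact mul_nonneg (wt_nonneg _ _) (sq_nonneg _)
    calc wt τ j * ‖(toep K u *ᵥ f) j‖ ^ 2
        ≤ wt τ j * ((∑ a ∈ range ((j : ℕ) + 1), wt (-(2 * s)) (j - a) * wt (-y) a) * Q) :=
          mul_le_mul_of_nonneg_left (h5.trans h2) (wt_nonneg _ _)
      _ = (wt τ j * ∑ a ∈ range ((j : ℕ) + 1), wt (-(2 * s)) (j - a) * wt (-y) a) * Q := by ring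
      _ ≤ D * Q := mul_le_mul_of_nonneg_right (hD j hjK) hQ0
  calc nrm τ K (toep K u *ᵥ f) ≤ ∑ j : Fin (K + 1), D * ∑ a : Fin (K + 1),
        (if (a : ℕ) ≤ (j : ℕ) then
        wt (2 * s) (j - a) * ‖u (j - a)‖ ^ 2 else 0) * (wt y a * ‖f a‖ ^ 2) :=
        sum_le_sum fun j _ => hrow j
    _ = D * ∑ a : Fin (K + 1), (∑ j : Fin (K + 1), (if (a : ℕ) ≤ (j : ℕ) then
        wt (2 * s) (j - a) * ‖u (j - a)‖ ^ 2 else 0)) * (wt y a * ‖f a‖ ^ 2) := by
        rw [← mul_sum, sum_comm]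
        congr 1
        apply sum_congr rfl
        intro a _
        rw [sum_mul]
    _ ≤ D * ∑ a : Fin (K + 1), M * (wt y a * ‖f a‖ ^ 2) := by
        apply mul_le_mul_of_nonneg_left _ hD0
        apply sum_le_sum
        intro a _
        apply mul_le_mul_of_nonneg_right _ (mul_nonneg (wt_nonneg _ _) (sq_nonneg _))
        refine (sum_fin_shift_le K a (fun m => wt (2 * s) m * ‖u m‖ ^ 2)
          (fun m => mul_nonneg (wt_nonneg _ _) (sq_nonneg _))).trans (hu _)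
    _ = D * (M * nrm y K f) := by
        unfold nrm
        rw [← mul_sum]

/-- tail of the Toeplitz operator applied to a vector supported on `[0,K]` -/
def tail (K : ℕ) (u : ℕ → ℂ) (f : Fin (K + 1) → ℂ) (c : ℕ) : ℂ :=
  ∑ a : Fin (K + 1), u (K + 1 + c - a) * f a

lemma tail_est {s y D M : ℝ} (hs : 0 ≤ s) {K : ℕ} {u : ℕ → ℂ} (hu : Bdd s M u)
    (hD : ∑ a ∈ range (K + 1), wt (-(2 * s)) (K - a) * wt (-y) a ≤ D)
    (f : Fin (K + 1) → ℂ) (L : ℕ) :
    ∑ c ∈ range L, ‖tail K u f c‖ ^ 2 ≤ D * (M * nrm y K f) := by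
  have hM := hu.nonneg
  have hD0 : 0 ≤ D := by
    refine le_trans ?_ hD
    exact sum_nonneg fun a _ => mul_nonneg (wt_nonneg _ _) (wt_nonneg _ _)
  have hrow : ∀ c, ‖tail K u f c‖ ^ 2 ≤
      D * ∑ a : Fin (K + 1), (wt (2 * s) (K + 1 + c - a) * ‖u (K + 1 + c - a)‖ ^ 2) *
        (wt y a * ‖f a‖ ^ 2) := by
    intro c
    have h1 : ‖tail K u f c‖ ≤ ∑ a : Fin (K + 1), ‖u (K + 1 + c - a)‖ * ‖f a‖ := by
      unfold tail
      refine (norm_sum_le _ _).trans ?_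
      apply sum_le_sum
      intro a _
      rw [norm_mul]
    have h2 := cs_weighted (univ : Finset (Fin (K + 1)))
      (fun a => wt (2 * s) (K + 1 + c - a) * wt y a) (fun a => ‖u (K + 1 + c - a)‖)
      (fun a => ‖f a‖) (fun a _ => mul_pos (wt_pos _ _) (wt_pos _ _))
    have h3 : ∑ a : Fin (K + 1), (wt (2 * s) (K + 1 + c - a) * wt y a)⁻¹ ≤ D := by
      refine le_trans ?_ hD
      rw [← Fin.sum_univ_eq_sum_range (fun a => wt (-(2 * s)) (K - a) * wt (-y) a) (K + 1)]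
      apply sum_le_sum
      intro a _
      have e1 : (wt (2 * s) (K + 1 + c - a) * wt y a)⁻¹ =
          wt (-(2 * s)) (K + 1 + c - a) * wt (-y) a := by
        rw [mul_inv]
        unfold wt
        rw [Real.rpow_neg (base_pos _).le, Real.rpow_neg (base_pos _).le]
      rw [e1]
      apply mul_le_mul_of_nonneg_right _ (wt_nonneg _ _)
      apply wt_neg_anti (by linarith)
      omega
    have h5 : ‖tail K u f c‖ ^ 2 ≤ (∑ a : Fin (K + 1), ‖u (K + 1 + c - a)‖ * ‖f a‖) ^ 2 :=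
      pow_le_pow_left₀ (norm_nonneg _) h1 2
    refine h5.trans (h2.trans ?_)
    have e2 : ∑ a : Fin (K + 1), wt (2 * s) (K + 1 + c - a) * wt y a *
        (‖u (K + 1 + c - a)‖ ^ 2 * ‖f a‖ ^ 2) =
        ∑ a : Fin (K + 1), (wt (2 * s) (K + 1 + c - a) * ‖u (K + 1 + c - a)‖ ^ 2) *
        (wt y a * ‖f a‖ ^ 2) := by
      apply sum_congr rfl
      intro a _
      ring
    rw [e2]
    apply mul_le_mul_of_nonneg_right h3
    apply sum_nonneg
    intro a _
    exact mul_nonneg (mul_nonneg (wt_nonneg _ _) (sq_nonneg _))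
      (mul_nonneg (wt_nonneg _ _) (sq_nonneg _))
  calc ∑ c ∈ range L, ‖tail K u f c‖ ^ 2 ≤ ∑ c ∈ range L, D * ∑ a : Fin (K + 1),
        (wt (2 * s) (K + 1 + c - a) * ‖u (K + 1 + c - a)‖ ^ 2) * (wt y a * ‖f a‖ ^ 2) :=
        sum_le_sum fun c _ => hrow c
    _ = D * ∑ a : Fin (K + 1), (∑ c ∈ range L,
        (wt (2 * s) (K + 1 + c - a) * ‖u (K + 1 + c - a)‖ ^ 2)) * (wt y a * ‖f a‖ ^ 2) := by
        rw [← mul_sum, sum_comm]
        congr 1
        apply sum_congr rfl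
        intro a _
        rw [sum_mul]
    _ ≤ D * ∑ a : Fin (K + 1), M * (wt y a * ‖f a‖ ^ 2) := by
        apply mul_le_mul_of_nonneg_left _ hD0
        apply sum_le_sum
        intro a _
        apply mul_le_mul_of_nonneg_right _ (mul_nonneg (wt_nonneg _ _) (sq_nonneg _))
        refine le_trans ?_ (hu (K + 1 + L))
        have ha := a.2
        have hinj : Set.InjOn (fun c => K + 1 + c - (a : ℕ)) (range L : Set ℕ) := by
          intro x hx y hy hxy
          simp only at hxy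
          omega
        rw [← sum_image (f := fun m => wt (2 * s) m * ‖u m‖ ^ 2)
          (g := fun c => K + 1 + c - (a : ℕ)) hinj]
        apply sum_le_sum_of_subset_of_nonneg
        · intro m hm
          simp only [mem_image, mem_range] at hm ⊢
          omega
        · intro i _ _
          exact mul_nonneg (wt_nonneg _ _) (sq_nonneg _)
    _ = D * (M * nrm y K f) := by
        unfold nrm
        rw [← mul_sum]

lemma conjTranspose_mulVec_est {s θ M : ℝ} (hs0 : 0 ≤ s) (hs1 : 2 * s < 1) (hθ : 0 ≤ θ) {K : ℕ}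
    {u : ℕ → ℂ} (hu : Bdd s M u) (w : Fin (K + 1) → ℂ) :
    nrm θ K ((toep K u)ᴴ *ᵥ w) ≤ M / (1 - 2 * s) * nrm (θ + 1 - 2 * s) K w := by
  have hM := hu.nonneg
  have h12 : 0 < 1 - 2 * s := by linarith
  have hrow : ∀ a : Fin (K + 1), ‖((toep K u)ᴴ *ᵥ w) a‖ ^ 2 ≤
      M * ∑ j : Fin (K + 1), (if (a : ℕ) ≤ (j : ℕ) then wt (-(2 * s)) (j - a) else 0) *
        ‖w j‖ ^ 2 := by
    intro a
    set S := (univ : Finset (Fin (K + 1))).filter (fun j : Fin (K + 1) => (a : ℕ) ≤ (j : ℕ)) with hS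
    have h1 : ‖((toep K u)ᴴ *ᵥ w) a‖ ≤ ∑ j ∈ S, ‖u (j - a)‖ * ‖w j‖ := by
      rw [mv_apply]
      refine (norm_sum_le _ _).trans ?_
      rw [hS, sum_filter]
      apply sum_le_sum
      intro j _
      rw [norm_mul, Matrix.conjTranspose_apply, toep_apply]
      split_ifs
      · simp
      · simp
    have h2 : (∑ j ∈ S, ‖u (j - a)‖ * ‖w j‖) ^ 2 ≤
        (∑ j ∈ S, wt (2 * s) (j - a) * ‖u (j - a)‖ ^ 2) *
          (∑ j ∈ S, wt (-(2 * s)) (j - a) * ‖w j‖ ^ 2) := by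
      apply Finset.sum_sq_le_sum_mul_sum_of_sq_le_mul
      · intro i _; exact mul_nonneg (wt_nonneg _ _) (sq_nonneg _)
      · intro i _; exact mul_nonneg (wt_nonneg _ _) (sq_nonneg _)
      · intro i _
        have : wt (2 * s) (i - a) * wt (-(2 * s)) (i - a) = 1 := by
          rw [wt_mul]; simp [wt_zero]
        apply le_of_eq
        calc (‖u (i - a)‖ * ‖w i‖) ^ 2 = 1 * (‖u (i - a)‖ ^ 2 * ‖w i‖ ^ 2) := by ring
          _ = wt (2 * s) (i - a) * wt (-(2 * s)) (i - a) * (‖u (i - a)‖ ^ 2 * ‖w i‖ ^ 2) := by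
              rw [this]
          _ = _ := by ring
    have h3 : ∑ j ∈ S, wt (2 * s) (j - a) * ‖u (j - a)‖ ^ 2 ≤ M := by
      rw [hS, sum_filter]
      exact (sum_fin_shift_le K a (fun m => wt (2 * s) m * ‖u m‖ ^ 2)
          (fun m => mul_nonneg (wt_nonneg _ _) (sq_nonneg _))).trans (hu _)
    have h4 : ∑ j ∈ S, wt (-(2 * s)) (j - a) * ‖w j‖ ^ 2 = ∑ j : Fin (K + 1),
        (if (a : ℕ) ≤ (j : ℕ) then wt (-(2 * s)) (j - a) else 0) * ‖w j‖ ^ 2 := by
      rw [hS, sum_filter]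
      apply sum_congr rfl
      intro j _
      split_ifs
      · rfl
      · simp
    have h5 : ‖((toep K u)ᴴ *ᵥ w) a‖ ^ 2 ≤ (∑ j ∈ S, ‖u (j - a)‖ * ‖w j‖) ^ 2 :=
      pow_le_pow_left₀ (norm_nonneg _) h1 2
    refine h5.trans (h2.trans ?_)
    rw [← h4]
    apply mul_le_mul_of_nonneg_right h3
    exact sum_nonneg fun i _ => mul_nonneg (wt_nonneg _ _) (sq_nonneg _)
  calc nrm θ K ((toep K u)ᴴ *ᵥ w) ≤ ∑ a : Fin (K + 1), wt θ a * (M * ∑ j : Fin (K + 1),
        (if (a : ℕ) ≤ (j : ℕ) then wt (-(2 * s)) (j - a) else 0) * ‖w j‖ ^ 2) := by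
        apply sum_le_sum
        intro a _
        exact mul_le_mul_of_nonneg_left (hrow a) (wt_nonneg _ _)
    _ = M * ∑ j : Fin (K + 1), (∑ a : Fin (K + 1),
        (if (a : ℕ) ≤ (j : ℕ) then wt θ a * wt (-(2 * s)) (j - a) else 0)) * ‖w j‖ ^ 2 := by
        simp only [mul_sum, sum_mul]
        rw [sum_comm]
        apply sum_congr rfl
        intro j _
        apply sum_congr rfl
        intro a _
        split_ifs <;> ring
    _ ≤ M * ∑ j : Fin (K + 1), (wt (θ + 1 - 2 * s) j / (1 - 2 * s)) * ‖w j‖ ^ 2 := by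
        apply mul_le_mul_of_nonneg_left _ hM
        apply sum_le_sum
        intro j _
        apply mul_le_mul_of_nonneg_right _ (sq_nonneg _)
        have hjK : (j : ℕ) ≤ K := Nat.lt_succ_iff.mp j.2
        rw [sum_fin_ind K hjK (fun a => wt θ a * wt (-(2 * s)) (j - a))]
        calc ∑ a ∈ range ((j : ℕ) + 1), wt θ a * wt (-(2 * s)) (j - a)
            ≤ ∑ a ∈ range ((j : ℕ) + 1), wt θ j * wt (-(2 * s)) (j - a) := by
              apply sum_le_sum
              intro a ha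
              apply mul_le_mul_of_nonneg_right _ (wt_nonneg _ _)
              exact wt_le_wt_right hθ (Nat.lt_succ_iff.mp (mem_range.mp ha))
          _ = wt θ j * ∑ a ∈ range ((j : ℕ) + 1), wt (-(2 * s)) a := by
              rw [← mul_sum]
              congr 1
              have := Finset.sum_range_reflect (fun a => wt (-(2 * s)) a) ((j : ℕ) + 1)
              simpa using this
          _ ≤ wt θ j * (wt (1 - 2 * s) j / (1 - 2 * s)) :=
              mul_le_mul_of_nonneg_left (sum_wt_neg_le (by linarith) hs1 _) (wt_nonneg _ _)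
          _ = wt (θ + 1 - 2 * s) j / (1 - 2 * s) := by
              rw [mul_div_assoc', wt_mul]
              congr 2
              ring
    _ = M / (1 - 2 * s) * nrm (θ + 1 - 2 * s) K w := by
        unfold nrm
        rw [mul_sum, mul_sum]
        apply sum_congr rfl
        intro j _
        ring

end H6CCM
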