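import Mathlib

/-!
A uniqueness lemma of Mikusiński type: a continuous function whose exponential moments
`∫₀ᴸ g(x) e^{κ n x} dx` stay bounded as `n → ∞` vanishes.
-/

open Set MeasureTheory Filter Topology

noncomputable section

namespace H6CCM

lemma real_exp_hasSum (y : ℝ) : HasSum (fun n : ℕ => y ^ n / (n.factorial : ℝ)) (Real.exp y) := by
  rw [Real.exp_eq_exp_ℝ]
  exact NormedSpace.expSeries_div_hasSum_exp y

lemma complex_exp_hasSum (y : ℂ) :
    HasSum (fun n : ℕ => y ^ n / (n.factorial : ℂ)) (Complex.exp y) := by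
  rw [Complex.exp_eq_exp_ℂ]
  exact NormedSpace.expSeries_div_hasSum_exp y

lemma mik_step {L : ℝ} (hL : 0 < L) {g : ℝ → ℂ} (hg : ContinuousOn g (Icc 0 L)) {C κ : ℝ}
    (hκ : 0 < κ) {n : ℕ} (hn : 1 ≤ n)
    (h : ∀ m : ℕ, 1 ≤ m → ‖∫ x in (0 : ℝ)..L, g x * Complex.exp ((κ * (n * m : ℕ) * x : ℝ))‖ ≤ C)
    {x : ℝ} (hx : 0 < x) :
    ‖(∫ σ in (0 : ℝ)..L, g σ * Complex.exp (-Complex.exp ((κ * n * (σ - x) : ℝ)))) -
      ∫ σ in (0 : ℝ)..L, g σ‖ ≤ C * Real.exp 1 * Real.exp (-(κ * n * x)) := by
  have huIcc : Set.uIcc (0 : ℝ) L = Icc 0 L := Set.uIcc_of_le hL.le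
  obtain ⟨B, hB⟩ := isCompact_Icc.exists_bound_of_continuousOn hg
  have hB0 : 0 ≤ B := (norm_nonneg _).trans (hB 0 ⟨le_rfl, hL.le⟩)
  set F : ℕ → ℝ → ℂ := fun m σ =>
    g σ * ((-Complex.exp ((κ * n * (σ - x) : ℝ))) ^ m / (m.factorial : ℂ)) with hF
  have hFc : ∀ m, ContinuousOn (F m) (Icc 0 L) := by
    intro m
    apply hg.mul
    fun_prop
  have hFint : ∀ m, IntervalIntegrable (F m) volume 0 L := by
    intro m
    apply ContinuousOn.intervalIntegrable
    rw [huIcc]
    exact hFc m
  set E : ℝ := Real.exp (κ * n * L) with hE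
  have hbound : ∀ m, ∀ σ ∈ Icc (0 : ℝ) L, ‖F m σ‖ ≤ B * (E ^ m / (m.factorial : ℝ)) := by
    intro m σ hσ
    rw [hF]
    simp only [norm_mul, norm_div, norm_pow, norm_neg, Complex.norm_exp, Complex.ofReal_re,
      Complex.norm_natCast]
    apply mul_le_mul (hB σ hσ) _ (by positivity) hB0
    gcongr
    rw [hE]
    apply Real.exp_le_exp.mpr
    have : 0 ≤ κ * n := by positivity
    apply mul_le_mul_of_nonneg_left _ this
    linarith [hσ.2]
  have hsumE : Summable fun m : ℕ => B * (E ^ m / (m.factorial : ℝ)) :=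
    (real_exp_hasSum E).summable.mul_left B
  have hS : HasSum (fun m => ∫ σ in (0 : ℝ)..L, F m σ)
      (∫ σ in (0 : ℝ)..L, g σ * Complex.exp (-Complex.exp ((κ * n * (σ - x) : ℝ)))) := by
    apply intervalIntegral.hasSum_integral_of_dominated_convergence
      (fun m _ => B * (E ^ m / (m.factorial : ℝ)))
    · intro m
      exact (hFint m).aestronglyMeasurable_restrict_uIoc
    · intro m
      apply Eventually.of_forall
      intro σ hσ
      rw [Set.uIoc_of_le hL.le] at hσ
      exact hbound m σ (Ioc_subset_Icc_self hσ)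
    · apply Eventually.of_forall
      intro σ _
      exact hsumE
    · exact intervalIntegrable_const
    · apply Eventually.of_forall
      intro σ _
      exact (complex_exp_hasSum _).mul_left (g σ)
  -- each coefficient
  have hcoef : ∀ m : ℕ, (∫ σ in (0 : ℝ)..L, F m σ) =
      ((-1) ^ m * Complex.exp ((-(κ * n * x) * m : ℝ)) / (m.factorial : ℂ)) *
        ∫ σ in (0 : ℝ)..L, g σ * Complex.exp ((κ * (n * m : ℕ) * σ : ℝ)) := by
    intro m
    rw [← intervalIntegral.integral_const_mul]
    apply intervalIntegral.integral_congr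
    intro σ _
    simp only [hF]
    have e1 : (-Complex.exp ((κ * n * (σ - x) : ℝ))) ^ m =
        (-1) ^ m * (Complex.exp ((-(κ * n * x) * m : ℝ)) *
          Complex.exp ((κ * (n * m : ℕ) * σ : ℝ))) := by
      rw [neg_pow, ← Complex.exp_nat_mul, ← Complex.exp_add]
      congr 2
      push_cast
      ring
    rw [e1]
    ring
  have hS1 : HasSum (fun m => ∫ σ in (0 : ℝ)..L, F (m + 1) σ)
      ((∫ σ in (0 : ℝ)..L, g σ * Complex.exp (-Complex.exp ((κ * n * (σ - x) : ℝ)))) -
        ∫ σ in (0 : ℝ)..L, g σ) := by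
    have h1 := (hasSum_nat_add_iff' 1).mpr hS
    have h2 : ∑ i ∈ Finset.range 1, (∫ σ in (0 : ℝ)..L, F i σ) = ∫ σ in (0 : ℝ)..L, g σ := by
      rw [Finset.sum_range_one]
      apply intervalIntegral.integral_congr
      intro σ _
      simp [hF]
    rw [h2] at h1
    exact h1
  set q : ℝ := Real.exp (-(κ * n * x)) with hq
  have hq0 : 0 < q := Real.exp_pos _
  have hq1 : q ≤ 1 := by
    rw [hq]
    apply Real.exp_le_one_iff.mpr
    have : 0 ≤ κ * n * x := by positivity
    linarith
  have hterm : ∀ m : ℕ, ‖∫ σ in (0 : ℝ)..L, F (m + 1) σ‖ ≤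
      C * q * (1 ^ m / (m.factorial : ℝ)) := by
    intro m
    rw [hcoef, norm_mul, norm_div, norm_mul, norm_pow, norm_neg, norm_one, one_pow, one_mul,
      Complex.norm_exp, Complex.ofReal_re, Complex.norm_natCast]
    have e1 : Real.exp (-(κ * n * x) * (m + 1 : ℕ)) = q ^ (m + 1) := by
      rw [hq, ← Real.exp_nat_mul]
      congr 1
      ring
    rw [e1]
    have e2 : q ^ (m + 1) ≤ q := by
      calc q ^ (m + 1) = q ^ m * q := pow_succ q m
        _ ≤ 1 * q := by
            apply mul_le_mul_of_nonneg_right (pow_le_one₀ hq0.le hq1) hq0.le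
        _ = q := one_mul q
    have e3 : (m.factorial : ℝ) ≤ ((m + 1).factorial : ℝ) := by
      exact_mod_cast Nat.factorial_le (Nat.le_succ m)
    have e4 : (0 : ℝ) < m.factorial := by exact_mod_cast Nat.factorial_pos m
    have e5 : q ^ (m + 1) / ((m + 1).factorial : ℝ) ≤ q / (m.factorial : ℝ) := by
      apply div_le_div₀ hq0.le e2 e4 e3
    calc q ^ (m + 1) / ((m + 1).factorial : ℝ) *
        ‖∫ σ in (0 : ℝ)..L, g σ * Complex.exp ((κ * (n * (m + 1) : ℕ) * σ : ℝ))‖
        ≤ q / (m.factorial : ℝ) * C := by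
          apply mul_le_mul e5 (h (m + 1) (by omega)) (norm_nonneg _) (by positivity)
      _ = _ := by
          rw [one_pow]
          ring
  have hfin := tsum_of_norm_bounded ((real_exp_hasSum 1).mul_left (C * q)) hterm
  rw [hS1.tsum_eq] at hfin
  calc _ ≤ C * q * Real.exp 1 := hfin
    _ = _ := by ring

theorem mik {L : ℝ} (hL : 0 < L) {g : ℝ → ℂ} (hg : ContinuousOn g (Icc 0 L)) {C κ : ℝ}
    (hκ : 0 < κ) {n0 : ℕ}
    (h : ∀ n : ℕ, n0 ≤ n → ‖∫ x in (0 : ℝ)..L, g x * Complex.exp ((κ * n * x : ℝ))‖ ≤ C) :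
    ∀ x ∈ Icc (0 : ℝ) L, g x = 0 := by
  obtain ⟨B, hB⟩ := isCompact_Icc.exists_bound_of_continuousOn hg
  have hgint : ∀ a ∈ Icc (0 : ℝ) L, ∀ b ∈ Icc (0 : ℝ) L, IntervalIntegrable g volume a b := by
    intro a ha b hb
    apply ContinuousOn.intervalIntegrable
    apply hg.mono
    exact Set.uIcc_subset_Icc ha hb
  -- integrals over `[x, L]` vanish
  have key : ∀ x ∈ Ioo (0 : ℝ) L, (∫ σ in (0 : ℝ)..x, g σ) = ∫ σ in (0 : ℝ)..L, g σ := by
    intro x hx
    set Φ : ℕ → ℝ → ℂ := fun n σ =>
      g σ * Complex.exp (-Complex.exp ((κ * n * (σ - x) : ℝ))) with hΦ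
    have hΦc : ∀ n, ContinuousOn (Φ n) (Icc 0 L) := by
      intro n
      apply hg.mul
      fun_prop
    have hΦn : ∀ n, ∀ σ ∈ Icc (0 : ℝ) L, ‖Φ n σ‖ ≤ B := by
      intro n σ hσ
      rw [hΦ]
      simp only [norm_mul, Complex.norm_exp]
      have e1 : (-Complex.exp ((κ * n * (σ - x) : ℝ))).re = -Real.exp (κ * n * (σ - x)) := by
        rw [← Complex.ofReal_exp, ← Complex.ofReal_neg, Complex.ofReal_re]
      rw [e1]
      calc ‖g σ‖ * Real.exp (-Real.exp (κ * n * (σ - x))) ≤ B * 1 := by
            apply mul_le_mul (hB σ hσ) _ (Real.exp_pos _).le ((norm_nonneg _).trans (hB σ hσ))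
            apply Real.exp_le_one_iff.mpr
            linarith [Real.exp_pos (κ * n * (σ - x))]
        _ = B := mul_one B
    have hΦint : ∀ n, ∀ a ∈ Icc (0 : ℝ) L, ∀ b ∈ Icc (0 : ℝ) L,
        IntervalIntegrable (Φ n) volume a b := by
      intro n a ha b hb
      apply ContinuousOn.intervalIntegrable
      apply (hΦc n).mono
      exact Set.uIcc_subset_Icc ha hb
    have h0 : (0 : ℝ) ∈ Icc (0 : ℝ) L := ⟨le_rfl, hL.le⟩
    have hLm : L ∈ Icc (0 : ℝ) L := ⟨hL.le, le_rfl⟩
    have hxm : x ∈ Icc (0 : ℝ) L := ⟨hx.1.le, hx.2.le⟩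
    -- limit on [0,x]
    have hl1 : Tendsto (fun n => ∫ σ in (0 : ℝ)..x, Φ n σ) atTop
        (𝓝 (∫ σ in (0 : ℝ)..x, g σ)) := by
      apply intervalIntegral.tendsto_integral_filter_of_dominated_convergence (fun _ => B)
      · exact Eventually.of_forall fun n => (hΦint n 0 h0 x hxm).aestronglyMeasurable_restrict_uIoc
      · apply Eventually.of_forall
        intro n
        apply Eventually.of_forall
        intro σ hσ
        rw [Set.uIoc_of_le hx.1.le] at hσ
        exact hΦn n σ ⟨hσ.1.le, hσ.2.trans hx.2.le⟩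
      · exact intervalIntegrable_const
      · have hne : ∀ᵐ σ : ℝ, σ ≠ x := by
          have : (volume : Measure ℝ) {x} = 0 := measure_singleton x
          exact compl_mem_ae_iff.mpr this
        filter_upwards [hne] with σ hσne hσ
        rw [Set.uIoc_of_le hx.1.le] at hσ
        have hlt : σ < x := lt_of_le_of_ne hσ.2 hσne
        have e1 : Tendsto (fun n : ℕ => κ * n * (σ - x)) atTop atBot := by
          have : Tendsto (fun n : ℕ => (n : ℝ) * (κ * (σ - x))) atTop atBot := by
            apply Tendsto.atTop_mul_const_of_neg _ tendsto_natCast_atTop_atTop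
            exact mul_neg_of_pos_of_neg hκ (by linarith)
          refine this.congr fun n => by ring
        have e2 : Tendsto (fun n : ℕ => Real.exp (κ * n * (σ - x))) atTop (𝓝 0) :=
          Real.tendsto_exp_atBot.comp e1
        have e3 : Tendsto (fun n : ℕ => Complex.exp (-Complex.exp ((κ * n * (σ - x) : ℝ))))
            atTop (𝓝 1) := by
          have e4 : Tendsto (fun n : ℕ => ((Real.exp (-Real.exp (κ * n * (σ - x))) : ℝ) : ℂ))
              atTop (𝓝 ((1 : ℝ) : ℂ)) := by
            apply (Complex.continuous_ofReal.tendsto _).comp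
            have := (Real.continuous_exp.tendsto (-0)).comp e2.neg
            rw [neg_zero, Real.exp_zero] at this
            exact this
          rw [Complex.ofReal_one] at e4
          refine e4.congr fun n => ?_
          push_cast
          rfl
        have e5 := e3.const_mul (g σ)
        rw [mul_one] at e5
        exact e5
    -- limit on [x,L]
    have hl2 : Tendsto (fun n => ∫ σ in x..L, Φ n σ) atTop (𝓝 (∫ σ in x..L, (0 : ℂ))) := by
      apply intervalIntegral.tendsto_integral_filter_of_dominated_convergence (fun _ => B)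
      · exact Eventually.of_forall fun n => (hΦint n x hxm L hLm).aestronglyMeasurable_restrict_uIoc
      · apply Eventually.of_forall
        intro n
        apply Eventually.of_forall
        intro σ hσ
        rw [Set.uIoc_of_le hx.2.le] at hσ
        exact hΦn n σ ⟨hx.1.le.trans hσ.1.le, hσ.2⟩
      · exact intervalIntegrable_const
      · apply Eventually.of_forall
        intro σ hσ
        rw [Set.uIoc_of_le hx.2.le] at hσ
        have hlt : x < σ := hσ.1
        have e1 : Tendsto (fun n : ℕ => κ * n * (σ - x)) atTop atTop := by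
          have : Tendsto (fun n : ℕ => (n : ℝ) * (κ * (σ - x))) atTop atTop := by
            apply Tendsto.atTop_mul_const _ tendsto_natCast_atTop_atTop
            exact mul_pos hκ (by linarith)
          refine this.congr fun n => by ring
        have e2 : Tendsto (fun n : ℕ => Real.exp (-Real.exp (κ * n * (σ - x)))) atTop (𝓝 0) := by
          apply Real.tendsto_exp_atBot.comp
          exact tendsto_neg_atTop_atBot.comp (Real.tendsto_exp_atTop.comp e1)
        have e3 : Tendsto (fun n : ℕ => Complex.exp (-Complex.exp ((κ * n * (σ - x) : ℝ))))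
            atTop (𝓝 0) := by
          have e4 : Tendsto (fun n : ℕ => ((Real.exp (-Real.exp (κ * n * (σ - x))) : ℝ) : ℂ))
              atTop (𝓝 ((0 : ℝ) : ℂ)) :=
            (Complex.continuous_ofReal.tendsto _).comp e2
          rw [Complex.ofReal_zero] at e4
          refine e4.congr fun n => ?_
          push_cast
          rfl
        have e5 := e3.const_mul (g σ)
        rw [mul_zero] at e5
        exact e5
    rw [intervalIntegral.integral_zero] at hl2
    have hl3 := hl1.add hl2
    rw [add_zero] at hl3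
    have hl4 : Tendsto (fun n => ∫ σ in (0 : ℝ)..L, Φ n σ) atTop (𝓝 (∫ σ in (0 : ℝ)..x, g σ)) := by
      refine hl3.congr fun n => ?_
      exact intervalIntegral.integral_add_adjacent_intervals (hΦint n 0 h0 x hxm)
        (hΦint n x hxm L hLm)
    -- and the same quantity tends to the full integral
    have hl5 : Tendsto (fun n => ∫ σ in (0 : ℝ)..L, Φ n σ) atTop (𝓝 (∫ σ in (0 : ℝ)..L, g σ)) := by
      rw [tendsto_iff_norm_sub_tendsto_zero]
      have e1 : Tendsto (fun n : ℕ => C * Real.exp 1 * Real.exp (-(κ * n * x))) atTop (𝓝 0) := by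
        have e2 : Tendsto (fun n : ℕ => -(κ * n * x)) atTop atBot := by
          have : Tendsto (fun n : ℕ => (n : ℝ) * (κ * x)) atTop atTop := by
            apply Tendsto.atTop_mul_const _ tendsto_natCast_atTop_atTop
            exact mul_pos hκ hx.1
          have h2 := tendsto_neg_atTop_atBot.comp this
          refine h2.congr fun n => ?_
          simp only [Function.comp]
          ring
        have e3 := (Real.tendsto_exp_atBot.comp e2).const_mul (C * Real.exp 1)
        rw [mul_zero] at e3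
        exact e3
      apply squeeze_zero' (Eventually.of_forall fun n => norm_nonneg _) _ e1
      filter_upwards [eventually_ge_atTop (max 1 n0)] with n hn
      have hn1 : 1 ≤ n := (le_max_left _ _).trans hn
      have hn2 : n0 ≤ n := (le_max_right _ _).trans hn
      apply mik_step hL hg hκ hn1 _ hx.1
      intro m hm
      have := h (n * m) (hn2.trans (Nat.le_mul_of_pos_right n hm))
      exact this
    exact tendsto_nhds_unique hl4 hl5
  have hIoo : ∀ x ∈ Ioo (0 : ℝ) L, g x = 0 := by
    intro x hx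
    have hxm : x ∈ Icc (0 : ℝ) L := ⟨hx.1.le, hx.2.le⟩
    have hnb : Icc (0 : ℝ) L ∈ 𝓝 x := Icc_mem_nhds hx.1 hx.2
    have hcx : ContinuousAt g x := hg.continuousAt hnb
    have hmeas : StronglyMeasurableAtFilter g (𝓝 x) volume :=
      ContinuousOn.stronglyMeasurableAtFilter_nhdsWithin hg measurableSet_Icc x |>.filter_mono
        (by rw [nhdsWithin_eq_nhds.mpr hnb])
    have h1 := intervalIntegral.integral_hasDerivAt_right
      (hgint 0 ⟨le_rfl, hL.le⟩ x hxm) hmeas hcx
    have h2 : HasDerivAt (fun y => ∫ σ in (0 : ℝ)..y, g σ) 0 x := by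
      apply (hasDerivAt_const x (∫ σ in (0 : ℝ)..L, g σ)).congr_of_eventuallyEq
      filter_upwards [Ioo_mem_nhds hx.1 hx.2] with y hy
      exact key y hy
    exact h1.unique h2
  have h3 : EqOn g (fun _ => 0) (Icc 0 L) := by
    apply Set.EqOn.of_subset_closure (s := Ioo 0 L) (fun x hx => hIoo x hx) hg continuousOn_const
      Ioo_subset_Icc_self
    rw [closure_Ioo hL.ne]
  exact fun x hx => h3 hx

end H6CCM
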