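import Pool.Agent.Lib.MP_679ac2_an.H6Theta
import Pool.Agent.Lib.MP_679ac2_an.H6Mik

/-!
The induction on the frequency.
-/

open Finset Matrix Filter Topology MeasureTheory

noncomputable section

namespace H6CCM

/-- classical solutions of the coefficient system, bounded in `h^s` -/
structure Sol (β s M T : ℝ) (u : ℝ → ℕ → ℂ) : Prop where
  der : ∀ t ∈ Set.Ioo (-T) T, ∀ k, HasDerivAt (fun t => u t k) (rhs β (u t) k) t
  bdd : ∀ t ∈ Set.Ioo (-T) T, Bdd s M (u t)

/-- uniformly small as `K → ∞` -/
def USmall (T' : ℝ) (f : ℕ → ℝ → ℂ) : Prop :=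
  ∀ δ > 0, ∀ᶠ K in atTop, ∀ t ∈ Set.Icc (0 : ℝ) T', ‖f K t‖ ≤ δ

lemma USmall.add {T' : ℝ} {f g : ℕ → ℝ → ℂ} (hf : USmall T' f) (hg : USmall T' g) :
    USmall T' fun K t => f K t + g K t := by
  intro δ hδ
  filter_upwards [hf (δ / 2) (by linarith), hg (δ / 2) (by linarith)] with K h1 h2 t ht
  have := norm_add_le (f K t) (g K t)
  linarith [h1 t ht, h2 t ht]

lemma USmall.mul_bdd {T' B : ℝ} {f : ℕ → ℝ → ℂ} {g : ℝ → ℂ}
    (hg : ∀ t ∈ Set.Icc (0 : ℝ) T', ‖g t‖ ≤ B) (hf : USmall T' f) :
    USmall T' fun K t => g t * f K t := by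
  intro δ hδ
  have hB : 0 < |B| + 1 := by positivity
  filter_upwards [hf (δ / (|B| + 1)) (by positivity)] with K h1 t ht
  rw [norm_mul]
  calc ‖g t‖ * ‖f K t‖ ≤ (|B| + 1) * (δ / (|B| + 1)) := by
        apply mul_le_mul _ (h1 t ht) (norm_nonneg _) hB.le
        linarith [hg t ht, le_abs_self B]
    _ = δ := by field_simp

lemma USmall.sum {T' : ℝ} (s : Finset ℕ) {f : ℕ → ℕ → ℝ → ℂ} (hf : ∀ i ∈ s, USmall T' (f i)) :
    USmall T' fun K t => ∑ i ∈ s, f i K t := by
  classical
  induction s using Finset.induction_on with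
  | empty =>
    intro δ hδ
    exact Eventually.of_forall fun K t _ => by simpa using hδ.le
  | insert a s ha ih =>
    have h1 := (hf a (mem_insert_self _ _)).add (ih fun i hi => hf i (mem_insert_of_mem hi))
    simpa only [sum_insert ha] using h1

lemma USmall.of_le {T' : ℝ} {f : ℕ → ℝ → ℂ} {b : ℕ → ℝ} (hb : Tendsto b atTop (𝓝 0))
    (h : ∀ᶠ K in atTop, ∀ t ∈ Set.Icc (0 : ℝ) T', ‖f K t‖ ≤ b K) : USmall T' f := by
  intro δ hδ
  filter_upwards [h, hb.eventually (gt_mem_nhds hδ)] with K h1 h2 t ht
  exact (h1 t ht).trans h2.le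

lemma USmall.congr {T' : ℝ} {f g : ℕ → ℝ → ℂ} (hf : USmall T' f)
    (h : ∀ᶠ K in atTop, ∀ t ∈ Set.Icc (0 : ℝ) T', f K t = g K t) : USmall T' g := by
  intro δ hδ
  filter_upwards [h, hf δ hδ] with K h1 h2 t ht
  rw [← h1 t ht]
  exact h2 t ht

lemma wt_tendsto {x : ℝ} (hx : 0 < x) : Tendsto (wt (-x)) atTop (𝓝 0) := by
  have h1 := tendsto_rpow_neg_atTop hx
  have h2 : Tendsto (fun k : ℕ => (1 : ℝ) + k) atTop atTop :=
    tendsto_atTop_add_const_left _ _ tendsto_natCast_atTop_atTop
  exact h1.comp h2

/-- Duhamel estimate -/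
lemma ode_est {T T' : ℝ} (hT' : 0 ≤ T') (hTT : T' < T) {y θ ρ : ℝ → ℂ} {μ c : ℂ} {δ : ℝ}
    (hy : ∀ t ∈ Set.Icc (0 : ℝ) T', HasDerivAt y (μ * y t + c * θ t + ρ t) t) (hy0 : y 0 = 0)
    (hμ : 0 ≤ μ.re) (hθ : ContinuousOn θ (Set.Ioo (-T) T))
    (hρ : ∀ t ∈ Set.Icc (0 : ℝ) T', ‖ρ t‖ ≤ δ) :
    ∀ t ∈ Set.Icc (0 : ℝ) T',
      ‖Complex.exp (-μ * t) * y t - c * ∫ τ in (0 : ℝ)..t, Complex.exp (-μ * τ) * θ τ‖ ≤ δ * T' := by
  have hδ : 0 ≤ δ := (norm_nonneg _).trans (hρ 0 ⟨le_rfl, hT'⟩)
  set h : ℝ → ℂ := fun τ => Complex.exp (-μ * τ) * θ τ with hh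
  have hhc : ContinuousOn h (Set.Ioo (-T) T) := by
    apply ContinuousOn.mul _ hθ
    fun_prop
  have hsub : ∀ t ∈ Set.Icc (0 : ℝ) T', t ∈ Set.Ioo (-T) T := by
    intro t ht
    exact ⟨by linarith [ht.1], by linarith [ht.2]⟩
  have hD : ∀ t ∈ Set.Icc (0 : ℝ) T', HasDerivAt
      (fun t : ℝ => Complex.exp (-μ * t) * y t - c * ∫ τ in (0 : ℝ)..t, h τ)
      (Complex.exp (-μ * t) * ρ t) t := by
    intro t ht
    have h1 : HasDerivAt (fun t : ℝ => Complex.exp (-μ * t)) (Complex.exp (-μ * t) * (-μ)) t := by
      have h2 : HasDerivAt (fun t : ℝ => -μ * (t : ℂ)) (-μ) t := by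
        simpa using (Complex.ofRealCLM.hasDerivAt (x := t)).const_mul (-μ)
      exact h2.cexp
    have hnb : Set.Ioo (-T) T ∈ 𝓝 t := Ioo_mem_nhds (hsub t ht).1 (hsub t ht).2
    have h3 : HasDerivAt (fun t : ℝ => ∫ τ in (0 : ℝ)..t, h τ) (h t) t := by
      apply intervalIntegral.integral_hasDerivAt_right
      · apply ContinuousOn.intervalIntegrable
        apply hhc.mono
        intro x hx
        rw [Set.uIcc_of_le ht.1] at hx
        exact hsub x ⟨hx.1, hx.2.trans ht.2⟩
      · exact ContinuousOn.stronglyMeasurableAtFilter_nhdsWithin hhc measurableSet_Ioo t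
          |>.filter_mono (by rw [nhdsWithin_eq_nhds.mpr hnb])
      · exact hhc.continuousAt hnb
    have h4 := (h1.mul (hy t ht)).sub (h3.const_mul c)
    refine h4.congr_deriv ?_
    rw [hh]
    ring
  intro t ht
  have h5 := norm_image_sub_le_of_norm_deriv_le_segment' (a := 0) (b := T')
    (fun x hx => (hD x hx).hasDerivWithinAt) (C := δ) ?_ t ht
  · simp only [hy0, intervalIntegral.integral_same, mul_zero, sub_zero] at h5
    refine h5.trans ?_
    apply mul_le_mul_of_nonneg_left _ hδ
    linarith [ht.2]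
  · intro x hx
    rw [norm_mul, Complex.norm_exp]
    have h6 : Real.exp ((-μ * (x : ℂ)).re) ≤ 1 := by
      apply Real.exp_le_one_iff.mpr
      have : (-μ * (x : ℂ)).re = -(μ.re * x) := by simp
      rw [this]
      have := mul_nonneg hμ hx.1
      linarith
    calc _ ≤ 1 * δ := by
          apply mul_le_mul h6 (hρ x ⟨hx.1, hx.2.le⟩) (norm_nonneg _) zero_le_one
      _ = δ := one_mul δ

section

variable {β s M T : ℝ}

/-- the error in the evolution of `W` -/
def errW (β : ℝ) (K : ℕ) (u : ℝ → ℕ → ℂ) (lam : ℂ) (k : ℕ) (t : ℝ) : ℂ :=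
  deriv (fun τ => W β K (u τ) lam k) t - fieldW (u t) lam (W β K (u t) lam) k

lemma W_deriv (hβ : 0 < β) (hs : 1 / 4 < s) (hs2 : s < 1 / 2) {u : ℝ → ℕ → ℂ}
    (hu : Sol β s M T u) {lam : ℂ} (hre : lam.re = 0) (him : 1 ≤ |lam.im|) {K k : ℕ} (hk : k ≤ K)
    {t : ℝ} (ht : t ∈ Set.Ioo (-T) T) (h0 : u t 0 ≠ 0) :
    HasDerivAt (fun τ => W β K (u τ) lam k)
      (fieldW (u t) lam (W β K (u t) lam) k + errW β K u lam k t) t ∧
      ‖errW β K u lam k t‖ ≤ cErr β s M k * wt (1 - 4 * s) K := by
  have him0 : lam.im ≠ 0 := by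
    intro h; rw [h] at him; simp at him; linarith
  obtain ⟨e, he1, he2⟩ := res_deriv hβ hs hs2 (hu.bdd t ht) (hu.der t ht) hre him
    (⟨k, Nat.lt_succ_of_le hk⟩ : Fin (K + 1))
  have e1 : (fun τ => W β K (u τ) lam k) =
      fun τ => res β K (u τ) lam 0 (⟨k, Nat.lt_succ_of_le hk⟩ : Fin (K + 1)) := by
    funext τ
    exact W_eq (⟨k, Nat.lt_succ_of_le hk⟩ : Fin (K + 1))
  rw [P_formula h0 him0, ← e1] at he1
  have e2 : errW β K u lam k t = e := by
    unfold errW
    rw [he1.deriv]
    simp
  rw [e2]
  exact ⟨he1, he2⟩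

lemma W_norm_le {K : ℕ} {u : ℕ → ℂ} {n : ℕ} (hn : 1 ≤ n) (k : ℕ) :
    ‖W β K u (Complex.I * ((n : ℝ) : ℂ)) k‖ ≤ 1 / n := by
  have hnpos : (0 : ℝ) < n := by exact_mod_cast hn
  unfold W
  split_ifs with h
  · apply norm_w_le hnpos (lam := Complex.I * ((n : ℝ) : ℂ)) (β := β) (u := u) (k := 0)
    · simp
    · apply res_spec
      simp
      omega
  · rw [norm_zero]
    positivity

lemma err_tendsto (hs : 1 / 4 < s) (c : ℝ) :
    Tendsto (fun K => c * wt (1 - 4 * s) K) atTop (𝓝 0) := by
  have h1 := (wt_tendsto (x := 4 * s - 1) (by linarith)).const_mul c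
  rw [mul_zero] at h1
  refine h1.congr fun K => ?_
  congr 2
  ring

lemma sol_zero_const {u : ℝ → ℕ → ℂ} (hu : Sol β s M T u) (t : ℝ) (ht : t ∈ Set.Ioo (-T) T) :
    u t 0 = u 0 0 := by
  have hT : 0 < T := by linarith [ht.1, ht.2]
  have h0 : (0 : ℝ) ∈ Set.Ioo (-T) T := ⟨by linarith, hT⟩
  have hd : ∀ x ∈ Set.Ioo (-T) T, HasDerivAt (fun t => u t 0) 0 x := by
    intro x hx
    have := hu.der x hx 0
    have e : rhs β (u x) 0 = 0 := by
      unfold rhs
      simp
    rwa [e] at this
  have hconv : Convex ℝ (Set.Ioo (-T) T) := convex_Ioo _ _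
  have := hconv.is_const_of_fderivWithin_eq_zero (𝕜 := ℝ) (f := fun t => u t 0)
    (fun x hx => (hd x hx).differentiableAt.differentiableWithinAt) ?_ ht h0
  · exact this
  · intro x hx
    have h1 : HasFDerivWithinAt (fun t => u t 0) (0 : ℝ →L[ℝ] ℂ) (Set.Ioo (-T) T) x := by
      have := (hd x hx).hasFDerivAt.hasFDerivWithinAt (s := Set.Ioo (-T) T)
      simpa using this
    exact h1.fderivWithin (isOpen_Ioo.uniqueDiffWithinAt hx)

lemma sol_cont {u : ℝ → ℕ → ℂ} (hu : Sol β s M T u) (k : ℕ) :
    ContinuousOn (fun t => u t k) (Set.Ioo (-T) T) := fun t ht =>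
  (hu.der t ht k).continuousAt.continuousWithinAt

/-- the zero mode of the resolvent is almost conserved -/
lemma W_zero_small (hβ : 0 < β) (hs : 1 / 4 < s) (hs2 : s < 1 / 2) {u : ℝ → ℕ → ℂ}
    (hu : Sol β s M T u) (h0 : u 0 0 ≠ 0) {T' : ℝ} (hT' : 0 < T') (hTT : T' < T)
    {lam : ℂ} (hre : lam.re = 0) (him : 1 ≤ |lam.im|) :
    USmall T' fun K t => W β K (u t) lam 0 - W β K (u 0) lam 0 := by
  apply USmall.of_le (err_tendsto hs (cErr β s M 0 * T'))
  apply Eventually.of_forall
  intro K t ht
  have hsub : ∀ t ∈ Set.Icc (0 : ℝ) T', t ∈ Set.Ioo (-T) T := by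
    intro t ht
    exact ⟨by linarith [ht.1], by linarith [ht.2]⟩
  have h := ode_est (T := T) hT'.le hTT (y := fun t => W β K (u t) lam 0 - W β K (u 0) lam 0)
    (θ := fun _ => 0) (ρ := fun t => errW β K u lam 0 t) (μ := 0) (c := 0)
    (δ := cErr β s M 0 * wt (1 - 4 * s) K) ?_ (by simp) (by simp) continuousOn_const ?_ t ht
  · simp only [neg_zero, zero_mul, Complex.exp_zero, one_mul, sub_zero] at h
    linarith
  · intro x hx
    have h1 := (W_deriv hβ hs hs2 hu hre him (Nat.zero_le K) (hsub x hx)
      (by rw [sol_zero_const hu x (hsub x hx)]; exact h0)).1.sub_const (W β K (u 0) lam 0)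
    refine h1.congr_deriv ?_
    unfold fieldW
    simp [theta_zero]
  · intro x hx
    exact (W_deriv hβ hs hs2 hu hre him (Nat.zero_le K) (hsub x hx)
      (by rw [sol_zero_const hu x (hsub x hx)]; exact h0)).2

theorem core (hβ : 0 < β) (hs : 1 / 4 < s) (hs2 : s < 1 / 2) {u v : ℝ → ℕ → ℂ}
    (hu : Sol β s M T u) (hv : Sol β s M T v) (h0 : u 0 = v 0) (ha : u 0 0 ≠ 0)
    {T' : ℝ} (hT' : 0 < T') (hTT : T' < T) :
    ∀ t ∈ Set.Icc (0 : ℝ) T', ∀ k, u t k = v t k := by
  have hs0 : 0 ≤ s := by linarith
  have hT : 0 < T := by linarith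
  have h0m : (0 : ℝ) ∈ Set.Ioo (-T) T := ⟨by linarith, hT⟩
  have hM : 0 ≤ M := (hu.bdd 0 h0m).nonneg
  have hsub : ∀ t ∈ Set.Icc (0 : ℝ) T', t ∈ Set.Ioo (-T) T := by
    intro t ht
    exact ⟨by linarith [ht.1], by linarith [ht.2]⟩
  set a := u 0 0 with hadef
  have hua : ∀ t ∈ Set.Ioo (-T) T, u t 0 = a := fun t ht => sol_zero_const hu t ht
  have hva : ∀ t ∈ Set.Ioo (-T) T, v t 0 = a := fun t ht => by
    rw [sol_zero_const hv t ht, hadef, h0]
  have hune : ∀ t ∈ Set.Ioo (-T) T, u t 0 ≠ 0 := fun t ht => by rw [hua t ht]; exact ha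
  have hvne : ∀ t ∈ Set.Ioo (-T) T, v t 0 ≠ 0 := fun t ht => by rw [hva t ht]; exact ha
  obtain ⟨n0, hn0, hlow⟩ := coupling_lower_unif (β := β) (s := s) (M := M) hβ hs0 ha hM
  have hθu : ∀ k, ContinuousOn (fun t => theta (u t) k) (Set.Ioo (-T) T) := fun k =>
    theta_continuousOn (sol_cont hu) hune k
  have hθv : ∀ k, ContinuousOn (fun t => theta (v t) k) (Set.Ioo (-T) T) := fun k =>
    theta_continuousOn (sol_cont hv) hvne k
  have hlre : ∀ n : ℕ, (Complex.I * ((n : ℝ) : ℂ)).re = 0 := fun n => by simp
  have hlim : ∀ n : ℕ, 1 ≤ n → 1 ≤ |(Complex.I * ((n : ℝ) : ℂ)).im| := fun n hn => by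
    simp only [Complex.mul_im, Complex.I_re, Complex.ofReal_im, mul_zero, Complex.I_im,
      Complex.ofReal_re, one_mul, zero_add, Nat.abs_cast]
    exact_mod_cast hn
  -- the claim
  have claim : ∀ k, (∀ t ∈ Set.Icc (0 : ℝ) T', theta (u t) k = theta (v t) k) ∧
      ∀ n : ℕ, n0 ≤ n → USmall T' fun K t =>
        W β K (u t) (Complex.I * ((n : ℝ) : ℂ)) k - W β K (v t) (Complex.I * ((n : ℝ) : ℂ)) k := by
    intro k
    induction k using Nat.strong_induction_on with
    | _ k ih =>
      rcases Nat.eq_zero_or_pos k with hk0 | hkpos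
      · -- the case `k = 0`
        subst hk0
        refine ⟨fun t _ => by rw [theta_zero, theta_zero], ?_⟩
        intro n hn
        have hn1 : 1 ≤ n := hn0.trans hn
        have h1 := W_zero_small hβ hs hs2 hu ha hT' hTT (hlre n) (hlim n hn1)
        have h2 := W_zero_small hβ hs hs2 hv (by rw [← h0]; exact ha) hT' hTT (hlre n)
          (hlim n hn1)
        have h3 := USmall.mul_bdd (g := fun _ => -1) (B := 1) (by simp) h2
        refine (h1.add h3).congr ?_
        apply Eventually.of_forall
        intro K t _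
        rw [h0]
        ring
      · -- the case `k ≥ 1`
        set Δ : ℝ → ℂ := fun t => theta (u t) k - theta (v t) k with hΔ
        have hΔc : ContinuousOn Δ (Set.Ioo (-T) T) := (hθu k).sub (hθv k)
        obtain ⟨BΔ, hBΔ⟩ := (isCompact_Icc (a := (0 : ℝ)) (b := T')).exists_bound_of_continuousOn
          (hΔc.mono hsub)
        -- ODE estimate for each n
        have hode : ∀ n : ℕ, n0 ≤ n → ∀ δ > 0, ∀ᶠ K in atTop, ∀ t ∈ Set.Icc (0 : ℝ) T',
            ‖Complex.exp (-(-Complex.I * (k : ℂ) ^ 2 + 2 * k * n) * t) *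
              (W β K (u t) (Complex.I * ((n : ℝ) : ℂ)) k -
                W β K (v t) (Complex.I * ((n : ℝ) : ℂ)) k) -
              (-2 * Complex.I * (1 - (Complex.I * ((n : ℝ) : ℂ)) *
                W β K (u 0) (Complex.I * ((n : ℝ) : ℂ)) 0)) *
              ∫ τ in (0 : ℝ)..t, Complex.exp (-(-Complex.I * (k : ℂ) ^ 2 + 2 * k * n) * τ) * Δ τ‖
              ≤ δ := by
          intro n hn δ hδ
          have hn1 : 1 ≤ n := hn0.trans hn
          set lam : ℂ := Complex.I * ((n : ℝ) : ℂ) with hlam
          -- the remainder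
          set ρ : ℕ → ℝ → ℂ := fun K t =>
            (∑ l ∈ range k, (2 * Complex.I * (theta (v t) (k - l) * ((l : ℂ) + lam))) *
              (W β K (u t) lam l - W β K (v t) lam l)) +
            ((errW β K u lam k t + (-1) * errW β K v lam k t) +
              (2 * Complex.I * lam * Δ t) * (W β K (u t) lam 0 - W β K (u 0) lam 0)) with hρ
          have hρs : USmall T' ρ := by
            apply USmall.add
            · apply USmall.sum
              intro l hl
              have hlk := mem_range.mp hl
              obtain ⟨B, hB⟩ := (isCompact_Icc (a := (0 : ℝ)) (b := T')).exists_bound_of_continuousOn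
                (f := fun t => 2 * Complex.I * (theta (v t) (k - l) * ((l : ℂ) + lam)))
                (by
                  apply ContinuousOn.mul continuousOn_const
                  apply ContinuousOn.mul _ continuousOn_const
                  exact (hθv (k - l)).mono hsub)
              exact USmall.mul_bdd hB ((ih l hlk).2 n hn)
            · apply USmall.add
              · apply USmall.add
                · apply USmall.of_le (err_tendsto hs (cErr β s M k))
                  filter_upwards [eventually_ge_atTop k] with K hK t ht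
                  exact (W_deriv hβ hs hs2 hu (hlre n) (hlim n hn1) hK (hsub t ht)
                    (hune t (hsub t ht))).2
                · apply USmall.mul_bdd (g := fun _ => -1) (B := 1) (by simp)
                  apply USmall.of_le (err_tendsto hs (cErr β s M k))
                  filter_upwards [eventually_ge_atTop k] with K hK t ht
                  exact (W_deriv hβ hs hs2 hv (hlre n) (hlim n hn1) hK (hsub t ht)
                    (hvne t (hsub t ht))).2
              · obtain ⟨B, hB⟩ := (isCompact_Icc (a := (0 : ℝ))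
                  (b := T')).exists_bound_of_continuousOn
                  (f := fun t => 2 * Complex.I * lam * Δ t)
                  (continuousOn_const.mul (hΔc.mono hsub))
                exact USmall.mul_bdd hB
                  (W_zero_small hβ hs hs2 hu ha hT' hTT (hlre n) (hlim n hn1))
          filter_upwards [hρs (δ / T') (by positivity), eventually_ge_atTop k] with K hK hkK t ht
          have h := ode_est (T := T) hT'.le hTT
            (y := fun t => W β K (u t) lam k - W β K (v t) lam k)
            (θ := Δ) (ρ := ρ K) (μ := -Complex.I * (k : ℂ) ^ 2 + 2 * k * n)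
            (c := -2 * Complex.I * (1 - lam * W β K (u 0) lam 0))
            (δ := δ / T') ?_ (by rw [h0]; ring) ?_ hΔc hK t ht
          · rw [div_mul_cancel₀ _ hT'.ne'] at h
            exact h
          · intro x hx
            have d1 := (W_deriv hβ hs hs2 hu (hlre n) (hlim n hn1) hkK (hsub x hx)
              (hune x (hsub x hx))).1
            have d2 := (W_deriv hβ hs hs2 hv (hlre n) (hlim n hn1) hkK (hsub x hx)
              (hvne x (hsub x hx))).1
            refine (d1.sub d2).congr_deriv ?_
            have hsum : ∑ l ∈ range k, theta (u x) (k - l) * ((l : ℂ) + lam) * W β K (u x) lam l =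
                (∑ l ∈ range k, theta (v x) (k - l) * ((l : ℂ) + lam) * W β K (v x) lam l) +
                (∑ l ∈ range k, (theta (v x) (k - l) * ((l : ℂ) + lam)) *
                  (W β K (u x) lam l - W β K (v x) lam l)) + Δ x * lam * W β K (u x) lam 0 := by
              have e1 : ∀ l ∈ range k,
                  theta (u x) (k - l) * ((l : ℂ) + lam) * W β K (u x) lam l =
                  theta (v x) (k - l) * ((l : ℂ) + lam) * W β K (v x) lam l +
                  (theta (v x) (k - l) * ((l : ℂ) + lam)) *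
                    (W β K (u x) lam l - W β K (v x) lam l) +
                  (if l = 0 then Δ x * lam * W β K (u x) lam 0 else 0) := by
                intro l hl
                by_cases hl0 : l = 0
                · rw [if_pos hl0, hl0, hΔ]
                  simp only [Nat.sub_zero, Nat.cast_zero, zero_add]
                  ring
                · rw [if_neg hl0, (ih (k - l) (by omega)).1 x hx]
                  ring
              rw [sum_congr rfl e1, sum_add_distrib, sum_add_distrib, sum_ite_eq',
                if_pos (mem_range.mpr hkpos)]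
            have hlsq : (n : ℂ) = -Complex.I * lam := by
              rw [hlam, ← mul_assoc, neg_mul, Complex.I_mul_I]
              push_cast
              ring
            have hs3 : ∑ l ∈ range k, (2 * Complex.I * (theta (v x) (k - l) * ((l : ℂ) + lam))) *
                (W β K (u x) lam l - W β K (v x) lam l) =
                2 * Complex.I * ∑ l ∈ range k, (theta (v x) (k - l) * ((l : ℂ) + lam)) *
                  (W β K (u x) lam l - W β K (v x) lam l) := by
              rw [mul_sum]
              apply sum_congr rfl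
              intro l _
              ring
            simp only [hρ]
            rw [hs3, hlsq]
            unfold fieldW
            rw [hsum]
            simp only [hΔ]
            ring
          · simp only [Complex.add_re, Complex.mul_re, Complex.neg_re, Complex.I_re, neg_zero,
              zero_mul, Complex.neg_im, Complex.I_im, Complex.natCast_re, Complex.natCast_im,
              mul_zero, sub_zero, Complex.mul_im, add_zero, Complex.re_ofNat,
              Complex.im_ofNat]
            have e1 : (((k : ℂ) ^ 2)).im = 0 := by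
              have : ((k : ℂ) ^ 2) = (((k : ℝ) ^ 2 : ℝ) : ℂ) := by push_cast; rfl
              rw [this, Complex.ofReal_im]
            rw [e1]
            simp only [mul_zero, sub_zero, zero_add]
            positivity
        -- the moments of `Δ` are bounded
        have hβa : 0 < β * ‖a‖ ^ 2 := by
          have : 0 < ‖a‖ := norm_pos_iff.mpr ha
          positivity
        have hmom : ∀ n : ℕ, n0 ≤ n → ∀ t ∈ Set.Icc (0 : ℝ) T',
            ‖∫ τ in (0 : ℝ)..t, Complex.exp (-(-Complex.I * (k : ℂ) ^ 2 + 2 * k * n) * τ) * Δ τ‖ ≤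
              2 / (β * ‖a‖ ^ 2) * Real.exp (-(2 * k * n * t)) := by
          intro n hn t ht
          have hn1 : 1 ≤ n := hn0.trans hn
          have hnpos : (0 : ℝ) < n := by exact_mod_cast hn1
          set J := ∫ τ in (0 : ℝ)..t,
            Complex.exp (-(-Complex.I * (k : ℂ) ^ 2 + 2 * k * n) * τ) * Δ τ with hJ
          have h1 : ∀ δ > 0, β * ‖a‖ ^ 2 / n * ‖J‖ ≤ 2 / n * Real.exp (-(2 * k * n * t)) + δ := by
            intro δ hδ
            obtain ⟨K, hK⟩ := ((hode n hn δ hδ).and (eventually_ge_atTop 0)).exists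
            have h2 := hK.1 t ht
            rw [← hJ] at h2
            set c : ℂ := -2 * Complex.I * (1 - (Complex.I * ((n : ℝ) : ℂ)) *
                W β K (u 0) (Complex.I * ((n : ℝ) : ℂ)) 0) with hc
            have h3 : β * ‖a‖ ^ 2 / n ≤ ‖c‖ := by
              have h4 := hlow n hn K (u 0) (hu.bdd 0 h0m) rfl
              have h5 : W β K (u 0) (Complex.I * ((n : ℝ) : ℂ)) 0 =
                  res β K (u 0) (Complex.I * ((n : ℝ) : ℂ)) 0 0 := W_eq (0 : Fin (K + 1))
              rw [hc, norm_mul, norm_mul, norm_neg, Complex.norm_I, Complex.norm_ofNat, mul_one, h5]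
              calc β * ‖a‖ ^ 2 / n = 2 * (β * ‖a‖ ^ 2 / (2 * n)) := by
                    field_simp
                _ ≤ _ := by gcongr
            have h6 : ‖Complex.exp (-(-Complex.I * (k : ℂ) ^ 2 + 2 * k * n) * t) *
              (W β K (u t) (Complex.I * ((n : ℝ) : ℂ)) k -
                W β K (v t) (Complex.I * ((n : ℝ) : ℂ)) k)‖ ≤
                2 / n * Real.exp (-(2 * k * n * t)) := by
              rw [norm_mul, Complex.norm_exp]
              have e1 : (-(-Complex.I * (k : ℂ) ^ 2 + 2 * k * n) * (t : ℂ)).re =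
                  -(2 * k * n * t) := by
                have : -(-Complex.I * (k : ℂ) ^ 2 + 2 * k * n) * (t : ℂ) =
                    (((k : ℝ) ^ 2 * t : ℝ) : ℂ) * Complex.I + ((-(2 * k * n * t) : ℝ) : ℂ) := by
                  push_cast; ring
                rw [this, Complex.add_re, Complex.re_ofReal_mul, Complex.I_re, mul_zero,
                  Complex.ofReal_re, zero_add]
              rw [e1, mul_comm]
              apply mul_le_mul_of_nonneg_right _ (Real.exp_pos _).le
              refine (norm_sub_le _ _).trans ?_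
              have w1 := W_norm_le (β := β) (K := K) (u := u t) hn1 k
              have w2 := W_norm_le (β := β) (K := K) (u := v t) hn1 k
              calc _ ≤ 1 / (n : ℝ) + 1 / n := add_le_add w1 w2
                _ = 2 / n := by ring
            have h7 : ‖c * J‖ ≤ 2 / n * Real.exp (-(2 * k * n * t)) + δ := by
              have := norm_sub_norm_le (c * J)
                (Complex.exp (-(-Complex.I * (k : ℂ) ^ 2 + 2 * k * n) * t) *
              (W β K (u t) (Complex.I * ((n : ℝ) : ℂ)) k -
                W β K (v t) (Complex.I * ((n : ℝ) : ℂ)) k))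
              rw [norm_sub_rev] at this
              linarith
            rw [norm_mul] at h7
            exact (mul_le_mul_of_nonneg_right h3 (norm_nonneg _)).trans h7
          have h2 : β * ‖a‖ ^ 2 / n * ‖J‖ ≤ 2 / n * Real.exp (-(2 * k * n * t)) :=
            le_of_forall_pos_le_add h1
          rw [div_mul_eq_mul_div, div_mul_eq_mul_div, div_le_div_iff_of_pos_right hnpos] at h2
          rw [div_mul_eq_mul_div, le_div_iff₀ hβa]
          linarith
        -- hence `Δ = 0`
        have hΔ0 : ∀ t ∈ Set.Icc (0 : ℝ) T', Δ t = 0 := by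
          set g : ℝ → ℂ := fun σ => Δ (T' - σ) * Complex.exp (Complex.I * (k : ℂ) ^ 2 * (T' - σ : ℝ))
            with hg
          have hmaps : Set.MapsTo (fun σ : ℝ => T' - σ) (Set.Icc (0 : ℝ) T') (Set.Ioo (-T) T) := by
            intro σ hσ
            exact hsub _ ⟨by linarith [hσ.2], by linarith [hσ.1]⟩
          have hgc : ContinuousOn g (Set.Icc 0 T') := by
            apply ContinuousOn.mul
            · exact hΔc.comp (by fun_prop) hmaps
            · fun_prop
          have hkR : (0 : ℝ) < 2 * k := by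
            have : (0 : ℝ) < k := by exact_mod_cast hkpos
            linarith
          have hz := mik hT' hgc (C := 2 / (β * ‖a‖ ^ 2)) hkR (n0 := n0) ?_
          · intro t ht
            have h1 := hz (T' - t) ⟨by linarith [ht.2], by linarith [ht.1]⟩
            simp only [hg] at h1
            rcases mul_eq_zero.mp h1 with h2 | h2
            · rwa [sub_sub_cancel] at h2
            · exact absurd h2 (Complex.exp_ne_zero _)
          · intro n hn
            have e1 : ∫ x in (0 : ℝ)..T', g x * Complex.exp ((2 * k * n * x : ℝ)) =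
                Complex.exp ((2 * k * n * T' : ℝ)) * ∫ τ in (0 : ℝ)..T',
                  Complex.exp (-(-Complex.I * (k : ℂ) ^ 2 + 2 * k * n) * τ) * Δ τ := by
              rw [← intervalIntegral.integral_const_mul]
              have e2 := intervalIntegral.integral_comp_sub_left
                (fun τ => Complex.exp ((2 * k * n * T' : ℝ)) *
                  (Complex.exp (-(-Complex.I * (k : ℂ) ^ 2 + 2 * k * n) * τ) * Δ τ)) T'
                (a := 0) (b := T')
              rw [sub_self, sub_zero] at e2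
              rw [← e2]
              apply intervalIntegral.integral_congr
              intro σ _
              simp only [hg]
              have e3 : Complex.exp (Complex.I * (k : ℂ) ^ 2 * ((T' - σ : ℝ) : ℂ)) *
                  Complex.exp ((2 * k * n * σ : ℝ)) = Complex.exp ((2 * k * n * T' : ℝ)) *
                  Complex.exp (-(-Complex.I * (k : ℂ) ^ 2 + 2 * k * n) * ((T' - σ : ℝ) : ℂ)) := by
                rw [← Complex.exp_add, ← Complex.exp_add]
                congr 1
                push_cast
                ring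
              calc Δ (T' - σ) * Complex.exp (Complex.I * (k : ℂ) ^ 2 * ((T' - σ : ℝ) : ℂ)) *
                    Complex.exp ((2 * k * n * σ : ℝ))
                  = Δ (T' - σ) * (Complex.exp (Complex.I * (k : ℂ) ^ 2 * ((T' - σ : ℝ) : ℂ)) *
                    Complex.exp ((2 * k * n * σ : ℝ))) := by ring
                _ = _ := by rw [e3]; ring
            rw [e1, norm_mul, Complex.norm_exp, Complex.ofReal_re]
            have h2 := hmom n hn T' ⟨hT'.le, le_rfl⟩
            calc Real.exp (2 * k * n * T') * ‖∫ τ in (0 : ℝ)..T',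
                  Complex.exp (-(-Complex.I * (k : ℂ) ^ 2 + 2 * k * n) * τ) * Δ τ‖
                ≤ Real.exp (2 * k * n * T') *
                  (2 / (β * ‖a‖ ^ 2) * Real.exp (-(2 * k * n * T'))) :=
                  mul_le_mul_of_nonneg_left h2 (Real.exp_pos _).le
              _ = 2 / (β * ‖a‖ ^ 2) *
                  (Real.exp (2 * k * n * T') * Real.exp (-(2 * k * n * T'))) := by ring
              _ = 2 / (β * ‖a‖ ^ 2) := by
                  rw [← Real.exp_add, add_neg_cancel, Real.exp_zero, mul_one]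
        refine ⟨fun t ht => sub_eq_zero.mp (hΔ0 t ht), ?_⟩
        intro n hn δ hδ
        have hexp : 0 < Real.exp (2 * k * n * T') := Real.exp_pos _
        filter_upwards [hode n hn (δ / Real.exp (2 * k * n * T')) (by positivity)] with K hK t ht
        have h1 := hK t ht
        have h2 : ∫ τ in (0 : ℝ)..t,
            Complex.exp (-(-Complex.I * (k : ℂ) ^ 2 + 2 * k * n) * τ) * Δ τ = 0 := by
          rw [← intervalIntegral.integral_zero (a := 0) (b := t) (μ := volume) (E := ℂ)]
          apply intervalIntegral.integral_congr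
          intro τ hτ
          rw [Set.uIcc_of_le ht.1] at hτ
          simp only
          rw [hΔ0 τ ⟨hτ.1, hτ.2.trans ht.2⟩, mul_zero]
        rw [h2, mul_zero, sub_zero, norm_mul, Complex.norm_exp] at h1
        have e1 : (-(-Complex.I * (k : ℂ) ^ 2 + 2 * k * n) * (t : ℂ)).re =
            -(2 * k * n * t) := by
          have : -(-Complex.I * (k : ℂ) ^ 2 + 2 * k * n) * (t : ℂ) =
              (((k : ℝ) ^ 2 * t : ℝ) : ℂ) * Complex.I + ((-(2 * k * n * t) : ℝ) : ℂ) := by
            push_cast; ring
          rw [this, Complex.add_re, Complex.re_ofReal_mul, Complex.I_re, mul_zero,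
            Complex.ofReal_re, zero_add]
        rw [e1, le_div_iff₀ hexp] at h1
        have h3 : 1 ≤ Real.exp (-(2 * k * n * t)) * Real.exp (2 * k * n * T') := by
          rw [← Real.exp_add]
          apply Real.one_le_exp
          have h4 : (0 : ℝ) ≤ 2 * k * n := by positivity
          nlinarith [ht.2, mul_le_mul_of_nonneg_left ht.2 h4]
        set y := ‖W β K (u t) (Complex.I * ((n : ℝ) : ℂ)) k -
          W β K (v t) (Complex.I * ((n : ℝ) : ℂ)) k‖ with hy
        have hy0 : 0 ≤ y := norm_nonneg _
        calc y = 1 * y := (one_mul y).symm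
          _ ≤ (Real.exp (-(2 * k * n * t)) * Real.exp (2 * k * n * T')) * y :=
              mul_le_mul_of_nonneg_right h3 hy0
          _ = Real.exp (-(2 * k * n * t)) * y * Real.exp (2 * k * n * T') := by ring
          _ ≤ δ := h1
  intro t ht k
  have hθ : ∀ j ≤ k, theta (u t) j = theta (v t) j := fun j _ => (claim j).1 t ht
  exact theta_inj (hune t (hsub t ht)) (by rw [hua t (hsub t ht), hva t (hsub t ht)]) hθ k le_rfl

end

end H6CCM
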