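import Pool.Agent.Lib.MP_679ac2_an.H6Ind

/-!
Reductions: Galilei shift to non-vanishing mean, time reversal, and the passage from weak to
classical solutions.
-/

open Finset Filter Topology MeasureTheory

noncomputable section

namespace H6CCM

variable {β s M T : ℝ}

/-! ### vanishing of the low modes -/

lemma const_of_deriv_zero {f : ℝ → ℂ} (hd : ∀ x ∈ Set.Ioo (-T) T, HasDerivAt f 0 x)
    {t : ℝ} (ht : t ∈ Set.Ioo (-T) T) : f t = f 0 := by
  have hT : 0 < T := by linarith [ht.1, ht.2]
  have h0 : (0 : ℝ) ∈ Set.Ioo (-T) T := ⟨by linarith, hT⟩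
  have hconv : Convex ℝ (Set.Ioo (-T) T) := convex_Ioo _ _
  apply hconv.is_const_of_fderivWithin_eq_zero (𝕜 := ℝ) (f := f)
    (fun x hx => (hd x hx).differentiableAt.differentiableWithinAt) ?_ ht h0
  intro x hx
  have h1 : HasFDerivWithinAt f (0 : ℝ →L[ℝ] ℂ) (Set.Ioo (-T) T) x := by
    have := (hd x hx).hasFDerivAt.hasFDerivWithinAt (s := Set.Ioo (-T) T)
    simpa using this
  exact h1.fderivWithin (isOpen_Ioo.uniqueDiffWithinAt hx)

lemma hasDerivAt_cexp_mul (c : ℂ) (t : ℝ) :
    HasDerivAt (fun t : ℝ => Complex.exp (c * t)) (Complex.exp (c * t) * c) t := by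
  have h2 : HasDerivAt (fun t : ℝ => c * (t : ℂ)) c t := by
    simpa using (Complex.ofRealCLM.hasDerivAt (x := t)).const_mul c
  exact h2.cexp

lemma low_modes {u : ℝ → ℕ → ℂ} (hu : Sol β s M T u) (k : ℕ) (h0 : ∀ j ≤ k, u 0 j = 0) :
    ∀ t ∈ Set.Ioo (-T) T, u t k = 0 := by
  induction k using Nat.strong_induction_on with
  | _ k ih =>
    have hlow : ∀ j < k, ∀ t ∈ Set.Ioo (-T) T, u t j = 0 := fun j hj =>
      ih j hj fun i hi => h0 i (hi.trans hj.le)
    have hr : ∀ t ∈ Set.Ioo (-T) T, rhs β (u t) k = Complex.I * (k : ℂ) ^ 2 * u t k := by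
      intro t ht
      unfold rhs
      have : ∑ m ∈ range (k + 1), Complex.I * (m : ℂ) * corr (u t) m * u t (k - m) = 0 := by
        apply sum_eq_zero
        intro m _
        rcases Nat.eq_zero_or_pos m with h | h
        · rw [h]; simp
        · rcases Nat.lt_or_ge (k - m) k with h1 | h1
          · rw [hlow _ h1 t ht, mul_zero]
          · have hk0 : k = 0 := by omega
            subst hk0
            have hm : m ≤ 0 := by
              have := mem_range.mp ‹m ∈ range (0 + 1)›
              omega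
            omega
      rw [this, mul_zero, add_zero]
    intro t ht
    have hd : ∀ x ∈ Set.Ioo (-T) T,
        HasDerivAt (fun t : ℝ => Complex.exp (-(Complex.I * (k : ℂ) ^ 2) * t) * u t k) 0 x := by
      intro x hx
      have h1 := (hasDerivAt_cexp_mul (-(Complex.I * (k : ℂ) ^ 2)) x).mul (hu.der x hx k)
      refine h1.congr_deriv ?_
      rw [hr x hx]
      ring
    have h2 := const_of_deriv_zero hd ht
    rw [h0 k le_rfl, mul_zero] at h2
    exact (mul_eq_zero.mp h2).resolve_left (Complex.exp_ne_zero _)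

/-! ### the Galilei shift -/

/-- shifted solution -/
def shift (r : ℕ) (u : ℝ → ℕ → ℂ) (t : ℝ) (j : ℕ) : ℂ :=
  Complex.exp (-(Complex.I * ((r : ℂ) ^ 2 + 2 * r * j)) * t) * u t (j + r)

lemma corr_shift {u : ℝ → ℕ → ℂ} {r : ℕ} {t : ℝ} (hs : 0 ≤ s) (hb : Bdd s M (u t))
    (h0 : ∀ j < r, u t j = 0) (m : ℕ) :
    corr (shift r u t) m = Complex.exp (-(Complex.I * (2 * r * m)) * t) * corr (u t) m := by
  unfold corr
  have h1 := hb.summable_corr hs m
  rw [← h1.sum_add_tsum_nat_add r, sum_eq_zero, zero_add, ← tsum_mul_left]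
  · apply tsum_congr
    intro b
    unfold shift
    have e1 : b + m + r = b + r + m := by ring
    rw [e1, star_mul', Complex.star_def, ← Complex.exp_conj]
    have e2 : Complex.exp ((starRingEnd ℂ) (-(Complex.I * ((r : ℂ) ^ 2 + 2 * r * b)) * t)) *
        Complex.exp (-(Complex.I * ((r : ℂ) ^ 2 + 2 * r * ((b + m : ℕ) : ℂ))) * t) =
        Complex.exp (-(Complex.I * (2 * r * m)) * t) := by
      rw [← Complex.exp_add]
      congr 1
      simp only [map_mul, map_neg, map_add, map_pow, Complex.conj_I, Complex.conj_natCast,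
        Complex.conj_ofReal, Complex.conj_ofNat]
      push_cast
      ring
    calc _ = (Complex.exp ((starRingEnd ℂ) (-(Complex.I * ((r : ℂ) ^ 2 + 2 * r * b)) * t)) *
        Complex.exp (-(Complex.I * ((r : ℂ) ^ 2 + 2 * r * ((b + m : ℕ) : ℂ))) * t)) *
        (star (u t (b + r)) * u t (b + r + m)) := by
          rw [Complex.star_def]; ring
      _ = _ := by rw [e2, Complex.star_def]
  · intro b hb'
    rw [h0 b (mem_range.mp hb')]
    simp

lemma shift_sol (hs : 0 ≤ s) {u : ℝ → ℕ → ℂ} {r : ℕ} (hu : Sol β s M T u)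
    (h0 : ∀ j < r, u 0 j = 0) : Sol β s M T (shift r u) := by
  have hlow : ∀ j < r, ∀ t ∈ Set.Ioo (-T) T, u t j = 0 := fun j hj =>
    low_modes hu j fun i hi => h0 i (lt_of_le_of_lt hi hj)
  refine ⟨?_, ?_⟩
  · intro t ht k
    have h1 := (hasDerivAt_cexp_mul (-(Complex.I * ((r : ℂ) ^ 2 + 2 * r * k))) t).mul
      (hu.der t ht (k + r))
    refine h1.congr_deriv ?_
    have hc : ∀ m, corr (shift r u t) m =
        Complex.exp (-(Complex.I * (2 * r * m)) * t) * corr (u t) m := fun m =>
      corr_shift hs (hu.bdd t ht) (fun j hj => hlow j hj t ht) m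
    have hsum : ∑ m ∈ range (k + r + 1), Complex.I * (m : ℂ) * corr (u t) m * u t (k + r - m) =
        ∑ m ∈ range (k + 1), Complex.I * (m : ℂ) * corr (u t) m * u t (k - m + r) := by
      have hsub : range (k + 1) ⊆ range (k + r + 1) := by
        intro x hx
        rw [mem_range] at hx ⊢
        omega
      rw [← sum_subset hsub]
      · apply sum_congr rfl
        intro m hm
        have : k + r - m = k - m + r := by
          have := mem_range.mp hm
          omega
        rw [this]
      · intro m hm hm'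
        rw [mem_range] at hm hm'
        rw [hlow (k + r - m) (by omega) t ht, mul_zero]
    unfold rhs
    rw [hsum]
    simp only [hc]
    have hsum2 : ∀ m ∈ range (k + 1), Complex.I * (m : ℂ) *
        (Complex.exp (-(Complex.I * (2 * r * m)) * t) * corr (u t) m) * shift r u t (k - m) =
        Complex.exp (-(Complex.I * ((r : ℂ) ^ 2 + 2 * r * k)) * t) *
          (Complex.I * (m : ℂ) * corr (u t) m * u t (k - m + r)) := by
      intro m hm
      have hmk : m ≤ k := Nat.lt_succ_iff.mp (mem_range.mp hm)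
      unfold shift
      have e2 : Complex.exp (-(Complex.I * (2 * r * m)) * t) *
          Complex.exp (-(Complex.I * ((r : ℂ) ^ 2 + 2 * r * ((k - m : ℕ) : ℂ))) * t) =
          Complex.exp (-(Complex.I * ((r : ℂ) ^ 2 + 2 * r * k)) * t) := by
        rw [← Complex.exp_add]
        congr 1
        rw [Nat.cast_sub hmk]
        ring
      rw [← e2]
      ring
    rw [sum_congr rfl hsum2, ← mul_sum]
    unfold shift
    push_cast
    ring
  · intro t ht n
    refine le_trans ?_ (hu.bdd t ht (n + r))
    have h1 : ∑ k ∈ range n, wt (2 * s) k * ‖shift r u t k‖ ^ 2 ≤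
        ∑ k ∈ range n, wt (2 * s) (k + r) * ‖u t (k + r)‖ ^ 2 := by
      apply sum_le_sum
      intro k _
      have e1 : ‖shift r u t k‖ = ‖u t (k + r)‖ := by
        unfold shift
        rw [norm_mul, Complex.norm_exp]
        have : (-(Complex.I * ((r : ℂ) ^ 2 + 2 * r * k)) * (t : ℂ)).re = 0 := by
          have e : -(Complex.I * ((r : ℂ) ^ 2 + 2 * r * k)) * (t : ℂ) =
              ((-(((r : ℝ) ^ 2 + 2 * r * k) * t) : ℝ) : ℂ) * Complex.I := by
            push_cast; ring
          rw [e, Complex.re_ofReal_mul, Complex.I_re, mul_zero]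
        rw [this, Real.exp_zero, one_mul]
      rw [e1]
      apply mul_le_mul_of_nonneg_right _ (sq_nonneg _)
      exact wt_le_wt_right (by linarith) (Nat.le_add_right _ _)
    refine h1.trans ?_
    rw [← sum_image (f := fun k => wt (2 * s) k * ‖u t k‖ ^ 2) (g := fun k => k + r)
      (fun x _ y _ h => by simpa using h)]
    apply sum_le_sum_of_subset_of_nonneg
    · intro m hm
      simp only [mem_image, mem_range] at hm ⊢
      omega
    · intro i _ _
      exact mul_nonneg (wt_nonneg _ _) (sq_nonneg _)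

/-! ### time reversal -/

lemma corr_star (u : ℕ → ℂ) (m : ℕ) : corr (fun k => star (u k)) m = star (corr u m) := by
  unfold corr
  rw [tsum_star]
  apply tsum_congr
  intro b
  rw [star_mul', star_star]

lemma rev_sol {u : ℝ → ℕ → ℂ} (hu : Sol β s M T u) :
    Sol β s M T (fun t k => star (u (-t) k)) := by
  refine ⟨?_, ?_⟩
  · intro t ht k
    have ht' : -t ∈ Set.Ioo (-T) T := ⟨by linarith [ht.2], by linarith [ht.1]⟩
    have h1 := (hu.der (-t) ht' k).scomp t (hasDerivAt_neg t)
    have h2 := h1.star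
    refine h2.congr_deriv ?_
    unfold rhs
    simp only [corr_star]
    rw [neg_one_smul]
    simp only [star_neg, star_add, star_mul', star_sum, Complex.star_def, Complex.conj_I, map_pow,
      Complex.conj_natCast, Complex.conj_ofReal, Complex.conj_ofNat]
    rw [neg_add]
    congr 1
    · ring
    · rw [← mul_neg, ← sum_neg_distrib]
      congr 1
      apply sum_congr rfl
      intro m _
      ring
  · intro t ht n
    have ht' : -t ∈ Set.Ioo (-T) T := ⟨by linarith [ht.2], by linarith [ht.1]⟩
    have := hu.bdd (-t) ht' n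
    simpa only [norm_star] using this

/-! ### uniqueness for classical solutions -/

theorem unique_pos (hβ : 0 < β) (hs : 1 / 4 < s) (hs2 : s < 1 / 2) {u v : ℝ → ℕ → ℂ}
    (hu : Sol β s M T u) (hv : Sol β s M T v) (h0 : u 0 = v 0) {t : ℝ}
    (ht : t ∈ Set.Ioo (-T) T) (ht0 : 0 ≤ t) : u t = v t := by
  have hs0 : 0 ≤ s := by linarith
  by_cases hz : ∀ k, u 0 k = 0
  · funext k
    rw [low_modes hu k (fun j _ => hz j) t ht, low_modes hv k (fun j _ => by rw [← h0, hz j]) t ht]
  · push Not at hz
    classical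
    set r := Nat.find hz with hr
    have hr1 : u 0 r ≠ 0 := Nat.find_spec hz
    have hr2 : ∀ j < r, u 0 j = 0 := fun j hj => by
      have := Nat.find_min hz hj
      push Not at this
      exact this
    have hr3 : ∀ j < r, v 0 j = 0 := fun j hj => by rw [← h0]; exact hr2 j hj
    have hU := shift_sol hs0 hu hr2
    have hV := shift_sol hs0 hv hr3
    obtain ⟨T', hT'⟩ := exists_between ht.2
    have hcore := core hβ hs hs2 hU hV (by
      funext j
      unfold shift
      rw [h0]) (by
      unfold shift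
      simp only [zero_add, Complex.ofReal_zero, mul_zero, Complex.exp_zero, one_mul]
      exact hr1) (T' := T') (lt_of_le_of_lt ht0 hT'.1) hT'.2 t ⟨ht0, hT'.1.le⟩
    funext k
    rcases Nat.lt_or_ge k r with hk | hk
    · rw [low_modes hu k (fun j hj => hr2 j (lt_of_le_of_lt hj hk)) t ht,
        low_modes hv k (fun j hj => hr3 j (lt_of_le_of_lt hj hk)) t ht]
    · have := hcore (k - r)
      unfold shift at this
      rw [Nat.sub_add_cancel hk] at this
      exact mul_left_cancel₀ (Complex.exp_ne_zero _) this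

theorem unique_classical (hβ : 0 < β) (hs : 1 / 4 < s) (hs2 : s < 1 / 2) {u v : ℝ → ℕ → ℂ}
    (hu : Sol β s M T u) (hv : Sol β s M T v) (h0 : u 0 = v 0) {t : ℝ}
    (ht : t ∈ Set.Ioo (-T) T) : u t = v t := by
  rcases le_total 0 t with h | h
  · exact unique_pos hβ hs hs2 hu hv h0 ht h
  · have ht' : -t ∈ Set.Ioo (-T) T := ⟨by linarith [ht.2], by linarith [ht.1]⟩
    have := unique_pos hβ hs hs2 (rev_sol hu) (rev_sol hv) (by
      funext k
      simp only [neg_zero]
      rw [h0]) ht' (by linarith)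
    funext k
    have h1 := congrFun this k
    simp only [neg_neg] at h1
    exact star_injective h1

/-! ### continuity of the quadratic terms -/

lemma tail_sq_le (hs : 0 ≤ s) {u : ℕ → ℂ} (hu : Bdd s M u) (B : ℕ) :
    ∑' b, ‖u (b + B)‖ ^ 2 ≤ wt (-(2 * s)) B * M := by
  have h1 : Summable fun b => ‖u (b + B)‖ ^ 2 := (summable_nat_add_iff B).mpr (hu.summable hs)
  apply h1.tsum_le_of_sum_range_le
  intro n
  have h2 : ∀ b ∈ range n, ‖u (b + B)‖ ^ 2 ≤
      wt (-(2 * s)) B * (wt (2 * s) (b + B) * ‖u (b + B)‖ ^ 2) := by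
    intro b _
    have e1 : 1 ≤ wt (-(2 * s)) B * wt (2 * s) (b + B) := by
      have e2 : wt (-(2 * s)) B * wt (2 * s) B = 1 := by
        rw [wt_mul]; simp [wt_zero]
      calc 1 = wt (-(2 * s)) B * wt (2 * s) B := e2.symm
        _ ≤ _ := mul_le_mul_of_nonneg_left
            (wt_le_wt_right (by linarith) (Nat.le_add_left _ _)) (wt_nonneg _ _)
    calc ‖u (b + B)‖ ^ 2 ≤ (wt (-(2 * s)) B * wt (2 * s) (b + B)) * ‖u (b + B)‖ ^ 2 :=
          le_mul_of_one_le_left (sq_nonneg _) e1
      _ = _ := by ring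
  refine (sum_le_sum h2).trans ?_
  rw [← mul_sum]
  apply mul_le_mul_of_nonneg_left _ (wt_nonneg _ _)
  refine le_trans ?_ (hu (n + B))
  rw [← sum_image (f := fun k => wt (2 * s) k * ‖u k‖ ^ 2) (g := fun k => k + B)
    (fun x _ y _ h => by simpa using h)]
  apply sum_le_sum_of_subset_of_nonneg
  · intro m hm
    simp only [mem_image, mem_range] at hm ⊢
    omega
  · intro i _ _
    exact mul_nonneg (wt_nonneg _ _) (sq_nonneg _)

lemma corr_tail_le (hs : 0 ≤ s) {u : ℕ → ℂ} (hu : Bdd s M u) (m B : ℕ) :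
    ‖corr u m - ∑ b ∈ range B, star (u b) * u (b + m)‖ ≤ wt (-(2 * s)) B * M := by
  have hM := hu.nonneg
  have hsum := hu.summable_corr hs m
  have e : corr u m - ∑ b ∈ range B, star (u b) * u (b + m) =
      ∑' b, star (u (b + B)) * u (b + B + m) := by
    unfold corr
    rw [← hsum.sum_add_tsum_nat_add B]
    ring
  rw [e]
  have h1 : Summable fun b => ‖u (b + B)‖ ^ 2 := (summable_nat_add_iff B).mpr (hu.summable hs)
  have h2 : Summable fun b => ‖u (b + (B + m))‖ ^ 2 :=
    (summable_nat_add_iff (B + m)).mpr (hu.summable hs)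
  have h3 : Summable fun b => (‖u (b + B)‖ ^ 2 + ‖u (b + (B + m))‖ ^ 2) / 2 :=
    (h1.add h2).div_const 2
  have h4 := tsum_of_norm_bounded h3.hasSum (f := fun b => star (u (b + B)) * u (b + B + m)) ?_
  · refine h4.trans ?_
    rw [tsum_div_const, h1.tsum_add h2]
    have e1 := tail_sq_le hs hu B
    have e2 := tail_sq_le hs hu (B + m)
    have e3 : wt (-(2 * s)) (B + m) * M ≤ wt (-(2 * s)) B * M :=
      mul_le_mul_of_nonneg_right (wt_neg_anti (by linarith) (Nat.le_add_right _ _)) hM
    linarith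
  · intro b
    have e1 : b + B + m = b + (B + m) := by ring
    rw [norm_mul, norm_star, e1]
    nlinarith [sq_nonneg (‖u (b + B)‖ - ‖u (b + (B + m))‖)]

lemma corr_cont (hs : 0 < s) {c : ℝ → ℕ → ℂ} {S : Set ℝ}
    (hc : ∀ k, ContinuousOn (fun t => c t k) S) (hb : ∀ t ∈ S, Bdd s M (c t)) (m : ℕ) :
    ContinuousOn (fun t => corr (c t) m) S := by
  have h1 : TendstoUniformlyOn (fun B t => ∑ b ∈ range B, star (c t b) * c t (b + m))
      (fun t => corr (c t) m) atTop S := by
    rw [Metric.tendstoUniformlyOn_iff]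
    intro ε hε
    have h2 := (wt_tendsto (x := 2 * s) (by linarith)).mul_const M
    rw [zero_mul] at h2
    filter_upwards [h2.eventually (gt_mem_nhds hε)] with B hB t ht
    rw [dist_eq_norm]
    exact lt_of_le_of_lt (corr_tail_le hs.le (hb t ht) m B) hB
  apply h1.continuousOn
  apply Frequently.of_forall
  intro B
  apply continuousOn_finsetSum
  intro b _
  exact (hc b).star.mul (hc (b + m))

lemma rhs_cont (hs : 0 < s) {c : ℝ → ℕ → ℂ} {S : Set ℝ}
    (hc : ∀ k, ContinuousOn (fun t => c t k) S) (hb : ∀ t ∈ S, Bdd s M (c t)) (k : ℕ) :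
    ContinuousOn (fun t => rhs β (c t) k) S := by
  unfold rhs
  apply ContinuousOn.add
  · exact continuousOn_const.mul (hc k)
  · apply continuousOn_const.mul
    apply continuousOn_finsetSum
    intro m _
    exact (continuousOn_const.mul (corr_cont hs hc hb m)).mul (hc (k - m))

end H6CCM
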