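import Pool.Agent.Lib.MP_679ac2_an.H6Est

/-!
Resolvents of finite sections of the Lax operator.
-/

open Finset Matrix

noncomputable section

namespace H6CCM

/-- the number operator -/
def numb (K : ℕ) : Matrix (Fin (K + 1)) (Fin (K + 1)) ℂ :=
  Matrix.diagonal fun j => ((j : ℕ) : ℂ)

/-- `N + β T Tᴴ + λ` -/
def Amat (β : ℝ) (K : ℕ) (u : ℕ → ℂ) (lam : ℂ) : Matrix (Fin (K + 1)) (Fin (K + 1)) ℂ :=
  numb K + (β : ℂ) • (toep K u * (toep K u)ᴴ) + lam • 1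

lemma numb_mv (K : ℕ) (w : Fin (K + 1) → ℂ) (j : Fin (K + 1)) :
    (numb K *ᵥ w) j = ((j : ℕ) : ℂ) * w j := by
  unfold numb
  rw [Matrix.mulVec_diagonal]

lemma Amat_mv (β : ℝ) (K : ℕ) (u : ℕ → ℂ) (lam : ℂ) (w : Fin (K + 1) → ℂ) (j : Fin (K + 1)) :
    (Amat β K u lam *ᵥ w) j =
      ((j : ℕ) : ℂ) * w j + β * (toep K u *ᵥ ((toep K u)ᴴ *ᵥ w)) j + lam * w j := by
  unfold Amat
  rw [Matrix.add_mulVec, Matrix.add_mulVec, Pi.add_apply, Pi.add_apply, numb_mv,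
    Matrix.smul_mulVec, Matrix.smul_mulVec, Matrix.one_mulVec, ← Matrix.mulVec_mulVec]
  simp [Pi.smul_apply, smul_eq_mul]

lemma conj_mul_self (z : ℂ) : star z * z = ((‖z‖ ^ 2 : ℝ) : ℂ) := by
  have := Complex.conj_mul' z
  simpa using this

lemma energy (β : ℝ) (K : ℕ) (u : ℕ → ℂ) (lam : ℂ) (w : Fin (K + 1) → ℂ) :
    star w ⬝ᵥ (Amat β K u lam *ᵥ w) =
      ((∑ j : Fin (K + 1), ((j : ℕ) : ℝ) * ‖w j‖ ^ 2 + β * nrm 0 K ((toep K u)ᴴ *ᵥ w) : ℝ) : ℂ) +
        lam * ((nrm 0 K w : ℝ) : ℂ) := by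
  have h1 : star w ⬝ᵥ (toep K u *ᵥ ((toep K u)ᴴ *ᵥ w)) =
      ((nrm 0 K ((toep K u)ᴴ *ᵥ w) : ℝ) : ℂ) := by
    rw [Matrix.dotProduct_mulVec]
    have : star w ᵥ* toep K u = star ((toep K u)ᴴ *ᵥ w) := by
      rw [Matrix.star_mulVec, Matrix.conjTranspose_conjTranspose]
    rw [this]
    unfold nrm dotProduct
    push_cast
    apply sum_congr rfl
    intro a _
    rw [wt_zero, Pi.star_apply, conj_mul_self]
    simp
  have h2 : star w ⬝ᵥ (Amat β K u lam *ᵥ w) = ∑ j : Fin (K + 1), (((j : ℕ) : ℂ) * (star (w j) * w j)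
      + β * (star (w j) * (toep K u *ᵥ ((toep K u)ᴴ *ᵥ w)) j) + lam * (star (w j) * w j)) := by
    unfold dotProduct
    apply sum_congr rfl
    intro j _
    rw [Amat_mv, Pi.star_apply]
    ring
  rw [h2, sum_add_distrib, sum_add_distrib, ← mul_sum, ← mul_sum]
  have h3 : ∑ j : Fin (K + 1), star (w j) * (toep K u *ᵥ ((toep K u)ᴴ *ᵥ w)) j =
      ((nrm 0 K ((toep K u)ᴴ *ᵥ w) : ℝ) : ℂ) := by
    rw [← h1]; rfl
  rw [h3]
  unfold nrm
  simp only [conj_mul_self]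
  push_cast
  congr 1
  congr 1
  apply sum_congr rfl
  intro j _
  rw [wt_zero]
  simp

lemma nrm_zero_eq (K : ℕ) (w : Fin (K + 1) → ℂ) : nrm 0 K w = ∑ j, ‖w j‖ ^ 2 := by
  unfold nrm
  apply sum_congr rfl
  intro j _
  rw [wt_zero, one_mul]

lemma Amat_inj {β : ℝ} {K : ℕ} {u : ℕ → ℂ} {lam : ℂ} (him : lam.im ≠ 0)
    {w : Fin (K + 1) → ℂ} (h : Amat β K u lam *ᵥ w = 0) : w = 0 := by
  have e := energy β K u lam w
  rw [h, dotProduct_zero] at e
  have e2 := congrArg Complex.im e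
  simp only [Complex.zero_im, Complex.add_im, Complex.ofReal_im, zero_add, Complex.mul_im,
    Complex.ofReal_re, mul_zero] at e2
  have e3 : nrm 0 K w = 0 := by
    rcases mul_eq_zero.mp e2.symm with h | h
    · exact absurd h him
    · exact h
  rw [nrm_zero_eq] at e3
  have e4 := (sum_eq_zero_iff_of_nonneg (fun i _ => sq_nonneg _)).mp e3
  funext j
  have := e4 j (mem_univ j)
  simpa using this

lemma Amat_det {β : ℝ} {K : ℕ} {u : ℕ → ℂ} {lam : ℂ} (him : lam.im ≠ 0) :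
    (Amat β K u lam).det ≠ 0 := by
  intro h
  obtain ⟨v, hv, hv2⟩ := Matrix.exists_mulVec_eq_zero_iff.mpr h
  exact hv (Amat_inj him hv2)

lemma Amat_isUnit {β : ℝ} {K : ℕ} {u : ℕ → ℂ} {lam : ℂ} (him : lam.im ≠ 0) :
    IsUnit (Amat β K u lam).det := isUnit_iff_ne_zero.mpr (Amat_det him)

/-- the resolvent vector `(L+λ)^{-1} e_k` -/
def res (β : ℝ) (K : ℕ) (u : ℕ → ℂ) (lam : ℂ) (k : Fin (K + 1)) : Fin (K + 1) → ℂ :=
  (Amat β K u lam)⁻¹ *ᵥ (Pi.single k 1)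

lemma res_spec {β : ℝ} {K : ℕ} {u : ℕ → ℂ} {lam : ℂ} (him : lam.im ≠ 0) (k : Fin (K + 1)) :
    Amat β K u lam *ᵥ res β K u lam k = Pi.single k 1 := by
  unfold res
  rw [Matrix.mulVec_mulVec, Matrix.mul_nonsing_inv _ (Amat_isUnit him), Matrix.one_mulVec]

section bounds

variable {β : ℝ} {K : ℕ} {u : ℕ → ℂ} {lam : ℂ} {k : Fin (K + 1)} {w : Fin (K + 1) → ℂ}

lemma energy_single (hw : Amat β K u lam *ᵥ w = Pi.single k 1) :
    ((∑ j : Fin (K + 1), ((j : ℕ) : ℝ) * ‖w j‖ ^ 2 + β * nrm 0 K ((toep K u)ᴴ *ᵥ w) : ℝ) : ℂ) +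
        lam * ((nrm 0 K w : ℝ) : ℂ) = star (w k) := by
  rw [← energy, hw, dotProduct_single, mul_one, Pi.star_apply]

lemma energy_im (hw : Amat β K u lam *ᵥ w = Pi.single k 1) :
    lam.im * nrm 0 K w = -(w k).im := by
  have e2 := congrArg Complex.im (energy_single hw)
  simp only [Complex.add_im, Complex.ofReal_im, zero_add, Complex.mul_im, Complex.ofReal_re,
    mul_zero, Complex.star_def, Complex.conj_im] at e2
  exact e2

lemma energy_re (hre : lam.re = 0) (hw : Amat β K u lam *ᵥ w = Pi.single k 1) :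
    ∑ j : Fin (K + 1), ((j : ℕ) : ℝ) * ‖w j‖ ^ 2 + β * nrm 0 K ((toep K u)ᴴ *ᵥ w) = (w k).re := by
  have e2 := congrArg Complex.re (energy_single hw)
  simp only [Complex.add_re, Complex.ofReal_im, hre, Complex.mul_re, Complex.ofReal_re,
    mul_zero, zero_mul, sub_zero, add_zero, Complex.star_def, Complex.conj_re] at e2
  exact e2

lemma w_norm_le {ν : ℝ} (hν : 0 < ν) (him : |lam.im| = ν)
    (hw : Amat β K u lam *ᵥ w = Pi.single k 1) :
    ν * nrm 0 K w ≤ ‖w k‖ ∧ ‖w k‖ ≤ 1 / ν := by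
  have e := energy_im hw
  have e1 : ν * nrm 0 K w ≤ ‖w k‖ := by
    have : |lam.im * nrm 0 K w| = |(w k).im| := by rw [e, abs_neg]
    rw [abs_mul, abs_of_nonneg (nrm_nonneg 0 K w), him] at this
    rw [this]
    exact Complex.abs_im_le_norm _
  refine ⟨e1, ?_⟩
  have e2 := le_nrm (le_refl (0 : ℝ)) K w k
  rw [le_div_iff₀ hν]
  by_cases h0 : ‖w k‖ = 0
  · rw [h0]; norm_num
  · have hpos : 0 < ‖w k‖ := lt_of_le_of_ne (norm_nonneg _) (Ne.symm h0)
    have e3 : ν * ‖w k‖ ^ 2 ≤ ‖w k‖ := (mul_le_mul_of_nonneg_left e2 hν.le).trans e1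
    nlinarith

lemma nrm_w_le {ν : ℝ} (hν : 0 < ν) (him : |lam.im| = ν)
    (hw : Amat β K u lam *ᵥ w = Pi.single k 1) :
    nrm 0 K w ≤ 1 / ν ^ 2 := by
  obtain ⟨e1, e2⟩ := w_norm_le hν him hw
  have : ν * nrm 0 K w ≤ 1 / ν := e1.trans e2
  rw [le_div_iff₀ hν] at this
  rw [le_div_iff₀ (by positivity)]
  nlinarith

lemma norm_w_le {ν : ℝ} (hν : 0 < ν) (him : |lam.im| = ν)
    (hw : Amat β K u lam *ᵥ w = Pi.single k 1) (j : Fin (K + 1)) :
    ‖w j‖ ≤ 1 / ν := by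
  have h1 := (le_nrm (le_refl (0 : ℝ)) K w j).trans (nrm_w_le hν him hw)
  have h2 : ‖w j‖ ^ 2 ≤ (1 / ν) ^ 2 := by
    rw [_root_.one_div_pow]; exact h1
  exact (sq_le_sq₀ (norm_nonneg _) (by positivity)).mp h2

lemma p_norm_le (hre : lam.re = 0) {ν : ℝ} (hν : 0 < ν) (him : |lam.im| = ν)
    (hw : Amat β K u lam *ᵥ w = Pi.single k 1) :
    β * nrm 0 K ((toep K u)ᴴ *ᵥ w) ≤ 1 / ν := by
  have e := energy_re hre hw
  have h1 : 0 ≤ ∑ j : Fin (K + 1), ((j : ℕ) : ℝ) * ‖w j‖ ^ 2 :=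
    sum_nonneg fun j _ => mul_nonneg (Nat.cast_nonneg _) (sq_nonneg _)
  have h2 : (w k).re ≤ ‖w k‖ := Complex.re_le_norm _
  have h3 := (w_norm_le hν him hw).2
  linarith

lemma w_weight_le (hre : lam.re = 0) (him : 1 ≤ |lam.im|) (τ : ℝ)
    (hw : Amat β K u lam *ᵥ w = Pi.single k 1) :
    nrm (τ + 2) K w ≤ 4 * (wt τ k + β ^ 2 * nrm τ K (toep K u *ᵥ ((toep K u)ᴴ *ᵥ w))) := by
  set f := toep K u *ᵥ ((toep K u)ᴴ *ᵥ w) with hf
  have hrow : ∀ j : Fin (K + 1), wt (τ + 2) j * ‖w j‖ ^ 2 ≤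
      4 * ((if j = k then wt τ k else 0) + β ^ 2 * (wt τ j * ‖f j‖ ^ 2)) := by
    intro j
    have e : (((j : ℕ) : ℂ) + lam) * w j = (if j = k then 1 else 0) - β * f j := by
      have := congrFun hw j
      rw [Amat_mv, Pi.single_apply, ← hf] at this
      linear_combination this
    have hn : (1 + ((j : ℕ) : ℝ)) ^ 2 ≤ 2 * ‖((j : ℕ) : ℂ) + lam‖ ^ 2 := by
      rw [← Complex.normSq_eq_norm_sq, Complex.normSq_apply]
      simp only [Complex.add_re, Complex.natCast_re, Complex.add_im, Complex.natCast_im, hre]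
      have h1 : 1 ≤ lam.im ^ 2 := by
        rw [← sq_abs]; nlinarith
      nlinarith [sq_nonneg (((j : ℕ) : ℝ) - 1)]
    have h2 : ‖(((j : ℕ) : ℂ) + lam) * w j‖ ^ 2 ≤
        2 * ((if j = k then 1 else 0) + β ^ 2 * ‖f j‖ ^ 2) := by
      rw [e]
      have h3 : ‖(if j = k then (1 : ℂ) else 0) - β * f j‖ ≤ (if j = k then 1 else 0) + |β| * ‖f j‖ := by
        refine (norm_sub_le _ _).trans ?_
        rw [norm_mul, Complex.norm_real, Real.norm_eq_abs]
        gcongr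
        split_ifs <;> simp
      have h4 : ‖(if j = k then (1 : ℂ) else 0) - β * f j‖ ^ 2 ≤
          ((if j = k then 1 else 0) + |β| * ‖f j‖) ^ 2 :=
        pow_le_pow_left₀ (norm_nonneg _) h3 2
      refine h4.trans ?_
      have h5 : (|β| * ‖f j‖) ^ 2 = β ^ 2 * ‖f j‖ ^ 2 := by
        rw [mul_pow, sq_abs]
      rw [← h5]
      split_ifs
      · nlinarith [sq_nonneg (1 - |β| * ‖f j‖)]
      · nlinarith [sq_nonneg (|β| * ‖f j‖)]
    rw [norm_mul, mul_pow] at h2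
    have h6 : wt (τ + 2) j = wt τ j * (1 + ((j : ℕ) : ℝ)) ^ 2 := by
      rw [← wt_mul, wt_two]
    rw [h6]
    have hwτ := wt_nonneg τ j
    calc wt τ j * (1 + ((j : ℕ) : ℝ)) ^ 2 * ‖w j‖ ^ 2
        ≤ wt τ j * (2 * ‖((j : ℕ) : ℂ) + lam‖ ^ 2) * ‖w j‖ ^ 2 := by
          gcongr
      _ = wt τ j * (2 * (‖((j : ℕ) : ℂ) + lam‖ ^ 2 * ‖w j‖ ^ 2)) := by ring
      _ ≤ wt τ j * (2 * (2 * ((if j = k then 1 else 0) + β ^ 2 * ‖f j‖ ^ 2))) := by
          gcongr
      _ = 4 * ((if j = k then wt τ k else 0) + β ^ 2 * (wt τ j * ‖f j‖ ^ 2)) := by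
          split_ifs with h
          · rw [h]; ring
          · ring
  calc nrm (τ + 2) K w ≤ ∑ j : Fin (K + 1),
        4 * ((if j = k then wt τ k else 0) + β ^ 2 * (wt τ j * ‖f j‖ ^ 2)) :=
        sum_le_sum fun j _ => hrow j
    _ = 4 * (wt τ k + β ^ 2 * nrm τ K f) := by
        rw [← mul_sum, sum_add_distrib, ← mul_sum]
        unfold nrm
        simp

end bounds

/-- the constant in the second product estimate -/
def cD2 (s : ℝ) : ℝ := 2 ^ (2 * s) * cS (4 * s) + 2 ^ (4 * s) / (1 - 2 * s)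

/-- the constant in the third estimate -/
def cD3 (s : ℝ) : ℝ := 2 ^ (2 * s) / (1 - (4 * s - 1)) + 2 ^ (4 * s - 1) / (1 - 2 * s)

/-- constant bounding `p` in the strong norm -/
def cP (β s M : ℝ) (k : ℕ) : ℝ :=
  M / (1 - 2 * s) * (4 * (wt (2 * s) k + β ^ 2 * (cD2 s * (M * (M / (1 - 2 * s) *
    (4 * (1 + β ^ 2 * (1 / (1 - 2 * s) * (M * (1 / β))))))))))

lemma p_bound {β s M : ℝ} (hβ : 0 < β) (hs : 1 / 4 < s) (hs2 : s < 1 / 2) {K : ℕ} {u : ℕ → ℂ}
    (hu : Bdd s M u) {lam : ℂ} (hre : lam.re = 0) (him : 1 ≤ |lam.im|) {k : Fin (K + 1)}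
    {w : Fin (K + 1) → ℂ} (hw : Amat β K u lam *ᵥ w = Pi.single k 1) :
    nrm (4 * s + 1) K ((toep K u)ᴴ *ᵥ w) ≤ cP β s M k := by
  have hM := hu.nonneg
  have h12 : 0 < 1 - 2 * s := by linarith
  set p := (toep K u)ᴴ *ᵥ w with hp
  -- step 1
  have s1 : nrm 0 K p ≤ 1 / β := by
    have h1 := p_norm_le hre (lt_of_lt_of_le one_pos him) rfl hw
    have h2 : 1 / |lam.im| ≤ 1 := by
      rw [div_le_one (lt_of_lt_of_le one_pos him)]
      exact him
    rw [le_div_iff₀ hβ]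
    linarith
  -- step 2
  have s2 : nrm (2 * s - 1) K (toep K u *ᵥ p) ≤ 1 / (1 - 2 * s) * (M * (1 / β)) := by
    refine (mulVec_est hu (y := 0) (τ := 2 * s - 1) (D := 1 / (1 - 2 * s)) ?_ p).trans ?_
    · intro j _
      have e1 : ∑ a ∈ range (j + 1), wt (-(2 * s)) (j - a) * wt (-0) a =
          ∑ a ∈ range (j + 1), wt (-(2 * s)) a := by
        have := Finset.sum_range_reflect (fun a => wt (-(2 * s)) a) (j + 1)
        rw [← this]
        apply sum_congr rfl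
        intro a _
        simp [wt_zero]
      rw [e1]
      have e2 := sum_wt_neg_le (x := 2 * s) (by linarith) (by linarith) j
      calc wt (2 * s - 1) j * ∑ a ∈ range (j + 1), wt (-(2 * s)) a
          ≤ wt (2 * s - 1) j * (wt (1 - 2 * s) j / (1 - 2 * s)) :=
            mul_le_mul_of_nonneg_left e2 (wt_nonneg _ _)
        _ = 1 / (1 - 2 * s) := by
            rw [mul_div_assoc', wt_mul]
            have : 2 * s - 1 + (1 - 2 * s) = 0 := by ring
            rw [this, wt_zero]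
    · gcongr
  -- step 3
  have s3 : nrm (2 * s + 1) K w ≤ 4 * (1 + β ^ 2 * (1 / (1 - 2 * s) * (M * (1 / β)))) := by
    have h := w_weight_le hre him (2 * s - 1) hw
    have e : 2 * s - 1 + 2 = 2 * s + 1 := by ring
    rw [e] at h
    refine h.trans ?_
    have : wt (2 * s - 1) k ≤ 1 := wt_le_one (by linarith) _
    gcongr
  -- step 4
  have s4 : nrm (4 * s) K p ≤ M / (1 - 2 * s) *
      (4 * (1 + β ^ 2 * (1 / (1 - 2 * s) * (M * (1 / β))))) := by
    have h := conjTranspose_mulVec_est (s := s) (θ := 4 * s) (by linarith) (by linarith)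
      (by linarith) hu w
    have e : 4 * s + 1 - 2 * s = 2 * s + 1 := by ring
    rw [e] at h
    refine h.trans ?_
    gcongr
  -- step 5
  have s5 : nrm (2 * s) K (toep K u *ᵥ p) ≤ cD2 s * (M * (M / (1 - 2 * s) *
      (4 * (1 + β ^ 2 * (1 / (1 - 2 * s) * (M * (1 / β))))))) := by
    have hD2 : 0 ≤ cD2 s := by
      unfold cD2
      have := cS_nonneg (4 * s)
      positivity
    refine (mulVec_est hu (y := 4 * s) (τ := 2 * s) (D := cD2 s) ?_ p).trans ?_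
    · intro j _
      have e2 := sum_wt_conv_le_one (x := 2 * s) (y := 4 * s) (by linarith) (by linarith)
        (by linarith) j
      calc wt (2 * s) j * ∑ a ∈ range (j + 1), wt (-(2 * s)) (j - a) * wt (-(4 * s)) a
          ≤ wt (2 * s) j * (cD2 s * wt (-(2 * s)) j) :=
            mul_le_mul_of_nonneg_left e2 (wt_nonneg _ _)
        _ = cD2 s * (wt (2 * s) j * wt (-(2 * s)) j) := by ring
        _ = cD2 s := by
            rw [wt_mul]
            simp [wt_zero]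
    · gcongr
  -- step 6
  have s6 : nrm (2 * s + 2) K w ≤ 4 * (wt (2 * s) k + β ^ 2 * (cD2 s * (M * (M / (1 - 2 * s) *
      (4 * (1 + β ^ 2 * (1 / (1 - 2 * s) * (M * (1 / β))))))))) := by
    refine (w_weight_le hre him (2 * s) hw).trans ?_
    gcongr
  -- step 7
  have h := conjTranspose_mulVec_est (s := s) (θ := 4 * s + 1) (by linarith) (by linarith)
      (by linarith) hu w
  have e : 4 * s + 1 + 1 - 2 * s = 2 * s + 2 := by ring
  rw [e] at h
  refine h.trans ?_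
  unfold cP
  gcongr

/-! ### the error term -/

lemma nrm_mono {τ τ' : ℝ} (h : τ ≤ τ') (K : ℕ) (f : Fin (K + 1) → ℂ) : nrm τ K f ≤ nrm τ' K f := by
  unfold nrm
  apply sum_le_sum
  intro a _
  exact mul_le_mul_of_nonneg_right (wt_le_wt_left h _) (sq_nonneg _)

lemma nrm_numb_le (τ : ℝ) (K : ℕ) (f : Fin (K + 1) → ℂ) :
    nrm τ K (numb K *ᵥ f) ≤ nrm (τ + 2) K f := by
  unfold nrm
  apply sum_le_sum
  intro a _
  rw [numb_mv, norm_mul, mul_pow, ← wt_mul, wt_two, Complex.norm_natCast]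
  have h1 : ((a : ℕ) : ℝ) ^ 2 ≤ (1 + ((a : ℕ) : ℝ)) ^ 2 := by
    have : (0 : ℝ) ≤ ((a : ℕ) : ℝ) := Nat.cast_nonneg _
    nlinarith
  have := wt_nonneg τ a
  calc wt τ a * (((a : ℕ) : ℝ) ^ 2 * ‖f a‖ ^ 2) ≤ wt τ a * ((1 + ((a : ℕ) : ℝ)) ^ 2 * ‖f a‖ ^ 2) := by
        gcongr
    _ = _ := by ring

lemma tail_low {s M : ℝ} (hs : 1 / 4 < s) (hs2 : s < 1 / 2) {K : ℕ} {u : ℕ → ℂ}
    (hu : Bdd s M u) (f : Fin (K + 1) → ℂ) (L : ℕ) :
    ∑ c ∈ range L, ‖tail K u f c‖ ^ 2 ≤ cD2 s * wt (-(2 * s)) K * (M * nrm (4 * s + 1) K f) := by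
  have hM := hu.nonneg
  have h12 : 0 < 1 - 2 * s := by linarith
  have hD2 : 0 ≤ cD2 s := by
    unfold cD2
    have := cS_nonneg (4 * s)
    positivity
  have h1 := tail_est (y := 4 * s) (by linarith) hu
    (sum_wt_conv_le_one (x := 2 * s) (y := 4 * s) (by linarith) (by linarith) (by linarith) K) f L
  refine h1.trans ?_
  have h2 : nrm (4 * s) K f ≤ nrm (4 * s + 1) K f := nrm_mono (by linarith) K f
  have := wt_nonneg (-(2 * s)) K
  unfold cD2 at hD2 ⊢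
  gcongr

lemma tail_high {s M : ℝ} (hs : 1 / 4 < s) (hs2 : s < 1 / 2) {K : ℕ} {u : ℕ → ℂ}
    (hu : Bdd s M u) (f : Fin (K + 1) → ℂ) (L : ℕ) :
    ∑ c ∈ range L, ‖tail K u (numb K *ᵥ f) c‖ ^ 2 ≤
      cD3 s * wt (2 - 6 * s) K * (M * nrm (4 * s + 1) K f) := by
  have hM := hu.nonneg
  have h12 : 0 < 1 - 2 * s := by linarith
  have h13 : 0 < 1 - (4 * s - 1) := by linarith
  have hD3 : 0 ≤ cD3 s := by
    unfold cD3
    positivity
  have h1 := tail_est (y := 4 * s - 1) (by linarith) hu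
    (sum_wt_conv_le_two (x := 2 * s) (y := 4 * s - 1) (by linarith) (by linarith) (by linarith)
      (by linarith) K) (numb K *ᵥ f) L
  have e : 1 - 2 * s - (4 * s - 1) = 2 - 6 * s := by ring
  rw [e] at h1
  refine h1.trans ?_
  have h2 : nrm (4 * s - 1) K (numb K *ᵥ f) ≤ nrm (4 * s + 1) K f := by
    have := nrm_numb_le (4 * s - 1) K f
    have e2 : 4 * s - 1 + 2 = 4 * s + 1 := by ring
    rwa [e2] at this
  have := wt_nonneg (2 - 6 * s) K
  unfold cD3 at hD3 ⊢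
  gcongr

/-- truncated tail matrix -/
def Etr (K : ℕ) (u : ℕ → ℂ) (L : ℕ) : Matrix (Fin (K + 1)) (Fin (K + 1)) ℂ :=
  Matrix.of fun a b => ∑ c ∈ range L, star (u (K + 1 + c - a)) * u (K + 1 + c - b)

lemma Etr_form (K : ℕ) (u : ℕ → ℂ) (L : ℕ) (p q : Fin (K + 1) → ℂ) :
    star q ⬝ᵥ ((numb K * Etr K u L - Etr K u L * numb K) *ᵥ p) =
      ∑ c ∈ range L, (star (tail K u (numb K *ᵥ q) c) * tail K u p c -
        star (tail K u q c) * tail K u (numb K *ᵥ p) c) := by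
  have h1 : star q ⬝ᵥ ((numb K * Etr K u L - Etr K u L * numb K) *ᵥ p) =
      ∑ a : Fin (K + 1), ∑ b : Fin (K + 1), ∑ c ∈ range L,
        star (q a) * ((((a : ℕ) : ℂ) - ((b : ℕ) : ℂ)) *
          (star (u (K + 1 + c - a)) * u (K + 1 + c - b))) * p b := by
    unfold dotProduct
    apply sum_congr rfl
    intro a _
    rw [mv_apply, mul_sum]
    apply sum_congr rfl
    intro b _
    have : (numb K * Etr K u L - Etr K u L * numb K) a b =
        (((a : ℕ) : ℂ) - ((b : ℕ) : ℂ)) * Etr K u L a b := by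
      unfold numb
      rw [Matrix.sub_apply, Matrix.diagonal_mul, Matrix.mul_diagonal]
      ring
    rw [this]
    have e : Etr K u L a b = ∑ c ∈ range L, star (u (K + 1 + c - a)) * u (K + 1 + c - b) := rfl
    rw [e, mul_sum, sum_mul, mul_sum, Pi.star_apply]
    apply sum_congr rfl
    intro c _
    ring
  have h2 : ∀ c, star (tail K u (numb K *ᵥ q) c) * tail K u p c -
        star (tail K u q c) * tail K u (numb K *ᵥ p) c =
      ∑ a : Fin (K + 1), ∑ b : Fin (K + 1),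
        star (q a) * ((((a : ℕ) : ℂ) - ((b : ℕ) : ℂ)) *
          (star (u (K + 1 + c - a)) * u (K + 1 + c - b))) * p b := by
    intro c
    unfold tail
    rw [star_sum, star_sum, sum_mul_sum, sum_mul_sum, ← sum_sub_distrib]
    apply sum_congr rfl
    intro a _
    rw [← sum_sub_distrib]
    apply sum_congr rfl
    intro b _
    rw [numb_mv, numb_mv]
    simp only [star_mul', Complex.star_def, Complex.conj_natCast]
    ring
  rw [h1]
  simp only [h2]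
  rw [sum_comm' (s := (univ : Finset (Fin (K+1)))) (t := fun _ => (univ : Finset (Fin (K+1))))
    (t' := univ) (s' := fun _ => univ) (by simp)]
  rw [sum_comm]
  conv_rhs => rw [sum_comm]
  apply sum_congr rfl
  intro a _
  conv_rhs => rw [sum_comm]

lemma Etr_bound {s M C₁ C₂ : ℝ} (hs : 1 / 4 < s) (hs2 : s < 1 / 2) {K : ℕ} {u : ℕ → ℂ}
    (hu : Bdd s M u) {p q : Fin (K + 1) → ℂ} (hp : nrm (4 * s + 1) K p ≤ C₁)
    (hq : nrm (4 * s + 1) K q ≤ C₂) (L : ℕ) :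
    ‖star q ⬝ᵥ ((numb K * Etr K u L - Etr K u L * numb K) *ᵥ p)‖ ≤
      2 * Real.sqrt (cD2 s * cD3 s * (M * C₁) * (M * C₂)) * wt (1 - 4 * s) K := by
  have hM := hu.nonneg
  have h12 : 0 < 1 - 2 * s := by linarith
  have h13 : 0 < 1 - (4 * s - 1) := by linarith
  have hD3 : 0 ≤ cD3 s := by
    unfold cD3
    positivity
  have hD2 : 0 ≤ cD2 s := by
    unfold cD2
    have := cS_nonneg (4 * s)
    positivity
  have hC1 : 0 ≤ C₁ := (nrm_nonneg _ _ _).trans hp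
  have hC2 : 0 ≤ C₂ := (nrm_nonneg _ _ _).trans hq
  have key : ∀ (f g : Fin (K + 1) → ℂ) (A B : ℝ), 0 ≤ A → 0 ≤ B → nrm (4 * s + 1) K f ≤ A →
      nrm (4 * s + 1) K g ≤ B →
      ∑ c ∈ range L, ‖tail K u f c‖ * ‖tail K u (numb K *ᵥ g) c‖ ≤
        Real.sqrt (cD2 s * cD3 s * (M * A) * (M * B)) * wt (1 - 4 * s) K := by
    intro f g A B hA hB hf hg
    have h1 := Finset.sum_mul_sq_le_sq_mul_sq (range L) (fun c => ‖tail K u f c‖)
      (fun c => ‖tail K u (numb K *ᵥ g) c‖)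
    have h2 := tail_low hs hs2 hu f L
    have h3 := tail_high hs hs2 hu g L
    have n1 := wt_nonneg (-(2 * s)) K
    have n2 := wt_nonneg (2 - 6 * s) K
    have h4 : cD2 s * wt (-(2 * s)) K * (M * nrm (4 * s + 1) K f) ≤
        cD2 s * wt (-(2 * s)) K * (M * A) := by gcongr
    have h5 : cD3 s * wt (2 - 6 * s) K * (M * nrm (4 * s + 1) K g) ≤
        cD3 s * wt (2 - 6 * s) K * (M * B) := by gcongr
    have h6 : (∑ c ∈ range L, ‖tail K u f c‖ ^ 2) *
        (∑ c ∈ range L, ‖tail K u (numb K *ᵥ g) c‖ ^ 2) ≤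
        (cD2 s * wt (-(2 * s)) K * (M * A)) * (cD3 s * wt (2 - 6 * s) K * (M * B)) := by
      apply mul_le_mul (h2.trans h4) (h3.trans h5)
      · exact sum_nonneg fun _ _ => sq_nonneg _
      · positivity
    have h7 : (cD2 s * wt (-(2 * s)) K * (M * A)) * (cD3 s * wt (2 - 6 * s) K * (M * B)) =
        (Real.sqrt (cD2 s * cD3 s * (M * A) * (M * B)) * wt (1 - 4 * s) K) ^ 2 := by
      rw [mul_pow, Real.sq_sqrt (by positivity), sq (wt (1 - 4 * s) K), wt_mul]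
      have e : 1 - 4 * s + (1 - 4 * s) = -(2 * s) + (2 - 6 * s) := by ring
      rw [e, ← wt_mul]
      ring
    rw [h7] at h6
    have h8 := h1.trans h6
    have n3 := wt_nonneg (1 - 4 * s) K
    exact abs_le_of_sq_le_sq' h8 (by positivity) |>.2
  rw [Etr_form]
  have k1 := key p q C₁ C₂ hC1 hC2 hp hq
  have k2 := key q p C₂ C₁ hC2 hC1 hq hp
  have e : cD2 s * cD3 s * (M * C₂) * (M * C₁) = cD2 s * cD3 s * (M * C₁) * (M * C₂) := by ring
  rw [e] at k2
  calc ‖∑ c ∈ range L, (star (tail K u (numb K *ᵥ q) c) * tail K u p c -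
        star (tail K u q c) * tail K u (numb K *ᵥ p) c)‖
      ≤ ∑ c ∈ range L, (‖tail K u p c‖ * ‖tail K u (numb K *ᵥ q) c‖ +
        ‖tail K u q c‖ * ‖tail K u (numb K *ᵥ p) c‖) := by
        refine (norm_sum_le _ _).trans ?_
        apply sum_le_sum
        intro c _
        refine (norm_sub_le _ _).trans ?_
        rw [norm_mul, norm_mul, norm_star, norm_star]
        linarith [mul_comm ‖tail K u (numb K *ᵥ q) c‖ ‖tail K u p c‖]
    _ ≤ _ := by
        rw [sum_add_distrib]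
        linarith

end H6CCM
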