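import Mathlib

/-!
Weighted sums used for the finite sections of the Lax operator of CCM.
-/

open Finset

noncomputable section

namespace H6CCM

/-- the weight `(1+k)^x` -/
def wt (x : ℝ) (k : ℕ) : ℝ := ((1 : ℝ) + k) ^ x

lemma one_le_base (k : ℕ) : (1 : ℝ) ≤ (1 : ℝ) + k := by
  have : (0 : ℝ) ≤ k := Nat.cast_nonneg k
  linarith

lemma base_pos (k : ℕ) : (0 : ℝ) < (1 : ℝ) + k := by
  have := one_le_base k
  linarith

lemma wt_pos (x : ℝ) (k : ℕ) : 0 < wt x k := Real.rpow_pos_of_pos (base_pos k) x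

lemma wt_nonneg (x : ℝ) (k : ℕ) : 0 ≤ wt x k := (wt_pos x k).le

lemma wt_mul (x y : ℝ) (k : ℕ) : wt x k * wt y k = wt (x + y) k := by
  unfold wt
  rw [Real.rpow_add (base_pos k)]

lemma wt_zero (k : ℕ) : wt 0 k = 1 := by
  unfold wt
  simp

lemma wt_two (k : ℕ) : wt 2 k = (1 + (k : ℝ)) ^ 2 := by
  unfold wt
  exact_mod_cast Real.rpow_natCast (1 + (k : ℝ)) 2

lemma wt_le_wt_right {x : ℝ} (hx : 0 ≤ x) {a b : ℕ} (h : a ≤ b) : wt x a ≤ wt x b := by
  unfold wt
  apply Real.rpow_le_rpow (base_pos a).le _ hx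
  have : (a : ℝ) ≤ b := by exact_mod_cast h
  linarith

lemma wt_neg_anti {x : ℝ} (hx : 0 ≤ x) {a b : ℕ} (h : a ≤ b) : wt (-x) b ≤ wt (-x) a := by
  unfold wt
  apply Real.rpow_le_rpow_of_nonpos (base_pos a) _ (by linarith)
  have : (a : ℝ) ≤ b := by exact_mod_cast h
  linarith

lemma wt_le_wt_left {x y : ℝ} (h : x ≤ y) (k : ℕ) : wt x k ≤ wt y k := by
  unfold wt
  exact Real.rpow_le_rpow_of_exponent_le (one_le_base k) h

lemma one_le_wt {x : ℝ} (hx : 0 ≤ x) (k : ℕ) : 1 ≤ wt x k := by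
  have := wt_le_wt_left hx k
  rwa [wt_zero] at this

lemma wt_le_one {x : ℝ} (hx : x ≤ 0) (k : ℕ) : wt x k ≤ 1 := by
  have := wt_le_wt_left hx k
  rwa [wt_zero] at this

/-- `∑_{a ≤ K} (1+a)^{-x} ≤ (1+K)^{1-x}/(1-x)` for `0 ≤ x < 1`. -/
lemma sum_wt_neg_le {x : ℝ} (hx0 : 0 ≤ x) (hx1 : x < 1) (K : ℕ) :
    ∑ a ∈ range (K + 1), wt (-x) a ≤ wt (1 - x) K / (1 - x) := by
  have h1x : 0 < 1 - x := by linarith
  induction K with
  | zero =>
    simp only [zero_add, range_one, sum_singleton]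
    unfold wt
    simp only [Nat.cast_zero, add_zero, Real.one_rpow]
    rw [le_div_iff₀ h1x]
    linarith
  | succ K ih =>
    rw [sum_range_succ]
    have key : (1 - x) * wt (-x) (K + 1) ≤ wt (1 - x) (K + 1) - wt (1 - x) K := by
      have hB : (0 : ℝ) < 1 + ((K + 1 : ℕ) : ℝ) := base_pos (K + 1)
      have hB1 : (1 : ℝ) ≤ 1 + ((K + 1 : ℕ) : ℝ) := one_le_base (K + 1)
      set B : ℝ := 1 + ((K + 1 : ℕ) : ℝ) with hBdef
      have hbern := _root_.rpow_one_add_le_one_add_mul_self (s := -(1 / B)) (p := 1 - x)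
        (by
          have : 1 / B ≤ 1 := by
            rw [div_le_one hB]; exact hB1
          linarith) (by linarith) (by linarith)
      have hK : wt (1 - x) K = B ^ (1 - x) * (1 + -(1 / B)) ^ (1 - x) := by
        rw [← Real.mul_rpow hB.le]
        · unfold wt
          congr 1
          have : B * (1 + -(1 / B)) = B - 1 := by
            field_simp
            ring
          rw [this, hBdef]
          push_cast
          ring
        · have : 1 / B ≤ 1 := by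
            rw [div_le_one hB]; exact hB1
          linarith
      have hK1 : wt (1 - x) (K + 1) = B ^ (1 - x) := rfl
      have hKm : wt (-x) (K + 1) = B ^ (1 - x) * (1 / B) := by
        unfold wt
        rw [← hBdef]
        have : -x = (1 - x) - 1 := by ring
        rw [this, Real.rpow_sub_one hB.ne']
        ring
      rw [hK, hK1, hKm]
      have hpos : 0 < B ^ (1 - x) := Real.rpow_pos_of_pos hB _
      nlinarith [mul_le_mul_of_nonneg_left hbern hpos.le]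
    have h2 : wt (-x) (K + 1) ≤ (wt (1 - x) (K + 1) - wt (1 - x) K) / (1 - x) := by
      rw [le_div_iff₀ h1x]
      linarith
    calc _ ≤ wt (1 - x) K / (1 - x) + (wt (1 - x) (K + 1) - wt (1 - x) K) / (1 - x) :=
          add_le_add ih h2
      _ = wt (1 - x) (K + 1) / (1 - x) := by ring

lemma summable_wt_neg {y : ℝ} (hy : 1 < y) : Summable (wt (-y)) := by
  have h := (Real.summable_one_div_nat_add_rpow 1 y).mpr hy
  refine h.congr fun k => ?_
  unfold wt
  have hb := base_pos k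
  rw [add_comm (k : ℝ) 1, abs_of_pos hb, Real.rpow_neg hb.le]
  simp

/-- constant for the convergent sum -/
def cS (y : ℝ) : ℝ := ∑' a, wt (-y) a

lemma cS_nonneg (y : ℝ) : 0 ≤ cS y := tsum_nonneg fun a => wt_nonneg _ a

lemma sum_wt_neg_le_cS {y : ℝ} (hy : 1 < y) (s : Finset ℕ) :
    ∑ a ∈ s, wt (-y) a ≤ cS y :=
  (summable_wt_neg hy).sum_le_tsum s fun a _ => wt_nonneg _ a

lemma wt_neg_half {x : ℝ} (hx : 0 ≤ x) {b K : ℕ} (h : 1 + (K : ℝ) ≤ 2 * (1 + (b : ℝ))) :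
    wt (-x) b ≤ 2 ^ x * wt (-x) K := by
  unfold wt
  have h1 : (1 + (K : ℝ)) / 2 ≤ 1 + (b : ℝ) := by linarith
  have hK : 0 < (1 + (K : ℝ)) := base_pos K
  calc (1 + (b : ℝ)) ^ (-x) ≤ ((1 + (K : ℝ)) / 2) ^ (-x) :=
        Real.rpow_le_rpow_of_nonpos (by positivity) h1 (by linarith)
    _ = (1 + (K : ℝ)) ^ (-x) / 2 ^ (-x) := Real.div_rpow hK.le (by norm_num) _
    _ = 2 ^ x * (1 + (K : ℝ)) ^ (-x) := by
        rw [Real.rpow_neg (by norm_num : (0 : ℝ) ≤ 2)]
        field_simp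

/-- the convolution of two power weights, pointwise split -/
lemma wt_conv_pointwise {x y : ℝ} (hx : 0 ≤ x) (hy : 0 ≤ y) {a K : ℕ} (ha : a ≤ K) :
    wt (-x) (K - a) * wt (-y) a ≤
      2 ^ x * wt (-x) K * wt (-y) a + 2 ^ y * wt (-y) K * wt (-x) (K - a) := by
  have h2x : (0 : ℝ) < 2 ^ x := Real.rpow_pos_of_pos (by norm_num) _
  have h2y : (0 : ℝ) < 2 ^ y := Real.rpow_pos_of_pos (by norm_num) _
  have hKa : ((K - a : ℕ) : ℝ) = (K : ℝ) - a := by
    push_cast [Nat.cast_sub ha]; ring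
  have n1 := wt_nonneg (-x) K
  have n2 := wt_nonneg (-y) K
  have n3 := wt_nonneg (-x) (K - a)
  have n4 := wt_nonneg (-y) a
  by_cases h : 1 + (K : ℝ) ≤ 2 * (1 + (a : ℝ))
  · have := wt_neg_half hy h
    have h3 := mul_le_mul_of_nonneg_left this n3
    have h4 : 0 ≤ 2 ^ x * wt (-x) K * wt (-y) a := by positivity
    nlinarith
  · have h' : 1 + (K : ℝ) ≤ 2 * (1 + ((K - a : ℕ) : ℝ)) := by
      rw [hKa]
      push Not at h
      have : (0:ℝ) ≤ K := Nat.cast_nonneg K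
      linarith
    have := wt_neg_half hx h'
    have h3 := mul_le_mul_of_nonneg_right this n4
    have h4 : 0 ≤ 2 ^ y * wt (-y) K * wt (-x) (K - a) := by positivity
    nlinarith

lemma sum_wt_conv_le {x y : ℝ} (hx : 0 ≤ x) (hy : 0 ≤ y) (K : ℕ) :
    ∑ a ∈ range (K + 1), wt (-x) (K - a) * wt (-y) a ≤
      2 ^ x * wt (-x) K * (∑ a ∈ range (K + 1), wt (-y) a) +
        2 ^ y * wt (-y) K * (∑ a ∈ range (K + 1), wt (-x) a) := by
  have hrefl : ∑ a ∈ range (K + 1), wt (-x) (K - a) = ∑ a ∈ range (K + 1), wt (-x) a := by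
    have := Finset.sum_range_reflect (fun a => wt (-x) a) (K + 1)
    simpa using this
  calc _ ≤ ∑ a ∈ range (K + 1), (2 ^ x * wt (-x) K * wt (-y) a +
            2 ^ y * wt (-y) K * wt (-x) (K - a)) := by
        apply sum_le_sum
        intro a ha
        exact wt_conv_pointwise hx hy (Nat.lt_succ_iff.mp (mem_range.mp ha))
    _ = _ := by
        rw [sum_add_distrib, ← mul_sum, ← mul_sum, hrefl]

/-- case `x < 1 < y` -/
lemma sum_wt_conv_le_one {x y : ℝ} (hx : 0 ≤ x) (hx1 : x < 1) (hy : 1 < y) (K : ℕ) :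
    ∑ a ∈ range (K + 1), wt (-x) (K - a) * wt (-y) a ≤
      (2 ^ x * cS y + 2 ^ y / (1 - x)) * wt (-x) K := by
  have h2x : (0 : ℝ) < 2 ^ x := Real.rpow_pos_of_pos (by norm_num) _
  have h2y : (0 : ℝ) < 2 ^ y := Real.rpow_pos_of_pos (by norm_num) _
  have h1x : 0 < 1 - x := by linarith
  have n1 := wt_nonneg (-x) K
  have n2 := wt_nonneg (-y) K
  refine (sum_wt_conv_le hx (by linarith) K).trans ?_
  have e1 : 2 ^ x * wt (-x) K * (∑ a ∈ range (K + 1), wt (-y) a) ≤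
      2 ^ x * wt (-x) K * cS y :=
    mul_le_mul_of_nonneg_left (sum_wt_neg_le_cS hy _) (by positivity)
  have e2 : 2 ^ y * wt (-y) K * (∑ a ∈ range (K + 1), wt (-x) a) ≤
      2 ^ y * wt (-y) K * (wt (1 - x) K / (1 - x)) :=
    mul_le_mul_of_nonneg_left (sum_wt_neg_le hx hx1 K) (by positivity)
  have e3 : wt (-y) K * wt (1 - x) K ≤ wt (-x) K := by
    rw [wt_mul]
    apply wt_le_wt_left
    linarith
  have e4 : 2 ^ y * wt (-y) K * (wt (1 - x) K / (1 - x)) ≤ 2 ^ y / (1 - x) * wt (-x) K := by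
    calc _ = 2 ^ y / (1 - x) * (wt (-y) K * wt (1 - x) K) := by ring
      _ ≤ _ := mul_le_mul_of_nonneg_left e3 (by positivity)
  calc _ ≤ 2 ^ x * wt (-x) K * cS y + 2 ^ y / (1 - x) * wt (-x) K := by linarith
    _ = _ := by ring

/-- case `x < 1`, `y < 1` -/
lemma sum_wt_conv_le_two {x y : ℝ} (hx : 0 ≤ x) (hx1 : x < 1) (hy : 0 ≤ y) (hy1 : y < 1) (K : ℕ) :
    ∑ a ∈ range (K + 1), wt (-x) (K - a) * wt (-y) a ≤
      (2 ^ x / (1 - y) + 2 ^ y / (1 - x)) * wt (1 - x - y) K := by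
  have h2x : (0 : ℝ) < 2 ^ x := Real.rpow_pos_of_pos (by norm_num) _
  have h2y : (0 : ℝ) < 2 ^ y := Real.rpow_pos_of_pos (by norm_num) _
  have h1x : 0 < 1 - x := by linarith
  have h1y : 0 < 1 - y := by linarith
  have n1 := wt_nonneg (-x) K
  have n2 := wt_nonneg (-y) K
  refine (sum_wt_conv_le hx hy K).trans ?_
  have e1 : 2 ^ x * wt (-x) K * (∑ a ∈ range (K + 1), wt (-y) a) ≤
      2 ^ x * wt (-x) K * (wt (1 - y) K / (1 - y)) :=
    mul_le_mul_of_nonneg_left (sum_wt_neg_le hy hy1 K) (by positivity)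
  have e2 : 2 ^ y * wt (-y) K * (∑ a ∈ range (K + 1), wt (-x) a) ≤
      2 ^ y * wt (-y) K * (wt (1 - x) K / (1 - x)) :=
    mul_le_mul_of_nonneg_left (sum_wt_neg_le hx hx1 K) (by positivity)
  have e3 : wt (-y) K * wt (1 - x) K = wt (1 - x - y) K := by
    rw [wt_mul]; congr 1; ring
  have e5 : wt (-x) K * wt (1 - y) K = wt (1 - x - y) K := by
    rw [wt_mul]; congr 1; ring
  calc _ ≤ 2 ^ x * wt (-x) K * (wt (1 - y) K / (1 - y)) +
        2 ^ y * wt (-y) K * (wt (1 - x) K / (1 - x)) := by linarith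
    _ = 2 ^ x / (1 - y) * (wt (-x) K * wt (1 - y) K) +
        2 ^ y / (1 - x) * (wt (-y) K * wt (1 - x) K) := by ring
    _ = _ := by rw [e3, e5]; ring

/-! ### sums with indicators -/

lemma sum_fin_ind (K : ℕ) {j : ℕ} (hj : j ≤ K) (f : ℕ → ℝ) :
    ∑ a : Fin (K + 1), (if (a : ℕ) ≤ j then f a else 0) = ∑ a ∈ range (j + 1), f a := by
  rw [Fin.sum_univ_eq_sum_range (fun a => if a ≤ j then f a else 0) (K + 1), ← sum_filter]
  apply sum_congr _ fun _ _ => rfl
  ext a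
  simp only [mem_filter, mem_range]
  omega

lemma sum_fin_shift_le (K : ℕ) (a : ℕ) (f : ℕ → ℝ) (hf : ∀ k, 0 ≤ f k) :
    ∑ j : Fin (K + 1), (if a ≤ (j : ℕ) then f (j - a) else 0) ≤ ∑ m ∈ range (K + 1), f m := by
  rw [Fin.sum_univ_eq_sum_range (fun j => if a ≤ j then f (j - a) else 0) (K + 1), ← sum_filter]
  have hinj : Set.InjOn (fun j => j - a) ((range (K + 1)).filter (fun j => a ≤ j) : Set ℕ) := by
    intro x hx y hy hxy
    simp only [coe_filter, mem_range, Set.mem_ofPred_eq] at hx hy hxy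
    omega
  rw [← sum_image (f := f) (g := fun j => j - a) hinj]
  apply sum_le_sum_of_subset_of_nonneg
  · intro m hm
    simp only [mem_image, mem_filter, mem_range] at hm ⊢
    omega
  · intro i _ _
    exact hf i

/-- weighted Cauchy–Schwarz -/
lemma cs_weighted {ι : Type*} (s : Finset ι) (α U P : ι → ℝ) (hα : ∀ i ∈ s, 0 < α i) :
    (∑ i ∈ s, U i * P i) ^ 2 ≤ (∑ i ∈ s, (α i)⁻¹) * (∑ i ∈ s, α i * (U i ^ 2 * P i ^ 2)) := by
  apply Finset.sum_sq_le_sum_mul_sum_of_sq_le_mul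
  · intro i hi; exact (inv_pos.mpr (hα i hi)).le
  · intro i hi
    have := hα i hi
    positivity
  · intro i hi
    have := (hα i hi).ne'
    apply le_of_eq
    field_simp

end H6CCM
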