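import Pool.Agent.Lib.MP_679ac2_an.H6Der

/-!
The logarithmic derivative coefficients `θ`, the evolution equation of the resolvent
coefficients, and the lower bound of the coupling factor.
-/

open Finset Matrix

noncomputable section

namespace H6CCM

/-- coefficients of `(N u) / u` -/
def theta (u : ℕ → ℂ) (k : ℕ) : ℂ :=
  ((k : ℂ) * u k - ∑ j : Fin k, theta u j * u (k - j)) / u 0
termination_by k
decreasing_by exact j.2

lemma theta_eq (u : ℕ → ℂ) (k : ℕ) :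
    theta u k = ((k : ℂ) * u k - ∑ j ∈ range k, theta u j * u (k - j)) / u 0 := by
  rw [theta, Fin.sum_univ_eq_sum_range (fun j => theta u j * u (k - j)) k]

lemma theta_zero (u : ℕ → ℂ) : theta u 0 = 0 := by
  rw [theta_eq]; simp

lemma theta_spec {u : ℕ → ℂ} (h0 : u 0 ≠ 0) (k : ℕ) :
    ∑ j ∈ range (k + 1), theta u j * u (k - j) = (k : ℂ) * u k := by
  rw [sum_range_succ, Nat.sub_self, theta_eq u k, div_mul_cancel₀ _ h0]
  ring

/-- `θ` and `u₀` determine `u` -/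
lemma theta_inj {u v : ℕ → ℂ} (h0 : u 0 ≠ 0) (h : u 0 = v 0) {n : ℕ}
    (hθ : ∀ k ≤ n, theta u k = theta v k) : ∀ k ≤ n, u k = v k := by
  intro k
  induction k using Nat.strong_induction_on with
  | _ k ih =>
    intro hk
    rcases Nat.eq_zero_or_pos k with h1 | h1
    · rw [h1]; exact h
    · have e1 := theta_spec h0 k
      have e2 := theta_spec (h ▸ h0) k
      have e3 : ∑ j ∈ range (k + 1), theta u j * u (k - j) =
          ∑ j ∈ range (k + 1), theta v j * v (k - j) := by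
        apply sum_congr rfl
        intro j hj
        have hj' : j ≤ k := Nat.lt_succ_iff.mp (mem_range.mp hj)
        rcases Nat.eq_zero_or_pos j with h2 | h2
        · rw [h2, theta_zero, theta_zero]; ring
        · rw [hθ j (hj'.trans hk), ih (k - j) (by omega) (by omega)]
      rw [e1, e2] at e3
      have : (k : ℂ) ≠ 0 := by exact_mod_cast h1.ne'
      exact mul_left_cancel₀ this e3

lemma theta_continuousOn {u : ℝ → ℕ → ℂ} {S : Set ℝ} (hu : ∀ k, ContinuousOn (fun t => u t k) S)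
    (h0 : ∀ t ∈ S, u t 0 ≠ 0) (k : ℕ) : ContinuousOn (fun t => theta (u t) k) S := by
  induction k using Nat.strong_induction_on with
  | _ k ih =>
    have e : (fun t => theta (u t) k) = fun t =>
        ((k : ℂ) * u t k - ∑ j ∈ range k, theta (u t) j * u t (k - j)) / u t 0 := by
      funext t
      exact theta_eq _ _
    rw [e]
    apply ContinuousOn.div _ (hu 0) h0
    apply ContinuousOn.sub
    · exact continuousOn_const.mul (hu k)
    · apply continuousOn_finsetSum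
      intro j hj
      exact (ih j (mem_range.mp hj)).mul (hu _)

/-- extension by zero of the resolvent vector -/
def W (β : ℝ) (K : ℕ) (u : ℕ → ℂ) (lam : ℂ) (l : ℕ) : ℂ :=
  if h : l < K + 1 then res β K u lam 0 ⟨l, h⟩ else 0

lemma W_eq {β : ℝ} {K : ℕ} {u : ℕ → ℂ} {lam : ℂ} (l : Fin (K + 1)) :
    W β K u lam l = res β K u lam 0 l := by
  unfold W
  rw [dif_pos l.2]

/-- the evolution field of the resolvent coefficients -/
def fieldW (u : ℕ → ℂ) (lam : ℂ) (w : ℕ → ℂ) (k : ℕ) : ℂ :=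
  Complex.I * (-((k : ℂ) ^ 2 + 2 * k * lam) * w k - 2 * theta u k +
    2 * ∑ l ∈ range k, theta u (k - l) * ((l : ℂ) + lam) * w l)

lemma sum_fin_ind_C (K : ℕ) {j : ℕ} (hj : j ≤ K) (f : ℕ → ℂ) :
    ∑ a : Fin (K + 1), (if (a : ℕ) ≤ j then f a else 0) = ∑ a ∈ range (j + 1), f a := by
  rw [Fin.sum_univ_eq_sum_range (fun a => if a ≤ j then f a else 0) (K + 1), ← sum_filter]
  apply sum_congr _ fun _ _ => rfl
  ext a
  simp only [mem_filter, mem_range]
  omega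

lemma toep_mv {K : ℕ} (f : ℕ → ℂ) (g : ℕ → ℂ) (x : Fin (K + 1) → ℂ)
    (hx : ∀ j : Fin (K + 1), x j = g j) (k : Fin (K + 1)) :
    (toep K f *ᵥ x) k = ∑ l ∈ range ((k : ℕ) + 1), f (k - l) * g l := by
  rw [mv_apply, ← sum_fin_ind_C K (Nat.lt_succ_iff.mp k.2) (fun l => f (k - l) * g l)]
  apply sum_congr rfl
  intro a _
  rw [toep_apply, hx]
  split_ifs <;> simp

lemma theta_toep {K : ℕ} {u : ℕ → ℂ} (h0 : u 0 ≠ 0) :
    toep K (theta u) * toep K u = numb K * toep K u - toep K u * numb K := by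
  rw [toep_mul, numb_comm_toep]
  congr 1
  funext k
  rw [← theta_spec h0 k, ← Finset.sum_flip]
  apply sum_congr rfl
  intro j hj
  have : k - (k - j) = j := Nat.sub_sub_self (Nat.lt_succ_iff.mp (mem_range.mp hj))
  rw [this]
  ring

lemma P_formula {β : ℝ} {K : ℕ} {u : ℕ → ℂ} (h0 : u 0 ≠ 0) {lam : ℂ} (him : lam.im ≠ 0)
    (k : Fin (K + 1)) :
    (Pmat β K u *ᵥ res β K u lam 0) k = fieldW u lam (W β K u lam) k := by
  set w := res β K u lam 0 with hw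
  have hws : Amat β K u lam *ᵥ w = Pi.single 0 1 := res_spec him 0
  set T := toep K u with hT
  set N := numb K with hN
  set Θ := toep K (theta u) with hΘ
  have hTN : T * N = N * T - Θ * T := by
    rw [hΘ, hT, theta_toep h0]
    abel
  set g : Fin (K + 1) → ℂ := (β : ℂ) • (T *ᵥ (Tᴴ *ᵥ w)) with hg
  -- `g = e₀ - (N+λ) w`
  have hgj : ∀ j : Fin (K + 1), g j = (if (j : ℕ) = 0 then 1 else 0) -
      (((j : ℕ) : ℂ) + lam) * W β K u lam j := by
    intro j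
    have e := congrFun hws j
    rw [Amat_mv, Pi.single_apply] at e
    have e2 : (if j = 0 then (1 : ℂ) else 0) = (if (j : ℕ) = 0 then 1 else 0) := by
      by_cases h : j = 0
      · rw [if_pos h, if_pos (by rw [h]; rfl)]
      · rw [if_neg h, if_neg (fun h' : (j : ℕ) = 0 => h (Fin.ext h'))]
    rw [e2] at e
    rw [hg, Pi.smul_apply, smul_eq_mul, W_eq, ← hw]
    linear_combination e
  have h1 : (β : ℂ) • (T *ᵥ (N *ᵥ (Tᴴ *ᵥ w))) = N *ᵥ g - Θ *ᵥ g := by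
    rw [Matrix.mulVec_mulVec _ T N, hTN, Matrix.sub_mulVec, smul_sub, hg, Matrix.mulVec_smul,
      Matrix.mulVec_smul, Matrix.mulVec_mulVec _ N T, Matrix.mulVec_mulVec _ Θ T]
  have h2 : Pmat β K u *ᵥ w = Complex.I • (N *ᵥ (N *ᵥ w) + (2 : ℂ) • (N *ᵥ g - Θ *ᵥ g)) := by
    unfold Pmat
    rw [Matrix.smul_mulVec, Matrix.add_mulVec, Matrix.smul_mulVec, ← Matrix.mulVec_mulVec,
      ← Matrix.mulVec_mulVec, ← Matrix.mulVec_mulVec, ← h1, smul_smul]
  rw [h2, Pi.smul_apply, Pi.add_apply, Pi.smul_apply, Pi.sub_apply, numb_mv, numb_mv, numb_mv,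
    toep_mv (theta u) (fun j => (if j = 0 then 1 else 0) - ((j : ℂ) + lam) * W β K u lam j) g hgj k,
    hgj k, sum_range_succ, Nat.sub_self, theta_zero, zero_mul, add_zero]
  have h3 : ∑ l ∈ range (k : ℕ), theta u (k - l) *
      ((if l = 0 then 1 else 0) - ((l : ℂ) + lam) * W β K u lam l) =
      theta u k - ∑ l ∈ range (k : ℕ), theta u (k - l) * ((l : ℂ) + lam) * W β K u lam l := by
    have h4 : ∀ l ∈ range (k : ℕ), theta u (k - l) *
      ((if l = 0 then 1 else 0) - ((l : ℂ) + lam) * W β K u lam l) =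
        (if l = 0 then theta u k else 0) - theta u (k - l) * ((l : ℂ) + lam) * W β K u lam l := by
      intro l _
      split_ifs with h
      · rw [h, Nat.sub_zero]; ring
      · ring
    rw [sum_congr rfl h4, sum_sub_distrib, sum_ite_eq']
    rcases Nat.eq_zero_or_pos (k : ℕ) with h5 | h5
    · rw [h5]; simp [theta_zero]
    · rw [if_pos (mem_range.mpr h5)]
  rw [h3]
  unfold fieldW
  have h6 : ((k : ℕ) : ℂ) * (if (k : ℕ) = 0 then (1 : ℂ) else 0) = 0 := by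
    split_ifs with h
    · rw [h]; simp
    · simp
  rw [smul_eq_mul, smul_eq_mul, mul_sub (((k : ℕ) : ℂ)), h6, W_eq, ← hw]
  ring

/-! ### the coupling factor -/

lemma coupling_eq {β : ℝ} {K : ℕ} {u : ℕ → ℂ} {lam : ℂ} (him : lam.im ≠ 0) :
    1 - lam * res β K u lam 0 0 = β * (u 0 * ((toep K u)ᴴ *ᵥ res β K u lam 0) 0) := by
  have e := congrFun (res_spec (β := β) (K := K) (u := u) him 0) 0
  rw [Amat_mv, Pi.single_apply, if_pos rfl] at e
  have e2 : (toep K u *ᵥ ((toep K u)ᴴ *ᵥ res β K u lam 0)) 0 =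
      u 0 * ((toep K u)ᴴ *ᵥ res β K u lam 0) 0 := by
    rw [mv_apply]
    rw [Finset.sum_eq_single (0 : Fin (K + 1))]
    · rw [toep_apply]; simp
    · intro b _ hb
      rw [toep_apply, if_neg, zero_mul]
      intro h
      apply hb
      apply Fin.ext
      simpa using h
    · intro h; exact absurd (mem_univ _) h
  rw [e2] at e
  simp only [Fin.val_zero, Nat.cast_zero, zero_mul, zero_add] at e
  linear_combination -e

lemma coupling_lower {β s M ν δ : ℝ} (hβ : 0 < β) (hs : 0 ≤ s) {K : ℕ} {u : ℕ → ℂ}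
    (hu : Bdd s M u) (hν : 0 < ν) (hδ0 : 0 ≤ δ) (hδ1 : δ ≤ 1 / 4)
    (hδ2 : 16 * M * δ ≤ ‖u 0‖ ^ 2) (hνδ : β * M ≤ ν * δ ^ 2) :
    β * ‖u 0‖ ^ 2 / (2 * ν) ≤ ‖1 - (Complex.I * ν) * res β K u (Complex.I * ν) 0 0‖ := by
  have hM := hu.nonneg
  set lam : ℂ := Complex.I * ν with hlam
  have hlim : lam.im = ν := by simp [hlam]
  have hlre : lam.re = 0 := by simp [hlam]
  have him : lam.im ≠ 0 := by rw [hlim]; exact hν.ne'
  set w := res β K u lam 0 with hw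
  have hws : Amat β K u lam *ᵥ w = Pi.single 0 1 := res_spec him 0
  set p := (toep K u)ᴴ *ᵥ w with hp
  have habs : |lam.im| = ν := by rw [hlim, abs_of_pos hν]
  set ε := 1 - lam * w 0 with hε
  have hεp : ε = β * (u 0 * p 0) := coupling_eq him
  have hu0 : ‖u 0‖ ^ 2 ≤ M := by
    have := hu 1
    simpa [wt] using this
  -- size of p
  have hp0 : ‖p 0‖ ^ 2 * (β * ν) ≤ 1 := by
    have h1 := p_norm_le hlre hν habs hws
    rw [← hp] at h1
    have h2 := le_nrm (le_refl (0 : ℝ)) K p 0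
    have h3 : β * ‖p 0‖ ^ 2 ≤ 1 / ν := (mul_le_mul_of_nonneg_left h2 hβ.le).trans h1
    rw [le_div_iff₀ hν] at h3
    linarith
  have hεn : ‖ε‖ = β * (‖u 0‖ * ‖p 0‖) := by
    rw [hεp, norm_mul, norm_mul, Complex.norm_real, Real.norm_eq_abs, abs_of_pos hβ]
  have hεδ : ‖ε‖ ≤ δ := by
    have h1 : ‖ε‖ ^ 2 * ν ≤ β * M := by
      rw [hεn]
      calc (β * (‖u 0‖ * ‖p 0‖)) ^ 2 * ν = β * ‖u 0‖ ^ 2 * (‖p 0‖ ^ 2 * (β * ν)) := by ring
        _ ≤ β * ‖u 0‖ ^ 2 * 1 := by gcongr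
        _ ≤ β * M := by rw [mul_one]; gcongr
    have h2 : ‖ε‖ ^ 2 * ν ≤ δ ^ 2 * ν := by linarith
    have h3 : ‖ε‖ ^ 2 ≤ δ ^ 2 := le_of_mul_le_mul_right h2 hν
    exact (sq_le_sq₀ (norm_nonneg _) hδ0).mp h3
  -- the part of `w` off the zero mode
  have hw0 : lam * w 0 = 1 - ε := by rw [hε]; ring
  have hw0im : ν * (w 0).im = -(1 - ε).re := by
    have := congrArg Complex.re hw0
    rw [Complex.mul_re, hlre, hlim] at this
    linarith
  have hw0n : ν * ‖w 0‖ = ‖1 - ε‖ := by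
    rw [← hw0, norm_mul]
    congr 1
    rw [hlam, norm_mul, Complex.norm_I, one_mul, Complex.norm_real, Real.norm_eq_abs,
      abs_of_pos hν]
  have hen := energy_im hws
  rw [hlim] at hen
  have hperp : ν ^ 2 * (nrm 0 K w - ‖w 0‖ ^ 2) ≤ ‖ε‖ := by
    have h1 : ν ^ 2 * nrm 0 K w = (1 - ε).re := by
      calc ν ^ 2 * nrm 0 K w = ν * (ν * nrm 0 K w) := by ring
        _ = -(ν * (w 0).im) := by rw [hen]; ring
        _ = (1 - ε).re := by rw [hw0im]; ring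
    have h2 : ν ^ 2 * ‖w 0‖ ^ 2 = ‖1 - ε‖ ^ 2 := by
      rw [← hw0n]; ring
    have h3 : ‖1 - ε‖ ^ 2 = (1 - ε.re) ^ 2 + ε.im ^ 2 := by
      rw [← Complex.normSq_eq_norm_sq, Complex.normSq_apply]
      simp only [Complex.sub_re, Complex.one_re, Complex.sub_im, Complex.one_im]
      ring
    have h4 : (1 - ε).re = 1 - ε.re := by simp
    have h5 : ε.re ≤ ‖ε‖ := Complex.re_le_norm _
    rw [mul_sub, h1, h2, h3, h4]
    nlinarith [sq_nonneg ε.re, sq_nonneg ε.im]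
  -- splitting p₀
  have hp0s : p 0 = star (u 0) * w 0 + ∑ j ∈ univ.erase (0 : Fin (K + 1)), star (u j) * w j := by
    rw [hp, mv_apply, ← Finset.add_sum_erase _ _ (mem_univ (0 : Fin (K + 1)))]
    congr 1
  have hrest : ‖∑ j ∈ univ.erase (0 : Fin (K + 1)), star (u j) * w j‖ ^ 2 ≤
      M * (nrm 0 K w - ‖w 0‖ ^ 2) := by
    have h1 : ‖∑ j ∈ univ.erase (0 : Fin (K + 1)), star (u j) * w j‖ ≤
        ∑ j ∈ univ.erase (0 : Fin (K + 1)), ‖u j‖ * ‖w j‖ := by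
      refine (norm_sum_le _ _).trans (le_of_eq ?_)
      apply sum_congr rfl
      intro j _
      rw [norm_mul, norm_star]
    have h2 := Finset.sum_mul_sq_le_sq_mul_sq (univ.erase (0 : Fin (K + 1)))
      (fun j => ‖u j‖) (fun j => ‖w j‖)
    have h3 : ∑ j ∈ univ.erase (0 : Fin (K + 1)), ‖w j‖ ^ 2 = nrm 0 K w - ‖w 0‖ ^ 2 := by
      rw [nrm_zero_eq, ← Finset.add_sum_erase _ _ (mem_univ (0 : Fin (K + 1)))]
      ring
    have h4 : ∑ j ∈ univ.erase (0 : Fin (K + 1)), ‖u j‖ ^ 2 ≤ M := by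
      calc ∑ j ∈ univ.erase (0 : Fin (K + 1)), ‖u j‖ ^ 2 ≤ ∑ j : Fin (K + 1), ‖u j‖ ^ 2 :=
            sum_le_sum_of_subset_of_nonneg (erase_subset _ _) fun _ _ _ => sq_nonneg _
        _ = ∑ j ∈ range (K + 1), ‖u j‖ ^ 2 :=
            Fin.sum_univ_eq_sum_range (fun j => ‖u j‖ ^ 2) (K + 1)
        _ ≤ ∑ j ∈ range (K + 1), wt (2 * s) j * ‖u j‖ ^ 2 := by
            apply sum_le_sum
            intro j _
            exact le_mul_of_one_le_left (sq_nonneg _) (one_le_wt (by linarith) _)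
        _ ≤ M := hu _
    have h5 : 0 ≤ nrm 0 K w - ‖w 0‖ ^ 2 := by
      rw [← h3]; exact sum_nonneg fun _ _ => sq_nonneg _
    calc _ ≤ (∑ j ∈ univ.erase (0 : Fin (K + 1)), ‖u j‖ * ‖w j‖) ^ 2 :=
          pow_le_pow_left₀ (norm_nonneg _) h1 2
      _ ≤ _ := h2
      _ ≤ M * (nrm 0 K w - ‖w 0‖ ^ 2) := by
          rw [h3]
          exact mul_le_mul_of_nonneg_right h4 h5
  set r := ∑ j ∈ univ.erase (0 : Fin (K + 1)), star (u j) * w j with hr
  have hr2 : ν * ‖r‖ ≤ ‖u 0‖ / 4 := by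
    have h1 : (ν * ‖r‖) ^ 2 ≤ (‖u 0‖ / 4) ^ 2 := by
      calc (ν * ‖r‖) ^ 2 = ν ^ 2 * ‖r‖ ^ 2 := by ring
        _ ≤ ν ^ 2 * (M * (nrm 0 K w - ‖w 0‖ ^ 2)) := by gcongr
        _ = M * (ν ^ 2 * (nrm 0 K w - ‖w 0‖ ^ 2)) := by ring
        _ ≤ M * δ := by
            apply mul_le_mul_of_nonneg_left (hperp.trans hεδ) hM
        _ ≤ (‖u 0‖ / 4) ^ 2 := by nlinarith
    exact (sq_le_sq₀ (by positivity) (by positivity)).mp h1
  have hp0low : ‖u 0‖ / 2 ≤ ν * ‖p 0‖ := by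
    have h1 : ‖star (u 0) * w 0‖ - ‖r‖ ≤ ‖p 0‖ := by
      rw [hp0s]
      have := norm_sub_le (star (u 0) * w 0 + r) r
      rw [add_sub_cancel_right] at this
      linarith
    have h2 : ‖star (u 0) * w 0‖ = ‖u 0‖ * ‖w 0‖ := by rw [norm_mul, norm_star]
    have h3 : 3 / 4 ≤ ν * ‖w 0‖ := by
      rw [hw0n]
      have := norm_sub_norm_le (1 : ℂ) ε
      rw [norm_one] at this
      linarith
    have h4 : ν * (‖u 0‖ * ‖w 0‖) - ν * ‖r‖ ≤ ν * ‖p 0‖ := by
      rw [← h2, ← mul_sub]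
      exact mul_le_mul_of_nonneg_left h1 hν.le
    have h5 : 3 / 4 * ‖u 0‖ ≤ ν * (‖u 0‖ * ‖w 0‖) := by
      calc 3 / 4 * ‖u 0‖ ≤ (ν * ‖w 0‖) * ‖u 0‖ := mul_le_mul_of_nonneg_right h3 (norm_nonneg _)
        _ = _ := by ring
    linarith
  rw [hεn, div_le_iff₀ (by positivity)]
  calc β * ‖u 0‖ ^ 2 = β * ‖u 0‖ * (2 * (‖u 0‖ / 2)) := by ring
    _ ≤ β * ‖u 0‖ * (2 * (ν * ‖p 0‖)) := by gcongr
    _ = _ := by ring

/-- uniform version of the lower bound -/
lemma coupling_lower_unif {β s M : ℝ} (hβ : 0 < β) (hs : 0 ≤ s) {a : ℂ} (ha : a ≠ 0)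
    (hM : 0 ≤ M) :
    ∃ n0 : ℕ, 1 ≤ n0 ∧ ∀ n : ℕ, n0 ≤ n → ∀ (K : ℕ) (u : ℕ → ℂ), Bdd s M u → u 0 = a →
      β * ‖a‖ ^ 2 / (2 * n) ≤
        ‖1 - (Complex.I * ((n : ℝ) : ℂ)) * res β K u (Complex.I * ((n : ℝ) : ℂ)) 0 0‖ := by
  have ha' : 0 < ‖a‖ := norm_pos_iff.mpr ha
  set δ : ℝ := min (1 / 4) (‖a‖ ^ 2 / (16 * (M + 1))) with hδ
  have hδpos : 0 < δ := by
    apply lt_min (by norm_num)
    positivity
  obtain ⟨n1, hn1⟩ := exists_nat_ge (β * M / δ ^ 2)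
  refine ⟨max 1 n1, le_max_left _ _, ?_⟩
  intro n hn K u hu hu0
  have hn' : 1 ≤ n := (le_max_left _ _).trans hn
  have hnpos : (0 : ℝ) < n := by exact_mod_cast hn'
  have hn2 : (n1 : ℝ) ≤ n := by exact_mod_cast (le_max_right _ _).trans hn
  have := coupling_lower (β := β) (s := s) (M := M) (ν := n) (δ := δ) (K := K) hβ hs hu hnpos
    hδpos.le (min_le_left _ _) ?_ ?_
  · rw [hu0] at this
    exact this
  · rw [hu0]
    have h1 : δ ≤ ‖a‖ ^ 2 / (16 * (M + 1)) := min_le_right _ _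
    rw [le_div_iff₀ (by positivity)] at h1
    nlinarith
  · have h1 : β * M / δ ^ 2 ≤ n := hn1.trans hn2
    rw [div_le_iff₀ (by positivity)] at h1
    exact h1

end H6CCM
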