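import Mathlib

/-!
One-dimensional distribution theory: a continuous function with continuous distributional
derivative is differentiable.
-/

open Set MeasureTheory Filter Topology ContDiff

noncomputable section

namespace H6CCM

lemma integrable_of_cont_supp {a b : ℝ} {h : ℝ → ℂ} {K : Set ℝ} (hK : IsCompact K)
    (hKU : K ⊆ Ioo a b) (hc : ContinuousOn h (Ioo a b)) (hz : ∀ t ∉ K, h t = 0) :
    Integrable h := by
  have h1 : IntegrableOn h K := (hc.mono hKU).integrableOn_compact hK
  exact (integrableOn_iff_integrable_of_support_subset (fun t ht => by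
    by_contra hn
    exact ht (hz t hn))).mp h1

lemma integral_deriv_mul {a b : ℝ} {φ : ℝ → ℝ} (hφ : ContDiff ℝ ∞ φ) (hcs : HasCompactSupport φ)
    (hsupp : tsupport φ ⊆ Ioo a b) {G R : ℝ → ℂ} (hG : ∀ t ∈ Ioo a b, HasDerivAt G (R t) t)
    (hR : ContinuousOn R (Ioo a b)) :
    ∫ t in Ioo a b, (((deriv φ t : ℝ) : ℂ) * G t + ((φ t : ℝ) : ℂ) * R t) = 0 := by
  have hGc : ContinuousOn G (Ioo a b) := fun t ht => (hG t ht).continuousAt.continuousWithinAt
  have hφc : Continuous φ := hφ.continuous
  have hdc : Continuous (deriv φ) := hφ.continuous_deriv (by simp)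
  have hz : ∀ t ∉ tsupport φ, φ t = 0 := fun t ht => image_eq_zero_of_notMem_tsupport ht
  have hzd : ∀ t ∉ tsupport φ, deriv φ t = 0 := by
    intro t ht
    have : t ∉ tsupport (deriv φ) := fun h => ht (tsupport_deriv_subset h)
    exact image_eq_zero_of_notMem_tsupport this
  have hder : ∀ t, HasDerivAt (fun t => ((φ t : ℝ) : ℂ) * G t)
      (((deriv φ t : ℝ) : ℂ) * G t + ((φ t : ℝ) : ℂ) * R t) t := by
    intro t
    by_cases ht : t ∈ Ioo a b
    · have h1 : HasDerivAt (fun t => ((φ t : ℝ) : ℂ)) ((deriv φ t : ℝ) : ℂ) t :=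
        ((hφ.differentiable (by simp)) t).hasDerivAt.ofReal_comp
      exact h1.mul (hG t ht)
    · have ht' : t ∉ tsupport φ := fun h => ht (hsupp h)
      rw [hz t ht', hzd t ht']
      simp only [Complex.ofReal_zero, zero_mul, add_zero]
      apply (hasDerivAt_const t (0 : ℂ)).congr_of_eventuallyEq
      have : (tsupport φ)ᶜ ∈ 𝓝 t := (isClosed_tsupport φ).isOpen_compl.mem_nhds ht'
      filter_upwards [this] with x hx
      rw [hz x hx]
      simp
  have hint1 : Integrable (fun t => ((φ t : ℝ) : ℂ) * G t) := by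
    apply integrable_of_cont_supp hcs.isCompact hsupp
    · exact (Complex.continuous_ofReal.comp hφc).continuousOn.mul hGc
    · intro t ht
      rw [hz t ht]; simp
  have hint2 : Integrable (fun t => ((deriv φ t : ℝ) : ℂ) * G t + ((φ t : ℝ) : ℂ) * R t) := by
    apply integrable_of_cont_supp hcs.isCompact hsupp
    · exact ((Complex.continuous_ofReal.comp hdc).continuousOn.mul hGc).add
        ((Complex.continuous_ofReal.comp hφc).continuousOn.mul hR)
    · intro t ht
      rw [hz t ht, hzd t ht]; simp
  rw [setIntegral_eq_integral_of_forall_compl_eq_zero]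
  · exact integral_eq_zero_of_hasDerivAt_of_integrable hder hint2 hint1
  · intro t ht
    have ht' : t ∉ tsupport φ := fun h => ht (hsupp h)
    rw [hz t ht', hzd t ht']; simp

/-- a smooth compactly supported function with zero mean is the derivative of one -/
lemma exists_primitive {a b : ℝ} {χ : ℝ → ℝ} (hχ : ContDiff ℝ ∞ χ)
    (hcs : HasCompactSupport χ) (hsupp : tsupport χ ⊆ Ioo a b) (hint : ∫ t, χ t = 0) :
    ∃ φ : ℝ → ℝ, ContDiff ℝ ∞ φ ∧ HasCompactSupport φ ∧ tsupport φ ⊆ Ioo a b ∧ deriv φ = χ := by
  rcases (tsupport χ).eq_empty_or_nonempty with hem | hne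
  · refine ⟨fun _ => 0, contDiff_const, ?_, ?_, ?_⟩
    · exact HasCompactSupport.zero
    · have : tsupport (fun _ : ℝ => (0 : ℝ)) = ∅ := by
        simp [tsupport]
      rw [this]; exact empty_subset _
    · funext t
      have : t ∉ tsupport χ := by rw [hem]; simp
      rw [image_eq_zero_of_notMem_tsupport this]
      simp
  · obtain ⟨a', ha'⟩ := hcs.isCompact.exists_isLeast hne
    obtain ⟨b', hb'⟩ := hcs.isCompact.exists_isGreatest hne
    have ha1 := hsupp ha'.1
    have hb1 := hsupp hb'.1
    have hχc : Continuous χ := hχ.continuous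
    have hz1 : ∀ t < a', χ t = 0 := by
      intro t ht
      apply image_eq_zero_of_notMem_tsupport
      intro h
      exact absurd (ha'.2 h) (not_le.mpr ht)
    have hz2 : ∀ t, b' < t → χ t = 0 := by
      intro t ht
      apply image_eq_zero_of_notMem_tsupport
      intro h
      exact absurd (hb'.2 h) (not_le.mpr ht)
    set φ : ℝ → ℝ := fun t => ∫ x in a..t, χ x with hφ
    have hder : ∀ t, HasDerivAt φ (χ t) t := by
      intro t
      exact intervalIntegral.integral_hasDerivAt_right (hχc.intervalIntegrable _ _)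
        (hχc.stronglyMeasurableAtFilter _ _) hχc.continuousAt
    have hderiv : deriv φ = χ := by
      funext t
      exact (hder t).deriv
    have hφd : ContDiff ℝ ∞ φ := by
      rw [contDiff_infty_iff_deriv]
      refine ⟨fun t => (hder t).differentiableAt, ?_⟩
      rw [hderiv]
      exact hχ
    have hsub : Function.support φ ⊆ Icc a' b' := by
      intro t ht
      by_contra hn
      apply ht
      rw [mem_Icc, not_and_or, not_le, not_le] at hn
      rcases hn with h | h
      · rw [hφ]
        simp only
        rw [← intervalIntegral.integral_zero (a := a) (b := t) (μ := volume) (E := ℝ)]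
        apply intervalIntegral.integral_congr
        intro x hx
        have hx2 : x < a' := by
          have := hx.2
          rcases le_total a t with h1 | h1
          · rw [max_eq_right h1] at this
            linarith
          · rw [max_eq_left h1] at this
            linarith [ha1.1]
        exact hz1 x hx2
      · rw [hφ]
        simp only
        have hat : a ≤ t := by linarith [hb1.1]
        rw [intervalIntegral.integral_of_le hat, setIntegral_eq_integral_of_forall_compl_eq_zero,
          hint]
        intro x hx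
        rw [mem_Ioc, not_and_or, not_lt, not_le] at hx
        rcases hx with h1 | h1
        · exact hz1 x (by linarith [ha1.1])
        · exact hz2 x (by linarith)
    have hts : tsupport φ ⊆ Icc a' b' := closure_minimal hsub isClosed_Icc
    refine ⟨φ, hφd, ?_, ?_, hderiv⟩
    · exact HasCompactSupport.of_support_subset_isCompact isCompact_Icc hsub
    · intro t ht
      have := hts ht
      exact ⟨by linarith [this.1, ha1.1], by linarith [this.2, hb1.2]⟩

/-- du Bois-Reymond lemma for continuous functions -/
lemma dbr {a b : ℝ} (hab : a < b) {F : ℝ → ℂ} (hF : ContinuousOn F (Ioo a b))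
    (h : ∀ φ : ℝ → ℝ, ContDiff ℝ ∞ φ → HasCompactSupport φ → tsupport φ ⊆ Ioo a b →
      ∫ t in Ioo a b, ((deriv φ t : ℝ) : ℂ) * F t = 0) :
    ∃ c, ∀ t ∈ Ioo a b, F t = c := by
  set x0 := (a + b) / 2 with hx0
  set δ := (b - a) / 4 with hδ
  have hδpos : 0 < δ := by rw [hδ]; linarith
  let f : ContDiffBump x0 := ⟨δ / 2, δ, by linarith, by linarith⟩
  set η : ℝ → ℝ := f.normed volume with hη
  have hηd : ContDiff ℝ ∞ η := f.contDiff_normed
  have hηc : HasCompactSupport η := f.hasCompactSupport_normed
  have hηs : tsupport η ⊆ Ioo a b := by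
    rw [hη, f.tsupport_normed_eq, Real.closedBall_eq_Icc]
    intro t ht
    have h1 : x0 - δ ≤ t := ht.1
    have h2 : t ≤ x0 + δ := ht.2
    rw [hx0, hδ] at h1 h2
    exact ⟨by linarith, by linarith⟩
  have hηi : ∫ t, η t = 1 := f.integral_normed
  set c : ℂ := ∫ t, ((η t : ℝ) : ℂ) * F t with hc
  have hintF : ∀ ψ : ℝ → ℝ, ContDiff ℝ ∞ ψ → HasCompactSupport ψ → tsupport ψ ⊆ Ioo a b →
      Integrable (fun t => ((ψ t : ℝ) : ℂ) * F t) := by
    intro ψ h1 h2 h3
    apply integrable_of_cont_supp h2.isCompact h3
    · exact (Complex.continuous_ofReal.comp h1.continuous).continuousOn.mul hF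
    · intro t ht
      rw [image_eq_zero_of_notMem_tsupport ht]; simp
  have key : ∀ ψ : ℝ → ℝ, ContDiff ℝ ∞ ψ → HasCompactSupport ψ → tsupport ψ ⊆ Ioo a b →
      ∫ t, ψ t • (F t - c) = 0 := by
    intro ψ h1 h2 h3
    set A := ∫ t, ψ t with hA
    set χ : ℝ → ℝ := fun t => ψ t - A * η t with hχ
    have c1 : ContDiff ℝ ∞ χ := h1.sub (contDiff_const.mul hηd)
    have hsubχ : Function.support χ ⊆ tsupport ψ ∪ tsupport η := by
      intro t ht
      by_contra hn
      rw [mem_union, not_or] at hn
      apply ht
      rw [hχ]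
      simp only
      rw [image_eq_zero_of_notMem_tsupport hn.1, image_eq_zero_of_notMem_tsupport hn.2]
      simp
    have c2 : HasCompactSupport χ :=
      HasCompactSupport.of_support_subset_isCompact (h2.isCompact.union hηc.isCompact) hsubχ
    have c3 : tsupport χ ⊆ Ioo a b :=
      (closure_minimal hsubχ (h2.isCompact.union hηc.isCompact).isClosed).trans
        (union_subset h3 hηs)
    have i1 : Integrable ψ := h1.continuous.integrable_of_hasCompactSupport h2
    have i2 : Integrable η := hηd.continuous.integrable_of_hasCompactSupport hηc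
    have c4 : ∫ t, χ t = 0 := by
      rw [hχ]
      rw [integral_sub i1 (i2.const_mul A), integral_const_mul, hηi]
      simp [hA]
    obtain ⟨φ, p1, p2, p3, p4⟩ := exists_primitive c1 c2 c3 c4
    have h5 := h φ p1 p2 p3
    rw [p4] at h5
    rw [setIntegral_eq_integral_of_forall_compl_eq_zero] at h5
    · have h6 : ∫ t, ((χ t : ℝ) : ℂ) * F t = (∫ t, ((ψ t : ℝ) : ℂ) * F t) - A * c := by
        have : (fun t => ((χ t : ℝ) : ℂ) * F t) =
            fun t => ((ψ t : ℝ) : ℂ) * F t - (A : ℂ) * (((η t : ℝ) : ℂ) * F t) := by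
          funext t
          rw [hχ]
          push_cast
          ring
        rw [this, integral_sub (hintF ψ h1 h2 h3) ((hintF η hηd hηc hηs).const_mul _),
          integral_const_mul]
      rw [h6] at h5
      have h7 : ∫ t, ψ t • (F t - c) = (∫ t, ((ψ t : ℝ) : ℂ) * F t) - A * c := by
        have : (fun t => ψ t • (F t - c)) =
            fun t => ((ψ t : ℝ) : ℂ) * F t - ((ψ t : ℝ) : ℂ) * c := by
          funext t
          rw [Complex.real_smul]
          ring
        have i3 : Integrable (fun t => ((ψ t : ℝ) : ℂ)) := i1.ofReal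
        have i4 : ∫ t, ((ψ t : ℝ) : ℂ) = (A : ℂ) := integral_ofReal
        rw [this, integral_sub (hintF ψ h1 h2 h3) (i3.mul_const c), integral_mul_const, i4]
      rw [h7]
      exact h5
    · intro t ht
      have : t ∉ tsupport χ := fun h => ht (c3 h)
      rw [image_eq_zero_of_notMem_tsupport this]; simp
  have hloc : LocallyIntegrableOn (fun t => F t - c) (Ioo a b) :=
    (hF.sub continuousOn_const).locallyIntegrableOn measurableSet_Ioo
  have hae := isOpen_Ioo.ae_eq_zero_of_integral_contDiff_smul_eq_zero hloc key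
  refine ⟨c, ?_⟩
  have h8 : F =ᵐ[volume.restrict (Ioo a b)] fun _ => c := by
    rw [EventuallyEq, ae_restrict_iff' measurableSet_Ioo]
    filter_upwards [hae] with t ht htm
    exact sub_eq_zero.mp (ht htm)
  exact Measure.eqOn_open_of_ae_eq h8 isOpen_Ioo hF continuousOn_const

/-- weak implies classical in one dimension -/
theorem classical_of_weak {T : ℝ} (hT : 0 < T) {c R : ℝ → ℂ} (hc : ContinuousOn c (Ioo (-T) T))
    (hR : ContinuousOn R (Ioo (-T) T))
    (h : ∀ φ : ℝ → ℝ, ContDiff ℝ ∞ φ → HasCompactSupport φ → tsupport φ ⊆ Ioo (-T) T →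
      ∫ t in Ioo (-T) T, (((deriv φ t : ℝ) : ℂ) * c t + ((φ t : ℝ) : ℂ) * R t) = 0) :
    ∀ t ∈ Ioo (-T) T, HasDerivAt c (R t) t := by
  have h0 : (0 : ℝ) ∈ Ioo (-T) T := ⟨by linarith, hT⟩
  set G : ℝ → ℂ := fun t => ∫ x in (0 : ℝ)..t, R x with hG
  have hGd : ∀ t ∈ Ioo (-T) T, HasDerivAt G (R t) t := by
    intro t ht
    have hnb : Ioo (-T) T ∈ 𝓝 t := Ioo_mem_nhds ht.1 ht.2
    apply intervalIntegral.integral_hasDerivAt_right
    · apply ContinuousOn.intervalIntegrable
      apply hR.mono
      exact (convex_Ioo (-T) T).ordConnected.uIcc_subset h0 ht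
    · exact ContinuousOn.stronglyMeasurableAtFilter_nhdsWithin hR measurableSet_Ioo t
        |>.filter_mono (by rw [nhdsWithin_eq_nhds.mpr hnb])
    · exact hR.continuousAt hnb
  have hGc : ContinuousOn G (Ioo (-T) T) := fun t ht => (hGd t ht).continuousAt.continuousWithinAt
  obtain ⟨k, hk⟩ := dbr (by linarith) (hc.sub hGc) (by
    intro φ h1 h2 h3
    have e1 := h φ h1 h2 h3
    have e2 := integral_deriv_mul h1 h2 h3 hGd hR
    have hdc : Continuous (deriv φ) := h1.continuous_deriv (by simp)
    have hzd : ∀ t ∉ tsupport φ, deriv φ t = 0 := by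
      intro t ht
      have : t ∉ tsupport (deriv φ) := fun h => ht (tsupport_deriv_subset h)
      exact image_eq_zero_of_notMem_tsupport this
    have i1 : Integrable (fun t => ((deriv φ t : ℝ) : ℂ) * c t + ((φ t : ℝ) : ℂ) * R t) := by
      apply integrable_of_cont_supp h2.isCompact h3
      · exact ((Complex.continuous_ofReal.comp hdc).continuousOn.mul hc).add
          ((Complex.continuous_ofReal.comp h1.continuous).continuousOn.mul hR)
      · intro t ht
        rw [image_eq_zero_of_notMem_tsupport ht, hzd t ht]; simp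
    have i2 : Integrable (fun t => ((deriv φ t : ℝ) : ℂ) * G t + ((φ t : ℝ) : ℂ) * R t) := by
      apply integrable_of_cont_supp h2.isCompact h3
      · exact ((Complex.continuous_ofReal.comp hdc).continuousOn.mul hGc).add
          ((Complex.continuous_ofReal.comp h1.continuous).continuousOn.mul hR)
      · intro t ht
        rw [image_eq_zero_of_notMem_tsupport ht, hzd t ht]; simp
    have e3 : (fun t => ((deriv φ t : ℝ) : ℂ) * (c - G) t) =
        fun t => (((deriv φ t : ℝ) : ℂ) * c t + ((φ t : ℝ) : ℂ) * R t) -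
          (((deriv φ t : ℝ) : ℂ) * G t + ((φ t : ℝ) : ℂ) * R t) := by
      funext t
      rw [Pi.sub_apply]
      ring
    rw [e3, integral_sub i1.integrableOn i2.integrableOn, e1, e2, sub_zero])
  intro t ht
  have hnb : Ioo (-T) T ∈ 𝓝 t := Ioo_mem_nhds ht.1 ht.2
  have h2 := (hGd t ht).add_const k
  apply h2.congr_of_eventuallyEq
  filter_upwards [hnb] with x hx
  have := hk x hx
  rw [Pi.sub_apply] at this
  rw [← this]
  ring

end H6CCM
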